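import Mathlib
import Pool.Agent.H374R2.W.QL

/-!
A lower bound for `|log (U / U') - a log (A / A')|` (two logarithms of rational numbers, one
coefficient equal to `1`), by interpolation determinants with binomial coefficients.
-/

set_option autoImplicit false

namespace Pool.Agent.H49SE

open Finset
open Pool.Agent.H374R2
open Pool.Agent.H374R2.W.QL (exists_det_ne_zero det_choose)

theorem lflQ {A A' U U' a Y Z L : ℕ} (hA' : 0 < A') (hAA : A' < A) (hU : 0 < U) (hU' : 0 < U')
    (hY : 1 ≤ Y) (hZ : 1 ≤ Z) (hL : 1 ≤ L) (hAY : Real.log A ≤ Y)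
    (hUZ : Real.log U ≤ Z) (hUZ' : Real.log U' ≤ Z)
    (hMa : 145 * Z * L ≤ a) (hLa : 8 * (3 + Real.log a) ≤ L) :
    Real.exp (-(20880 * (Y : ℝ) * Z * (L : ℝ) ^ 2)) <
      |Real.log ((U : ℝ) / U') - a * Real.log ((A : ℝ) / A')| := by
  classical
  by_contra hcon
  rw [not_lt] at hcon
  have hA'r : (1 : ℝ) ≤ A' := by exact_mod_cast hA'
  have hAr : (A' : ℝ) < A := by exact_mod_cast hAA
  have hUr : (1 : ℝ) ≤ U := by exact_mod_cast hU
  have hU'r : (1 : ℝ) ≤ U' := by exact_mod_cast hU'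
  obtain ⟨α, hα⟩ : ∃ α : ℝ, α = (A : ℝ) / A' := ⟨_, rfl⟩
  obtain ⟨υ, hυ⟩ : ∃ υ : ℝ, υ = (U : ℝ) / U' := ⟨_, rfl⟩
  have hα1 : 1 < α := by rw [hα, lt_div_iff₀ (by linarith)]; linarith
  have hυ0 : 0 < υ := by rw [hυ]; positivity
  rw [← hα, ← hυ] at hcon
  have ha1 : 1 ≤ a := by
    have : 0 < 145 * Z * L := by positivity
    omega
  set Λ : ℝ := Real.log υ - a * Real.log α with hΛ
  set R : ℕ := 145 * Z * L with hR
  set S : ℕ := 145 * Y * L with hS
  set K : ℕ := 20880 * Y * Z * L with hK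
  have hYr : (1:ℝ) ≤ Y := by exact_mod_cast hY
  have hZr : (1:ℝ) ≤ Z := by exact_mod_cast hZ
  have hLr : (1:ℝ) ≤ L := by exact_mod_cast hL
  have har : (1:ℝ) ≤ a := by exact_mod_cast ha1
  have hRr : (R:ℝ) = 145 * Z * L := by rw [hR]; push_cast; ring
  have hSr : (S:ℝ) = 145 * Y * L := by rw [hS]; push_cast; ring
  have hKr : (K:ℝ) = 20880 * Y * Z * L := by rw [hK]; push_cast; ring
  have hYZ : (1:ℝ) ≤ (Y:ℝ) * Z := one_le_mul_of_one_le_of_one_le hYr hZr
  have hYL : (1:ℝ) ≤ (Y:ℝ) * L := one_le_mul_of_one_le_of_one_le hYr hLr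
  have hYZL : (1:ℝ) ≤ (Y:ℝ) * Z * L := one_le_mul_of_one_le_of_one_le hYZ hLr
  have hKL : (K:ℝ) * L = 20880 * (Y:ℝ) * Z * (L:ℝ) ^ 2 := by rw [hKr]; ring
  have hlogα : 0 < Real.log α := Real.log_pos hα1
  have hlogα' : Real.log α ≤ Y := by
    refine le_trans (Real.log_le_log (by linarith) ?_) hAY
    rw [hα, div_le_iff₀ (by linarith)]
    nlinarith
  have hlogA' : Real.log A' ≤ Y := le_trans (Real.log_le_log (by linarith) hAr.le) hAY
  have hlogA'0 : 0 ≤ Real.log A' := Real.log_nonneg hA'r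
  have hlogU'0 : 0 ≤ Real.log U' := Real.log_nonneg hU'r
  have hlogυ : Real.log υ ≤ Z := by
    rw [hυ, Real.log_div (by linarith) (by linarith)]
    linarith
  -- the zero estimate
  have hzeroM : (K - 1) * L < R * S := by
    have h1 : K * L < R * S := by
      have e1 : K * L = 20880 * (Y * Z * L * L) := by rw [hK]; ring
      have e2 : R * S = 21025 * (Y * Z * L * L) := by rw [hR, hS]; ring
      have hp : 0 < Y * Z * L * L := by positivity
      rw [e1, e2]
      omega
    exact lt_of_le_of_lt (Nat.mul_le_mul_right _ (Nat.sub_le _ _)) h1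
  have hA'q : (0 : ℚ) < A' := by exact_mod_cast hA'
  have hAq : (A' : ℚ) < A := by exact_mod_cast hAA
  have hUq : (0 : ℚ) < U := by exact_mod_cast hU
  have hU'q : (0 : ℚ) < U' := by exact_mod_cast hU'
  obtain ⟨j, hjT, hdet⟩ := exists_det_ne_zero (ι := Fin K × Fin L) (T := ℕ × ℕ)
    (fun τ i => (Nat.choose (τ.1 * 1 + τ.2 * a) i.1 : ℚ) *
      (((A : ℚ) / A') ^ τ.1 * ((U : ℚ) / U') ^ τ.2) ^ (i.2 : ℕ))
    {τ | τ.1 < R + L - 1 ∧ τ.2 < S} (by
      intro c hc
      have hA1 : ((A : ℚ) / A') ≠ 1 := by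
        rw [Ne, div_eq_one_iff_eq hA'q.ne']
        exact hAq.ne'
      have := T.TaskZ.zero_estimate (K := K) (L := L) (R₂ := R) (S₂ := S) (i := 1) (q := a)
        (β := (A : ℚ) / A') (κ := (U : ℚ) / U') (div_pos (hA'q.trans hAq) hA'q) hA1
        (div_pos hUq hU'q) (Nat.coprime_one_left a) hMa hzeroM
        (fun k l => c (k, l)) (by
          intro r s hr hs
          have := hc (r, s) ⟨hr, hs⟩
          rw [← this, Fintype.sum_prod_type]
          refine sum_congr rfl fun k _ => sum_congr rfl fun l _ => ?_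
          ring)
      ext ⟨k, l⟩
      exact this k l)
  clear_value K R S
  -- integrality
  set E : Matrix (Fin K × Fin L) (Fin K × Fin L) ℝ := Matrix.of fun i i' =>
    (Nat.choose ((j i').1 * 1 + (j i').2 * a) i.1 : ℝ) *
      (α ^ (j i').1 * υ ^ (j i').2) ^ (i.2 : ℕ) with hE
  obtain ⟨dd, hdd⟩ : ∃ dd : Fin K × Fin L → ℝ, dd = fun i' =>
    ((A' : ℝ) ^ (j i').1 * (U' : ℝ) ^ (j i').2) ^ (L - 1) := ⟨_, rfl⟩
  have hdd1 : ∀ i', 1 ≤ dd i' := fun i' => by
    rw [hdd]
    exact one_le_pow₀ (one_le_mul_of_one_le_of_one_le (one_le_pow₀ hA'r) (one_le_pow₀ hU'r))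
  have hdet1 : 1 ≤ |E.det| * ∏ i', dd i' := by
    set Zm : Matrix (Fin K × Fin L) (Fin K × Fin L) ℤ := Matrix.of fun i i' =>
      (Nat.choose ((j i').1 * 1 + (j i').2 * a) i.1 : ℤ) *
        (((A : ℤ) ^ (j i').1 * (U : ℤ) ^ (j i').2) ^ (i.2 : ℕ) *
          ((A' : ℤ) ^ (j i').1 * (U' : ℤ) ^ (j i').2) ^ (L - 1 - (i.2 : ℕ))) with hZm
    have key : ∀ (F : Type) [Field F] [CharZero F] (i i' : Fin K × Fin L),
        ((Zm i i' : ℤ) : F) = ((A' : F) ^ (j i').1 * (U' : F) ^ (j i').2) ^ (L - 1) *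
          ((Nat.choose ((j i').1 * 1 + (j i').2 * a) i.1 : F) *
            (((A : F) / A') ^ (j i').1 * ((U : F) / U') ^ (j i').2) ^ (i.2 : ℕ)) := by
      intro F _ _ i i'
      have h1 : (A' : F) ≠ 0 := by exact_mod_cast hA'.ne'
      have h2 : (U' : F) ≠ 0 := by exact_mod_cast hU'.ne'
      have h3 : L - 1 = (i.2 : ℕ) + (L - 1 - (i.2 : ℕ)) := by
        have := i.2.2
        omega
      simp only [hZm, Matrix.of_apply]
      push_cast
      conv_rhs => rw [h3, pow_add]
      have h4 : ((A : F) ^ (j i').1 * (U : F) ^ (j i').2) =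
          ((A' : F) ^ (j i').1 * (U' : F) ^ (j i').2) *
            (((A : F) / A') ^ (j i').1 * ((U : F) / U') ^ (j i').2) := by
        rw [div_pow, div_pow]
        field_simp
      rw [h4, mul_pow]
      ring
    have h3 : Zm.det ≠ 0 := by
      intro h0
      apply hdet
      have h4 : Zm.map (Int.castRingHom ℚ) = Matrix.of fun i i' =>
          (fun i' => ((A' : ℚ) ^ (j i').1 * (U' : ℚ) ^ (j i').2) ^ (L - 1)) i' *
          (Matrix.of fun i i' : Fin K × Fin L =>
          (Nat.choose ((j i').1 * 1 + (j i').2 * a) i.1 : ℚ) *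
            (((A : ℚ) / A') ^ (j i').1 * ((U : ℚ) / U') ^ (j i').2) ^ (i.2 : ℕ)) i i' := by
        ext i i'
        simp only [Matrix.map_apply, Matrix.of_apply, Int.coe_castRingHom]
        exact key ℚ i i'
      have h5 := RingHom.map_det (Int.castRingHom ℚ) Zm
      rw [h0, map_zero] at h5
      have h6 : (Zm.map (Int.castRingHom ℚ)).det = 0 := by
        simpa [RingHom.mapMatrix_apply] using h5.symm
      rw [h4, Matrix.det_mul_row] at h6
      rcases mul_eq_zero.1 h6 with h7 | h7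
      · rw [Finset.prod_eq_zero_iff] at h7
        obtain ⟨i', -, h8⟩ := h7
        exact absurd h8 (by positivity)
      · exact h7
    have h4 : Zm.map (Int.castRingHom ℝ) = Matrix.of fun i i' => dd i' * E i i' := by
      ext i i'
      simp only [Matrix.map_apply, Matrix.of_apply, Int.coe_castRingHom, hE, hdd, hα, hυ]
      exact key ℝ i i'
    have h5 : (∏ i', dd i') * E.det = (Zm.det : ℝ) := by
      rw [← Matrix.det_mul_row, ← h4]
      have := RingHom.map_det (Int.castRingHom ℝ) Zm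
      simpa [RingHom.mapMatrix_apply] using this.symm
    have h6 : |E.det| * ∏ i', dd i' = |((Zm.det : ℤ) : ℝ)| := by
      rw [← h5, abs_mul, abs_of_pos (Finset.prod_pos fun i' _ => lt_of_lt_of_le zero_lt_one (hdd1 i')),
        mul_comm]
    rw [h6, ← Int.cast_abs]
    exact_mod_cast Int.one_le_abs h3
  -- the matrix of powers
  set V : Matrix (Fin K × Fin L) (Fin K × Fin L) ℝ := Matrix.of fun i i' =>
    (((j i').1 * 1 + (j i').2 * a : ℕ) : ℝ) ^ (i.1 : ℕ) *
      (α ^ (j i').1 * υ ^ (j i').2) ^ (i.2 : ℕ) with hV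
  obtain ⟨Fc, hFc⟩ : ∃ Fc : ℝ, Fc = ∏ i : Fin K × Fin L, (((i.1 : ℕ).factorial : ℕ) : ℝ) :=
    ⟨_, rfl⟩
  have hFc0 : 0 < Fc := by
    rw [hFc]
    exact prod_pos fun i _ => by exact_mod_cast Nat.factorial_pos _
  have hVdet : V.det = Fc * E.det := by
    rw [hFc]
    exact det_choose (fun i' => (j i').1 * 1 + (j i').2 * a)
      (fun i' => α ^ (j i').1 * υ ^ (j i').2)
  have hVge : Fc ≤ |V.det| * ∏ i', dd i' := by
    rw [hVdet, abs_mul, abs_of_pos hFc0, mul_assoc]
    exact le_mul_of_one_le_right hFc0.le hdet1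
  -- analytic estimate
  set X : ℝ := (R + L) + S * a with hX
  have hX0 : 0 ≤ X := by rw [hX]; positivity
  obtain ⟨c, hc⟩ : ∃ c : ℝ, c = Real.log α := ⟨_, rfl⟩
  have hc0 : 0 ≤ c := hc ▸ hlogα.le
  have hN : Fintype.card (Fin K × Fin L) = K * L := by simp
  have hVeq : V = Matrix.of fun i i' : Fin K × Fin L =>
      (fun i' => (((j i').1 * 1 + (j i').2 * a : ℕ) : ℝ)) i' ^ ((fun i : Fin K × Fin L => (i.1 : ℕ)) i) *
      Real.exp (((fun i : Fin K × Fin L => (i.2 : ℕ)) i : ℕ) *
        (c * (fun i' => (((j i').1 * 1 + (j i').2 * a : ℕ) : ℝ)) i' +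
          (fun i' => ((j i').2 : ℝ) * Λ) i')) := by
    ext i i'
    simp only [hV, Matrix.of_apply]
    congr 1
    have h1 : c * (((j i').1 * 1 + (j i').2 * a : ℕ) : ℝ) + ((j i').2 : ℝ) * Λ
        = (j i').1 * Real.log α + (j i').2 * Real.log υ := by
      rw [hc, hΛ]
      push_cast
      ring
    rw [h1]
    rw [Real.exp_nat_mul, Real.exp_add, Real.exp_nat_mul, Real.exp_nat_mul,
      Real.exp_log (by linarith : (0:ℝ) < α), Real.exp_log hυ0]
  have hschw := H440R2.schwarz_exp (ι := Fin K × Fin L) (fun i => (i.1 : ℕ)) (fun i => (i.2 : ℕ))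
    (fun i' => (((j i').1 * 1 + (j i').2 * a : ℕ) : ℝ))
    (fun i' => ((j i').2 : ℝ) * Λ) c X (S * |Λ|) (Real.exp 1) hc0 hX0
    (by positivity) (by rw [← Real.exp_zero]; exact Real.exp_le_exp.mpr (by norm_num))
    (by
      intro i'
      have h1 : (j i').1 < R + L - 1 := (hjT i').1
      have h1'' : (j i').1 ≤ R + L := by omega
      have h2 : (j i').2 < S := (hjT i').2
      rw [abs_of_nonneg (by positivity), hX]
      push_cast
      have h1' : ((j i').1 : ℝ) ≤ R + L := by exact_mod_cast h1''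
      have h2' : ((j i').2 : ℝ) ≤ S := by exact_mod_cast h2.le
      rw [mul_one]
      exact add_le_add h1' (mul_le_mul_of_nonneg_right h2' (by linarith)))
    (by
      intro i'
      have h2 : (j i').2 < S := (hjT i').2
      have h2' : ((j i').2 : ℝ) ≤ S := by exact_mod_cast h2.le
      rw [abs_mul, Nat.abs_cast]
      gcongr)
  rw [← hVeq, hN] at hschw
  -- the denominators
  have hprodd : ∏ i', dd i' ≤ Real.exp (((K * L : ℕ) : ℝ) * (L * (291 * (Y * Z * L)))) := by
    have h1 : ∀ i', dd i' ≤ Real.exp (L * (291 * (Y * Z * L))) := by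
      intro i'
      have h1 : (j i').1 < R + L - 1 := (hjT i').1
      have h1'' : (j i').1 ≤ R + L := by omega
      have h2 : (j i').2 < S := (hjT i').2
      have h1' : ((j i').1 : ℝ) ≤ R + L := by exact_mod_cast h1''
      have h2' : ((j i').2 : ℝ) ≤ S := by exact_mod_cast h2.le
      rw [hdd]
      show ((A' : ℝ) ^ (j i').1 * (U' : ℝ) ^ (j i').2) ^ (L - 1) ≤ _
      have h3 : ((A' : ℝ) ^ (j i').1 * (U' : ℝ) ^ (j i').2) =
          Real.exp ((j i').1 * Real.log A' + (j i').2 * Real.log U') := by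
        rw [Real.exp_add, Real.exp_nat_mul, Real.exp_nat_mul, Real.exp_log (by linarith),
          Real.exp_log (by linarith)]
      rw [h3, ← Real.exp_nat_mul]
      apply Real.exp_le_exp.2
      have h4 : ((L - 1 : ℕ) : ℝ) ≤ L := by exact_mod_cast Nat.sub_le L 1
      have h5 : (j i').1 * Real.log A' + (j i').2 * Real.log U' ≤ 291 * (Y * Z * L) := by
        have e1 : (j i').1 * Real.log A' ≤ (R + L) * Y :=
          mul_le_mul h1' hlogA' hlogA'0 (by positivity)
        have e2 : (j i').2 * Real.log U' ≤ S * Z :=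
          mul_le_mul h2' hUZ' hlogU'0 (by positivity)
        have hZL : (L:ℝ) ≤ Z * L := le_mul_of_one_le_left (by linarith) hZr
        have e3 : ((R : ℝ) + L) * Y ≤ (146 * (Z * L)) * Y := by
          apply mul_le_mul_of_nonneg_right _ (by linarith)
          rw [hRr]; linarith
        rw [hSr] at e2
        have e4 : (145 * (Y:ℝ) * L) * Z = 145 * (Y * Z * L) := by ring
        have e5 : (146 * ((Z:ℝ) * L)) * Y = 146 * (Y * Z * L) := by ring
        linarith
      have h6 : 0 ≤ (j i').1 * Real.log A' + (j i').2 * Real.log U' := by positivity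
      exact mul_le_mul h4 h5 h6 (by linarith)
    calc ∏ i', dd i' ≤ ∏ _i' : Fin K × Fin L, Real.exp (L * (291 * (Y * Z * L))) :=
          prod_le_prod (fun i' _ => zero_le_one.trans (hdd1 i')) fun i' _ => h1 i'
      _ = _ := by
          rw [prod_const, card_univ, hN, ← Real.exp_nat_mul]
  clear_value E V X
  obtain ⟨N, hNdef⟩ : ∃ N : ℕ, N = K * L := ⟨_, rfl⟩
  rw [← hNdef] at hschw hprodd
  have hNr : (N:ℝ) = 20880 * (Y:ℝ) * Z * (L:ℝ) ^ 2 := by rw [hNdef]; push_cast; exact hKL
  have hNbig : (20880:ℝ) ≤ N := by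
    rw [hNr]
    have : (1:ℝ) ≤ ((Y:ℝ) * Z) * (L:ℝ)^2 :=
      one_le_mul_of_one_le_of_one_le hYZ (one_le_pow₀ hLr)
    linarith
  -- bound of W
  obtain ⟨W, hW⟩ : ∃ W : ℝ, W = c * (Real.exp 1 * X) + Real.exp 1 ^ N * (S * |Λ|) :=
    ⟨_, rfl⟩
  have he1 : Real.exp 1 < 2.7182818286 := Real.exp_one_lt_d9
  have hexpN : Real.exp 1 ^ N * |Λ| ≤ 1 := by
    rw [← Real.exp_nat_mul, mul_one]
    calc Real.exp N * |Λ| ≤ Real.exp N * Real.exp (-(20880 * (Y:ℝ) * Z * (L:ℝ) ^ 2)) := by
          gcongr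
      _ = 1 := by rw [← Real.exp_add, hNr]; simp
  have hΛ1 : |Λ| ≤ 1 := by
    refine hcon.trans ?_
    rw [Real.exp_le_one_iff]
    have : 0 ≤ 20880 * (Y:ℝ) * Z * (L:ℝ) ^ 2 := by positivity
    linarith
  have h2a : a * Real.log α ≤ Z + 1 := by
    have h3 : a * Real.log α = Real.log υ - Λ := by rw [hΛ]; ring
    rw [h3]
    have := neg_le_abs Λ
    linarith
  have hcX : c * X ≤ 436 * (Y * Z * L) := by
    have h1 : c * X = (R + L) * Real.log α + S * (a * Real.log α) := by
      rw [hc, hX]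
      ring
    have hZL : (L:ℝ) ≤ Z * L := le_mul_of_one_le_left (by linarith) hZr
    rw [h1]
    have h5 : (R + L) * Real.log α ≤ (146 * (Z * L)) * Y := by
      apply mul_le_mul _ hlogα' hlogα.le (by positivity)
      rw [hRr]; linarith
    have h6 : S * (a * Real.log α) ≤ S * (Z + Z) := by
      apply mul_le_mul_of_nonneg_left _ (by positivity)
      linarith
    rw [hSr] at h6
    have h7 : (145 * (Y:ℝ) * L) * (Z + Z) = 290 * (Y * Z * L) := by ring
    have h8 : (146 * ((Z:ℝ) * L)) * Y = 146 * (Y * Z * L) := by ring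
    rw [hSr]
    linarith
  have hW12 : W ≤ 1340 * (Y * Z * L) := by
    have h1 : c * (Real.exp 1 * X) = Real.exp 1 * (c * X) := by ring
    have h2 : Real.exp 1 ^ N * (S * |Λ|) ≤ 145 * (Y * Z * L) := by
      have h3 : Real.exp 1 ^ N * (S * |Λ|) = (Real.exp 1 ^ N * |Λ|) * S := by ring
      rw [h3]
      calc (Real.exp 1 ^ N * |Λ|) * S ≤ 1 * S := by gcongr
        _ ≤ 145 * (Y * Z * L) := by
          rw [one_mul, hSr]
          have : (Y:ℝ) * L ≤ Y * Z * L := by
            have : (Y:ℝ) * Z * L = (Y * L) * Z := by ring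
            rw [this]
            exact le_mul_of_one_le_right (by linarith) hZr
          linarith
    have h4 : Real.exp 1 * (c * X) ≤ 2.7182818286 * (436 * (Y * Z * L)) := by
      apply mul_le_mul he1.le hcX (by positivity) (by norm_num)
    rw [hW, h1]
    linarith
  have hW0 : 0 ≤ W := by rw [hW]; positivity
  -- the size of X
  have hXK : X ≤ a * K := by
    have h2 : (S:ℝ) * a ≤ 145 * (Y * Z * L) * a := by
      apply mul_le_mul_of_nonneg_right _ (by linarith)
      rw [hSr]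
      have : (Y:ℝ) * L ≤ Y * Z * L := by
        have : (Y:ℝ) * Z * L = (Y * L) * Z := by ring
        rw [this]
        exact le_mul_of_one_le_right (by linarith) hZr
      linarith
    have h3 : ((R:ℝ) + L) ≤ 146 * (Y * Z * L) * a := by
      have h4 : ((R:ℝ) + L) ≤ 146 * (Y * Z * L) := by
        rw [hRr]
        have hZL : (L:ℝ) ≤ Z * L := le_mul_of_one_le_left (by linarith) hZr
        have : (Z:ℝ) * L ≤ Y * Z * L := by
          have e : (Y:ℝ) * Z * L = Y * (Z * L) := by ring
          rw [e]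
          exact le_mul_of_one_le_left (by positivity) hYr
        linarith
      exact h4.trans (le_mul_of_one_le_right (by positivity) har)
    rw [hX, hKr]
    have h6 : (a:ℝ) * (20880 * Y * Z * L) = 20880 * ((Y * Z * L) * a) := by ring
    have h7 : (0:ℝ) ≤ (Y * Z * L) * a := by positivity
    linarith
  -- each factor
  have hKpos : (0:ℝ) < K := by rw [hKr]; positivity
  have hbe : 1 ≤ Real.exp 1 * a := by
    have : 1 ≤ Real.exp 1 := by
      rw [← Real.exp_zero]; exact Real.exp_le_exp.mpr (by norm_num)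
    exact one_le_mul_of_one_le_of_one_le this har
  have hfac : ∀ k : ℕ, k < K → (Real.exp 1 * X) ^ k ≤
      (k.factorial : ℝ) * ((Real.exp 1 * a) ^ K * Real.exp K) := by
    intro k hk
    have h1 : (Real.exp 1 * X) ^ k = (Real.exp 1 * X / K) ^ k * (K:ℝ) ^ k := by
      rw [← mul_pow]
      congr 1
      field_simp
    have h2 : (K:ℝ) ^ k / k.factorial ≤ Real.exp K := Real.pow_div_factorial_le_exp _ hKpos.le k
    have h3 : (K:ℝ) ^ k ≤ k.factorial * Real.exp K := by
      rw [div_le_iff₀ (by exact_mod_cast Nat.factorial_pos k)] at h2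
      linarith
    have h4 : Real.exp 1 * X / K ≤ Real.exp 1 * a := by
      rw [div_le_iff₀ hKpos, mul_assoc]
      exact mul_le_mul_of_nonneg_left hXK (Real.exp_pos 1).le
    have h5 : (Real.exp 1 * X / K) ^ k ≤ (Real.exp 1 * a) ^ K :=
      (pow_le_pow_left₀ (by positivity) h4 k).trans (pow_le_pow_right₀ hbe hk.le)
    rw [h1]
    calc (Real.exp 1 * X / K) ^ k * (K:ℝ) ^ k
        ≤ (Real.exp 1 * a) ^ K * (k.factorial * Real.exp K) :=
          mul_le_mul h5 h3 (by positivity) (by positivity)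
      _ = _ := by ring
  set F : ℝ := (Real.exp 1 * a) ^ K * Real.exp K * Real.exp (L * W) with hF
  have hF0 : 0 < F := by rw [hF]; positivity
  have hprod : ∏ i : Fin K × Fin L, ((Real.exp 1 * X) ^ (i.1 : ℕ) *
      Real.exp ((i.2 : ℕ) * (c * (Real.exp 1 * X) + Real.exp 1 ^ N * (S * |Λ|)))) ≤
      Fc * F ^ N := by
    calc _ ≤ ∏ i : Fin K × Fin L, ((((i.1 : ℕ).factorial : ℕ) : ℝ) * F) := by
          apply prod_le_prod
          · intro i _
            positivity
          · intro i _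
            have e0 : (((i.1 : ℕ).factorial : ℕ) : ℝ) * F =
                ((((i.1 : ℕ).factorial : ℕ) : ℝ) * ((Real.exp 1 * a) ^ K * Real.exp K)) *
                  Real.exp (L * W) := by rw [hF]; ring
            rw [e0]
            apply mul_le_mul
            · exact hfac _ i.1.2
            · apply Real.exp_le_exp.mpr
              rw [← hW]
              apply mul_le_mul_of_nonneg_right _ hW0
              exact_mod_cast i.2.2.le
            · positivity
            · positivity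
      _ = Fc * F ^ N := by rw [prod_mul_distrib, ← hFc]; simp [hNdef]
  obtain ⟨G, hG⟩ : ∃ G : ℝ, G = Real.exp (L * (291 * (Y * Z * L))) := ⟨_, rfl⟩
  have hG0 : 0 < G := by rw [hG]; positivity
  have hprodd' : ∏ i', dd i' ≤ G ^ N := by rw [hG, ← Real.exp_nat_mul]; exact hprodd
  have hdd0 : 0 < ∏ i', dd i' := Finset.prod_pos fun i' _ => lt_of_lt_of_le zero_lt_one (hdd1 i')
  have hmain : Real.exp 1 ^ (N * (N - 1) / 2) ≤ (N:ℝ) ^ N * F ^ N * G ^ N := by
    have h1 : Fc * Real.exp 1 ^ (N * (N - 1) / 2) ≤ Fc * ((N:ℝ) ^ N * F ^ N * G ^ N) := by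
      calc Fc * Real.exp 1 ^ (N * (N - 1) / 2)
          ≤ (|V.det| * ∏ i', dd i') * Real.exp 1 ^ (N * (N - 1) / 2) :=
            mul_le_mul_of_nonneg_right hVge (by positivity)
        _ = (|V.det| * Real.exp 1 ^ (N * (N - 1) / 2)) * ∏ i', dd i' := by ring
        _ ≤ (N.factorial * ∏ i : Fin K × Fin L, ((Real.exp 1 * X) ^ (i.1 : ℕ) *
            Real.exp ((i.2 : ℕ) * (c * (Real.exp 1 * X) + Real.exp 1 ^ N * (S * |Λ|))))) *
              ∏ i', dd i' := mul_le_mul_of_nonneg_right hschw hdd0.le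
        _ ≤ ((N:ℝ) ^ N * (Fc * F ^ N)) * G ^ N := by
            refine mul_le_mul ?_ hprodd' hdd0.le (by positivity)
            apply mul_le_mul _ hprod (by positivity) (by positivity)
            exact_mod_cast Nat.factorial_le_pow N
        _ = Fc * ((N:ℝ) ^ N * F ^ N * G ^ N) := by ring
    exact le_of_mul_le_mul_left h1 hFc0
  -- take logs
  have hNpos : (0:ℝ) < N := by linarith
  have hlogmain : ((N * (N - 1) / 2 : ℕ) : ℝ) ≤ N * (Real.log N + Real.log F + Real.log G) := by
    have h1 := Real.log_le_log (by positivity) hmain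
    rw [Real.log_pow, Real.log_exp, mul_one, Real.log_mul (by positivity) (by positivity),
      Real.log_mul (by positivity) (by positivity), Real.log_pow, Real.log_pow, Real.log_pow] at h1
    linarith
  have hhalf : ((N * (N - 1) / 2 : ℕ) : ℝ) = N * (N - 1) / 2 := by
    have hN1 : 1 ≤ N := by exact_mod_cast (by linarith : (1:ℝ) ≤ N)
    rw [Nat.cast_div (even_iff_two_dvd.mp (Nat.even_mul_pred_self N)) (by norm_num)]
    push_cast [Nat.cast_sub hN1]
    ring
  rw [hhalf] at hlogmain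
  have hlog2 : (N - 1) / 2 ≤ Real.log N + Real.log F + Real.log G := by
    have : N * ((N - 1) / 2) ≤ N * (Real.log N + Real.log F + Real.log G) := by linarith
    exact le_of_mul_le_mul_left this hNpos
  have hlogF : Real.log F = K * (2 + Real.log a) + L * W := by
    rw [hF, Real.log_mul (by positivity) (by positivity),
      Real.log_mul (by positivity) (by positivity), Real.log_pow, Real.log_exp, Real.log_exp,
      Real.log_mul (by positivity) (by positivity), Real.log_exp]
    ring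
  have hlogG : Real.log G = L * (291 * (Y * Z * L)) := by rw [hG, Real.log_exp]
  have hA'' : K * (2 + Real.log a) ≤ K * L / 8 := by
    have h10 : K * (8 * (2 + Real.log a)) ≤ K * (L:ℝ) :=
      mul_le_mul_of_nonneg_left (by linarith) hKpos.le
    linarith
  have hB : L * W ≤ K * L / 12 := by
    have : L * W ≤ L * (1340 * (Y * Z * L)) := by gcongr
    refine this.trans ?_
    rw [hKL]
    have h1 : (L:ℝ) * (1340 * (Y * Z * L)) = 1340 * (Y * Z * L ^ 2) := by ring
    have h2 : 20880 * (Y:ℝ) * Z * (L:ℝ) ^ 2 = 20880 * (Y * Z * L ^ 2) := by ring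
    have h3 : (0:ℝ) ≤ Y * Z * L ^ 2 := by positivity
    rw [h1, h2]
    linarith
  have hB2 : (L : ℝ) * (291 * ((Y : ℝ) * Z * L)) ≤ K * L / 70 := by
    rw [hKL]
    have h1 : (L:ℝ) * (291 * (Y * Z * L)) = 291 * (Y * Z * L ^ 2) := by ring
    have h2 : 20880 * (Y:ℝ) * Z * (L:ℝ) ^ 2 = 20880 * (Y * Z * L ^ 2) := by ring
    have h3 : (0:ℝ) ≤ Y * Z * L ^ 2 := by positivity
    rw [h1, h2]
    linarith
  have hC : Real.log N ≤ N / 100 + 4 := by
    have h1 : Real.log N = Real.log (N / 100) + Real.log 100 := by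
      rw [← Real.log_mul (by positivity) (by norm_num)]
      congr 1
      ring
    have h2 : Real.log (N / 100) ≤ N / 100 - 1 := Real.log_le_sub_one_of_pos (by positivity)
    have h3 : Real.log 100 ≤ 5 := by
      rw [Real.log_le_iff_le_exp (by norm_num)]
      have : (2.7182818283:ℝ) ^ 5 ≤ Real.exp 1 ^ 5 := by
        apply pow_le_pow_left₀ (by norm_num)
        exact Real.exp_one_gt_d9.le
      rw [← Real.exp_nat_mul] at this
      norm_num at this ⊢
      linarith
    linarith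
  have hKLN : (K:ℝ) * L = N := by rw [hNdef]; push_cast; ring
  rw [hlogF, hlogG] at hlog2
  rw [hKLN] at hA'' hB hB2
  linarith

end Pool.Agent.H49SE
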