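import Pool.Agent.H49SE.Gap2
import Pool.Agent.H49SE.Logs

/-!
The exponent in `A u ^ q - B v ^ q = ρ` is bounded by the square of the logarithm of the
coefficients.
-/

set_option autoImplicit false

namespace Pool.Agent.H49SE

theorem abs_log_le {z : ℝ} (hz : |z| ≤ 1 / 2) : |Real.log (1 - z)| ≤ 2 * |z| := by
  have hz' := abs_le.1 hz
  have h0 : 0 < 1 - z := by linarith
  have h1 := Real.log_le_sub_one_of_pos h0
  have h2 := Real.one_sub_inv_le_log_of_pos h0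
  rw [abs_le]
  constructor
  · refine le_trans ?_ h2
    have h3 : 1 - (1 - z)⁻¹ = -(z / (1 - z)) := by field_simp; ring
    rw [h3, neg_le_neg_iff, div_le_iff₀ h0]
    rcases abs_cases z with ⟨h4, h5⟩ | ⟨h4, h5⟩ <;> rw [h4] <;> nlinarith
  · have h3 : -z ≤ |z| := neg_le_abs z
    have := abs_nonneg z
    linarith

/-- the numerical step -/
theorem num_step {q Z L : ℕ} {c : ℝ} (hq : 1 ≤ q) (hZ : 1 ≤ Z) (hc : 0 ≤ c)
    (hL : (L : ℝ) ≤ 25 + 8 * Real.log q) (h : (q : ℝ) ≤ c + 52200 * Z * (L : ℝ) ^ 2) :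
    (q : ℝ) ≤ (c + 170000000) ^ 2 * (Z : ℝ) ^ 2 := by
  have hqr : (1 : ℝ) ≤ q := by exact_mod_cast hq
  have hZr : (1 : ℝ) ≤ Z := by exact_mod_cast hZ
  obtain ⟨w, hw⟩ : ∃ w : ℝ, w = (q : ℝ) ^ ((1 : ℝ) / 4) := ⟨_, rfl⟩
  have hw1 : 1 ≤ w := by rw [hw]; exact Real.one_le_rpow hqr (by norm_num)
  have hw4 : w ^ 4 = q := by
    rw [hw, ← Real.rpow_natCast, ← Real.rpow_mul (by linarith)]
    norm_num
  have hlog : Real.log q ≤ 4 * w := by
    rw [← hw4, Real.log_pow]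
    have := Real.log_le_sub_one_of_pos (show 0 < w by linarith)
    push_cast
    linarith
  have hL2 : (L : ℝ) ≤ 57 * w := by linarith
  have hL0 : (0 : ℝ) ≤ L := Nat.cast_nonneg L
  have hL3 : (L : ℝ) ^ 2 ≤ 3249 * w ^ 2 := by
    calc (L : ℝ) ^ 2 ≤ (57 * w) ^ 2 := pow_le_pow_left₀ hL0 hL2 2
      _ = _ := by ring
  have h1 : w ^ 4 ≤ (c + 170000000) * Z * w ^ 2 := by
    rw [hw4]
    have hw2 : 1 ≤ w ^ 2 := one_le_pow₀ hw1
    have hZw : 1 ≤ (Z : ℝ) * w ^ 2 := one_le_mul_of_one_le_of_one_le hZr hw2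
    calc (q : ℝ) ≤ c + 52200 * Z * (L : ℝ) ^ 2 := h
      _ ≤ c * (Z * w ^ 2) + 52200 * Z * (3249 * w ^ 2) := by
          refine add_le_add (le_mul_of_one_le_right hc hZw) ?_
          exact mul_le_mul_of_nonneg_left hL3 (by positivity)
      _ ≤ _ := by nlinarith
  have h2 : w ^ 2 ≤ (c + 170000000) * Z := by
    have hw2 : 0 < w ^ 2 := by positivity
    have e : w ^ 4 = w ^ 2 * w ^ 2 := by ring
    rw [e] at h1
    exact le_of_mul_le_mul_right h1 hw2
  rw [← hw4, ← mul_pow, show w ^ 4 = (w ^ 2) ^ 2 by ring]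
  exact pow_le_pow_left₀ (by positivity) h2 2

theorem exp_bound {q A B : ℕ} {ρ : ℤ} {u v Z : ℕ} (S : Sol q A B ρ u v) (hq : 3 ≤ q)
    (hu : 2 ≤ u) (hv : 2 ≤ v) (hZ : 1 ≤ Z) (hA : Real.log A ≤ Z) (hB : Real.log B ≤ Z)
    (h2 : 2 * |(ρ : ℝ)| ≤ A * (u : ℝ) ^ q) :
    (q : ℝ) ≤ (4 * |(ρ : ℝ)| + 4 + 170000000) ^ 2 * (Z : ℝ) ^ 2 := by
  have hqr : (3 : ℝ) ≤ q := by exact_mod_cast hq
  have hZr : (1 : ℝ) ≤ Z := by exact_mod_cast hZ
  have hA1 : (1 : ℝ) ≤ A := by exact_mod_cast S.A0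
  have hB1 : (1 : ℝ) ≤ B := by exact_mod_cast S.B0
  have hur : (2 : ℝ) ≤ u := by exact_mod_cast hu
  have hvr : (2 : ℝ) ≤ v := by exact_mod_cast hv
  have hρ1 : 1 ≤ |(ρ : ℝ)| := by exact_mod_cast Int.one_le_abs S.ρ0
  have hl0 := Real.log_nonneg (show (1 : ℝ) ≤ q by linarith)
  obtain ⟨L, hLdef⟩ : ∃ L : ℕ, L = ⌈8 * (3 + Real.log q)⌉₊ := ⟨_, rfl⟩
  have hL1 : 8 * (3 + Real.log q) ≤ L := by rw [hLdef]; exact Nat.le_ceil _
  have hL2 : (L : ℝ) ≤ 25 + 8 * Real.log q := by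
    rw [hLdef]
    have := Nat.ceil_lt_add_one (show 0 ≤ 8 * (3 + Real.log q) by positivity)
    linarith
  have hLpos : 1 ≤ L := by
    have : (0 : ℝ) < L := by linarith
    exact_mod_cast this
  have hLr : (1 : ℝ) ≤ L := by exact_mod_cast hLpos
  apply num_step (L := L) (by omega) hZ (by positivity) hL2
  by_cases hMa : 145 * Z * L ≤ q
  swap
  · rw [not_le] at hMa
    have h3 : (q : ℝ) ≤ 145 * Z * L := by exact_mod_cast hMa.le
    have h4 : (L : ℝ) ≤ (L : ℝ) ^ 2 := by nlinarith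
    have h5 : 145 * (Z : ℝ) * L ≤ 52200 * Z * (L : ℝ) ^ 2 := by
      calc 145 * (Z : ℝ) * L ≤ 145 * Z * (L : ℝ) ^ 2 := mul_le_mul_of_nonneg_left h4 (by positivity)
        _ ≤ _ := mul_le_mul_of_nonneg_right (by nlinarith) (by positivity)
    linarith
  obtain ⟨x, hx⟩ : ∃ x : ℝ, x = A * (u : ℝ) ^ q := ⟨_, rfl⟩
  have hx0 : 0 < x := by rw [hx]; positivity
  rw [← hx] at h2
  have heq : x - B * (v : ℝ) ^ q = ρ := by rw [hx]; exact_mod_cast S.eq
  rcases eq_or_ne u v with huv | huv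
  · -- equal bases
    subst huv
    have h3 : ((A : ℤ) - B) * (u : ℤ) ^ q = ρ := by rw [← S.eq]; ring
    have h4 : (u : ℤ) ^ q ∣ ρ := Dvd.intro_left _ h3
    have h5 : (u : ℤ) ^ q ≤ |ρ| := Int.le_of_dvd (abs_pos.2 S.ρ0) ((dvd_abs _ _).2 h4)
    have h6 : (q : ℝ) ≤ |(ρ : ℝ)| := by
      have h7 : (u : ℝ) ^ q ≤ |(ρ : ℝ)| := by exact_mod_cast h5
      have h8 : (q : ℝ) ≤ (2 : ℝ) ^ q := by exact_mod_cast (Nat.lt_two_pow_self (n := q)).le
      exact h8.trans ((pow_le_pow_left₀ (by norm_num) hur q).trans h7)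
    have h7 : 0 ≤ 52200 * (Z : ℝ) * (L : ℝ) ^ 2 := by positivity
    linarith
  have hz : |(ρ : ℝ) / x| ≤ 1 / 2 := by
    rw [abs_div, abs_of_pos hx0, div_le_iff₀ hx0]; linarith
  have hlog := abs_log_le hz
  rw [abs_div, abs_of_pos hx0] at hlog
  have e1 : 1 - (ρ : ℝ) / x = B * (v : ℝ) ^ q / x := by
    rw [← heq]; field_simp; ring
  -- the main inequality
  obtain ⟨w, Y, hwY, hYw, hw2, hwx, hmain⟩ : ∃ (w Y : ℕ), Real.log w ≤ Y ∧ (Y : ℝ) ≤ Real.log w + 1 ∧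
      2 ≤ w ∧ (w : ℝ) ^ q ≤ 2 * x ∧
      Real.exp (-(20880 * (Y : ℝ) * Z * (L : ℝ) ^ 2)) < |Real.log (1 - (ρ : ℝ) / x)| := by
    have hYf : ∀ w : ℕ, 2 ≤ w → 1 ≤ ⌈Real.log w⌉₊ ∧ Real.log w ≤ (⌈Real.log w⌉₊ : ℝ) ∧
        (⌈Real.log w⌉₊ : ℝ) ≤ Real.log w + 1 := by
      intro w hw
      have h3 : 0 < Real.log w := Real.log_pos (by exact_mod_cast hw)
      exact ⟨Nat.one_le_iff_ne_zero.2 (Nat.ceil_pos.2 h3).ne', Nat.le_ceil _,
        (Nat.ceil_lt_add_one h3.le).le⟩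
    rcases lt_or_gt_of_ne huv with h3 | h3
    · obtain ⟨hY1, hY2, hY3⟩ := hYf v hv
      refine ⟨v, _, hY2, hY3, hv, ?_, ?_⟩
      · have h4 : B * (v : ℝ) ^ q ≤ 2 * x := by
          have := neg_abs_le (ρ : ℝ)
          linarith
        have h5 : (v : ℝ) ^ q ≤ B * (v : ℝ) ^ q := le_mul_of_one_le_left (by positivity) hB1
        linarith
      · have h4 := lflQ (A := v) (A' := u) (U := A) (U' := B) (a := q) (by omega) h3 S.A0 S.B0 hY1 hZ hLpos
          hY2 hA hB hMa hL1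
        refine h4.trans_eq ?_
        rw [← abs_neg, e1, Real.log_div (by positivity) (by positivity),
          Real.log_div (by positivity) (by positivity), Real.log_div (by positivity) (by positivity),
          Real.log_mul (by positivity) (by positivity), hx, Real.log_mul (by positivity) (by positivity),
          Real.log_pow, Real.log_pow]
        congr 1
        ring
    · obtain ⟨hY1, hY2, hY3⟩ := hYf u hu
      refine ⟨u, _, hY2, hY3, hu, ?_, ?_⟩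
      · have h5 : (u : ℝ) ^ q ≤ A * (u : ℝ) ^ q := le_mul_of_one_le_left (by positivity) hA1
        rw [← hx] at h5
        linarith
      · have h4 := lflQ (A := u) (A' := v) (U := B) (U' := A) (a := q) (by omega) h3 S.B0 S.A0 hY1 hZ hLpos
          hY2 hB hA hMa hL1
        refine h4.trans_eq ?_
        rw [e1, Real.log_div (by positivity) (by positivity),
          Real.log_div (by positivity) (by positivity), Real.log_div (by positivity) (by positivity),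
          Real.log_mul (by positivity) (by positivity), hx, Real.log_mul (by positivity) (by positivity),
          Real.log_pow, Real.log_pow]
        congr 1
        ring
  have hwr : (2 : ℝ) ≤ w := by exact_mod_cast hw2
  have hlw : Real.log 2 ≤ Real.log w := Real.log_le_log (by norm_num) hwr
  have hl2 := Real.log_two_gt_d9
  have hl2' := Real.log_two_lt_d9
  have h3 : Real.exp (-(20880 * (Y : ℝ) * Z * (L : ℝ) ^ 2)) < 2 * (|(ρ : ℝ)| / x) := lt_of_lt_of_le hmain hlog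
  have h4 := Real.log_le_log (Real.exp_pos _) h3.le
  rw [Real.log_exp, Real.log_mul (by norm_num) (by positivity), Real.log_div (by positivity) hx0.ne'] at h4
  have h5 : q * Real.log w ≤ Real.log 2 + Real.log x := by
    have := Real.log_le_log (by positivity) hwx
    rwa [Real.log_pow, Real.log_mul (by norm_num) hx0.ne'] at this
  have h6 : Real.log |(ρ : ℝ)| ≤ |(ρ : ℝ)| := by
    have := Real.log_le_sub_one_of_pos (show 0 < |(ρ : ℝ)| by linarith)
    linarith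
  have h7 : (Y : ℝ) ≤ 5 / 2 * Real.log w := by linarith
  have h8 : 20880 * (Y : ℝ) * Z * (L : ℝ) ^ 2 ≤ (52200 * Z * (L : ℝ) ^ 2) * Real.log w := by
    have : 0 ≤ (Z : ℝ) * (L : ℝ) ^ 2 := by positivity
    nlinarith
  have h9 : q * Real.log w ≤ (4 * |(ρ : ℝ)| + 4 + 52200 * Z * (L : ℝ) ^ 2) * Real.log w := by
    have h10 : 2 * Real.log 2 + |(ρ : ℝ)| ≤ (4 * |(ρ : ℝ)| + 4) * Real.log w := by nlinarith
    nlinarith
  exact le_of_mul_le_mul_right h9 (by linarith)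

end Pool.Agent.H49SE
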