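import Pool.Agent.H49SE.Loc
import Pool.Agent.H49SE.Exp

/-!
Counting the pairs `(Z, q)`.
-/

set_option autoImplicit false

open Polynomial

namespace Pool.Agent.H49SE

/-- the two smallest of `n` numbers -/
theorem two_small {n : ℕ} (hn : 2 ≤ n) (d : Fin n → ℕ) (hd : ∀ i, 0 < d i) :
    ∃ i j, i ≠ j ∧ (d i * d j) ^ n ≤ (∏ l, d l) ^ 2 := by
  classical
  have : Nonempty (Fin n) := ⟨⟨0, by omega⟩⟩
  obtain ⟨i, hi⟩ := Finite.exists_min d
  have hne : (Finset.univ.erase i).Nonempty := by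
    rw [← Finset.card_pos, Finset.card_erase_of_mem (Finset.mem_univ i), Finset.card_univ, Fintype.card_fin]
    omega
  obtain ⟨j, hj, hj'⟩ := Finset.exists_min_image (Finset.univ.erase i) d hne
  refine ⟨i, j, (Finset.ne_of_mem_erase hj).symm, ?_⟩
  have h1 : d j ^ (n - 1) ≤ ∏ l ∈ Finset.univ.erase i, d l := by
    have := Finset.prod_le_prod' (s := Finset.univ.erase i) (f := fun _ => d j) (g := d) fun l hl => hj' l hl
    rwa [Finset.prod_const, Finset.card_erase_of_mem (Finset.mem_univ i), Finset.card_univ, Fintype.card_fin] at this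
  have h2 : d i * d j ^ (n - 1) ≤ ∏ l, d l := by
    rw [← Finset.mul_prod_erase Finset.univ d (Finset.mem_univ i)]
    exact Nat.mul_le_mul_left _ h1
  have h3 : d i ^ (n - 2) ≤ d j ^ (n - 2) := Nat.pow_le_pow_left (hi j) _
  obtain ⟨k, rfl⟩ := Nat.exists_eq_add_of_le hn
  have e1 : 2 + k - 1 = k + 1 := by omega
  have e2 : 2 + k - 2 = k := by omega
  rw [e1] at h2
  rw [e2] at h3
  calc (d i * d j) ^ (2 + k) = (d i ^ 2 * d j ^ (2 + k)) * d i ^ k := by ring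
    _ ≤ (d i ^ 2 * d j ^ (2 + k)) * d j ^ k := Nat.mul_le_mul_left _ h3
    _ = (d i * d j ^ (k + 1)) ^ 2 := by ring
    _ ≤ _ := Nat.pow_le_pow_left h2 2

/-- pairs with bounded product -/
def prs (X : ℕ) : Finset (ℕ × ℕ) := ((Finset.Icc 1 X) ×ˢ (Finset.Icc 1 X)).filter fun p => p.1 * p.2 ≤ X

theorem mem_prs {X a b : ℕ} (ha : 0 < a) (hb : 0 < b) (h : a * b ≤ X) : (a, b) ∈ prs X := by
  unfold prs
  rw [Finset.mem_filter, Finset.mem_product, Finset.mem_Icc, Finset.mem_Icc]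
  refine ⟨⟨⟨ha, ?_⟩, hb, ?_⟩, h⟩
  · exact (Nat.le_mul_of_pos_right _ hb).trans h
  · exact (Nat.le_mul_of_pos_left _ ha).trans h

theorem prs_card (X : ℕ) : ((prs X).card : ℝ) ≤ X * (1 + Real.log X) := by
  classical
  have hsub : prs X ⊆ (Finset.Icc 1 X).biUnion fun a => (Finset.Icc 1 (X / a)).image fun b => (a, b) := by
    intro p hp
    unfold prs at hp
    rw [Finset.mem_filter, Finset.mem_product, Finset.mem_Icc, Finset.mem_Icc] at hp
    rw [Finset.mem_biUnion]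
    refine ⟨p.1, Finset.mem_Icc.2 hp.1.1, ?_⟩
    rw [Finset.mem_image]
    refine ⟨p.2, Finset.mem_Icc.2 ⟨hp.1.2.1, ?_⟩, rfl⟩
    rw [Nat.le_div_iff_mul_le hp.1.1.1, mul_comm]
    exact hp.2
  have h1 : (prs X).card ≤ ∑ a ∈ Finset.Icc 1 X, X / a := by
    refine (Finset.card_le_card hsub).trans (Finset.card_biUnion_le.trans (Finset.sum_le_sum fun a _ => ?_))
    refine Finset.card_image_le.trans ?_
    rw [Nat.card_Icc, Nat.add_sub_cancel]
  have h2 : ((∑ a ∈ Finset.Icc 1 X, X / a : ℕ) : ℝ) ≤ X * ((harmonic X : ℚ) : ℝ) := by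
    rw [harmonic_eq_sum_Icc]
    push_cast
    rw [Finset.mul_sum]
    refine Finset.sum_le_sum fun a _ => ?_
    rw [← div_eq_mul_inv]
    exact Nat.cast_div_le
  calc ((prs X).card : ℝ) ≤ ((∑ a ∈ Finset.Icc 1 X, X / a : ℕ) : ℝ) := by exact_mod_cast h1
    _ ≤ X * ((harmonic X : ℚ) : ℝ) := h2
    _ ≤ _ := mul_le_mul_of_nonneg_left (harmonic_le_one_add_log X) (Nat.cast_nonneg X)

namespace Dat

variable {n : ℕ} (S : Dat n)

/-- a solution with all data: `κ |Z - e i| = a u ^ q`, `κ |Z - e j| = a' u' ^ q` -/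
def Rel (i j : Fin n) (σ : Bool) (q a a' : ℕ) (Z : ℤ) (u v : ℕ) : Prop :=
  S.B ^ n * (Z - S.e i).natAbs = a * u ^ q ∧ S.B ^ n * (Z - S.e j).natAbs = a' * v ^ q ∧
    (if σ then S.e i < Z ∧ S.e j < Z else Z < S.e i ∧ Z < S.e j)

/-- the right side of the Thue equation -/
def rho (i j : Fin n) (σ : Bool) : ℤ := (S.B : ℤ) ^ n * (if σ then S.e j - S.e i else S.e i - S.e j)

theorem rho_ne {i j : Fin n} (hij : i ≠ j) (σ : Bool) : S.rho i j σ ≠ 0 := by
  unfold rho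
  have h1 : ((S.B : ℤ)) ^ n ≠ 0 := pow_ne_zero _ (by exact_mod_cast S.B_pos.ne')
  refine mul_ne_zero h1 ?_
  split_ifs
  · exact sub_ne_zero.2 fun h => hij (S.he h).symm
  · exact sub_ne_zero.2 fun h => hij (S.he h)

theorem rho_le {i j : Fin n} (hij : i ≠ j) (σ : Bool) : |(S.rho i j σ : ℝ)| ≤ (S.B : ℝ) ^ (n + 1) := by
  unfold rho
  have h1 : ∀ i j, i ≠ j → |((S.e i - S.e j : ℤ) : ℝ)| ≤ S.B := by
    intro i j hij
    have h2 := Nat.le_of_dvd S.B_pos (S.e_dvd hij)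
    rw [← Int.cast_abs, Int.abs_eq_natAbs]
    exact_mod_cast h2
  have h3 : ∀ z : ℤ, |(z : ℝ)| ≤ S.B → |(((S.B : ℤ) ^ n * z : ℤ) : ℝ)| ≤ (S.B : ℝ) ^ (n + 1) := by
    intro z hz
    push_cast
    rw [abs_mul, abs_pow, Nat.abs_cast, pow_succ]
    exact mul_le_mul_of_nonneg_left hz (by positivity)
  apply h3
  split_ifs
  · exact h1 j i hij.symm
  · exact h1 i j hij

theorem Rel.sol {i j : Fin n} {σ : Bool} {q a a' : ℕ} {Z : ℤ} {u v : ℕ} (hij : i ≠ j)
    (h : S.Rel i j σ q a a' Z u v) (hu : 0 < u) (hv : 0 < v) : Sol q a a' (S.rho i j σ) u v := by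
  obtain ⟨h1, h2, h3⟩ := h
  have hB := pow_pos S.B_pos n
  have hwi : 0 < (Z - S.e i).natAbs := by
    rw [Int.natAbs_pos, sub_ne_zero]
    split_ifs at h3 <;> omega
  have hwj : 0 < (Z - S.e j).natAbs := by
    rw [Int.natAbs_pos, sub_ne_zero]
    split_ifs at h3 <;> omega
  have ha : 0 < a := by
    rcases Nat.eq_zero_or_pos a with h4 | h4
    · rw [h4, zero_mul] at h1
      exact absurd h1 (Nat.mul_pos hB hwi).ne'
    · exact h4
  have ha' : 0 < a' := by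
    rcases Nat.eq_zero_or_pos a' with h4 | h4
    · rw [h4, zero_mul] at h2
      exact absurd h2 (Nat.mul_pos hB hwj).ne'
    · exact h4
  refine ⟨ha, ha', hu, hv, S.rho_ne hij σ, ?_⟩
  have h4 : (a : ℤ) * (u : ℤ) ^ q = (S.B : ℤ) ^ n * |Z - S.e i| := by
    rw [Int.abs_eq_natAbs]
    exact_mod_cast h1.symm
  have h5 : (a' : ℤ) * (v : ℤ) ^ q = (S.B : ℤ) ^ n * |Z - S.e j| := by
    rw [Int.abs_eq_natAbs]
    exact_mod_cast h2.symm
  rw [h4, h5]
  unfold rho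
  cases σ
  · simp only [Bool.false_eq_true, if_false] at h3 ⊢
    rw [abs_of_neg (by omega), abs_of_neg (by omega)]
    ring
  · simp only [if_true] at h3 ⊢
    rw [abs_of_pos (by omega), abs_of_pos (by omega)]
    ring

/-- for given data there are at most three large `Z` -/
theorem card_three {i j : Fin n} (hij : i ≠ j) (σ : Bool) {q : ℕ} (hq : IsPrimePow q) (hq3 : 3 ≤ q)
    (a a' : ℕ) (T : Finset ℤ) (hT : ∀ Z ∈ T, ∃ u v, 0 < u ∧ 0 < v ∧ S.Rel i j σ q a a' Z u v ∧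
      Lg q a (S.rho i j σ) u) : T.card ≤ 3 := by
  classical
  choose! u v hu hv hR hL using hT
  have hinj : Set.InjOn u (T : Set ℤ) := by
    intro Z hZ Z' hZ' he
    have h1 := (hR Z hZ).1
    have h2 := (hR Z' hZ').1
    have h3 := (hR Z hZ).2.2
    have h4 := (hR Z' hZ').2.2
    rw [← he, ← h1] at h2
    have h5 := Nat.eq_of_mul_eq_mul_left (pow_pos S.B_pos n) h2
    split_ifs at h3 h4 <;> omega
  rw [← Finset.card_image_of_injOn hinj]
  apply card_large hq hq3 (A := a) (B := a') (ρ := S.rho i j σ)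
  intro w hw
  obtain ⟨Z, hZ, rfl⟩ := Finset.mem_image.1 hw
  exact ⟨v Z, (hR Z hZ).sol S hij (hu Z hZ) (hv Z hZ), hL Z hZ⟩

end Dat

end Pool.Agent.H49SE
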