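import Mathlib

/-!
From the points to the `D`.
-/

set_option autoImplicit false

open Polynomial

namespace Pool.Agent.H49SE

/-- the largest `q`-th power dividing a number -/
theorem exists_free (q d : ℕ) (hq : 1 ≤ q) (hd : 0 < d) : ∃ s d₀ : ℕ, 0 < s ∧ 0 < d₀ ∧
    d = d₀ * s ^ q ∧ ∀ p : ℕ, p.Prime → ¬ p ^ q ∣ d₀ := by
  classical
  obtain ⟨s, hs⟩ : ∃ s, s = Nat.findGreatest (fun s => s ^ q ∣ d) d := ⟨_, rfl⟩
  have hPs : s ^ q ∣ d := by
    rw [hs]
    exact Nat.findGreatest_spec (P := fun s => s ^ q ∣ d) (m := 1) hd (by rw [one_pow]; exact one_dvd _)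
  have hs0 : 0 < s := by
    rcases Nat.eq_zero_or_pos s with h | h
    · rw [h, zero_pow (by omega)] at hPs
      have := zero_dvd_iff.1 hPs
      omega
    · exact h
  obtain ⟨d₀, hd₀⟩ := hPs
  have hd₀p : 0 < d₀ := by
    rcases Nat.eq_zero_or_pos d₀ with h | h
    · subst h
      rw [mul_zero] at hd₀
      omega
    · exact h
  refine ⟨s, d₀, hs0, hd₀p, by rw [hd₀, mul_comm], fun p hp hdvd => ?_⟩
  have h2 : (s * p) ^ q ∣ d := by
    rw [mul_pow, hd₀]
    exact Nat.mul_dvd_mul_left _ hdvd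
  have h3 : s * p ≤ d := (Nat.le_self_pow (by omega) _).trans (Nat.le_of_dvd hd h2)
  have h4 := Nat.le_findGreatest (P := fun s => s ^ q ∣ d) h3 h2
  rw [← hs] at h4
  have := hp.two_le
  nlinarith

theorem free_unique {q a b x y : ℕ} (ha : 0 < a) (hb : 0 < b) (hx : 0 < x) (hy : 0 < y)
    (hfa : ∀ p : ℕ, p.Prime → ¬ p ^ q ∣ a) (hfb : ∀ p : ℕ, p.Prime → ¬ p ^ q ∣ b)
    (h : a * x ^ q = b * y ^ q) : a = b := by
  apply Nat.eq_of_factorization_eq ha.ne' hb.ne'
  intro p
  by_cases hp : p.Prime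
  · have h1 : (a * x ^ q).factorization p = (b * y ^ q).factorization p := by rw [h]
    rw [Nat.factorization_mul ha.ne' (pow_pos hx q).ne', Nat.factorization_mul hb.ne' (pow_pos hy q).ne',
      Nat.factorization_pow, Nat.factorization_pow] at h1
    simp only [Finsupp.add_apply, Finsupp.smul_apply, smul_eq_mul] at h1
    have h2 : a.factorization p < q := by
      by_contra hcon
      exact hfa p hp ((hp.pow_dvd_iff_le_factorization ha.ne').2 (not_lt.1 hcon))
    have h3 : b.factorization p < q := by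
      by_contra hcon
      exact hfb p hp ((hp.pow_dvd_iff_le_factorization hb.ne').2 (not_lt.1 hcon))
    have h4 : (a.factorization p + q * x.factorization p) % q = a.factorization p := by
      rw [Nat.add_mul_mod_self_left, Nat.mod_eq_of_lt h2]
    have h5 : (b.factorization p + q * y.factorization p) % q = b.factorization p := by
      rw [Nat.add_mul_mod_self_left, Nat.mod_eq_of_lt h3]
    rw [← h4, ← h5, h1]
  · rw [Nat.factorization_eq_zero_of_not_prime a hp, Nat.factorization_eq_zero_of_not_prime b hp]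

/-- the number of the `D` with fixed `q`, from the number of the points -/
theorem dcount (a : ℕ) (F : ℤ → ℤ) (q : ℕ) (hq : 1 ≤ q) (C α θ : ℝ) (κ : ℕ) (hC : 0 ≤ C) (hα : α ≤ θ)
    (hθ : 1 ≤ q * θ)
    (h : ∀ N : ℕ, 1 ≤ N → ∀ T : Finset ℤ,
      (∀ Z ∈ T, F Z ≠ 0 ∧ ∃ D y : ℤ, (a : ℤ) * D * y ^ q = F Z ∧ D.natAbs ≤ N) →
      (T.card : ℝ) ≤ C * (N : ℝ) ^ α * (1 + Real.log N) ^ κ) (N : ℕ) (hN : 1 ≤ N) (T : Finset ℤ)
    (hT : ∀ D ∈ T, D.natAbs ≤ N ∧ ∃ Z y : ℤ, F Z ≠ 0 ∧ (a : ℤ) * D * y ^ q = F Z) :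
    (T.card : ℝ) ≤ 2 * C * (N : ℝ) ^ θ * (1 + Real.log N) ^ (κ + 1) := by
  classical
  have hNr : (1 : ℝ) ≤ N := by exact_mod_cast hN
  have hlN := Real.log_nonneg hNr
  have hq0 : (0 : ℝ) < q := by exact_mod_cast hq
  have hθ0 : 0 ≤ θ := by
    by_contra hcon
    rw [not_le] at hcon
    have := mul_neg_of_pos_of_neg hq0 hcon
    linarith
  choose! Z y hF heq using fun D hD => (hT D hD).2
  have hD0 : ∀ D ∈ T, D ≠ 0 := by
    intro D hD h0
    have h1 : (a : ℤ) * D * y D ^ q = 0 := by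
      rw [mul_eq_zero, mul_eq_zero]
      exact Or.inl (Or.inr h0)
    exact hF D hD ((heq D hD).symm.trans h1)
  have ha0 : ∀ D ∈ T, 0 < a := by
    intro D hD
    rcases Nat.eq_zero_or_pos a with h0 | h0
    · have h1 := heq D hD
      rw [h0, Nat.cast_zero, zero_mul, zero_mul] at h1
      exact absurd h1.symm (hF D hD)
    · exact h0
  have hy0 : ∀ D ∈ T, 0 < (y D).natAbs := by
    intro D hD
    rw [Int.natAbs_pos]
    intro h0
    have h1 := heq D hD
    rw [h0, zero_pow (by omega), mul_zero] at h1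
    exact hF D hD h1.symm
  choose! s d₀ hs hd₀ hsd hfree using fun D (hD : D ∈ T) => exists_free q D.natAbs hq (Int.natAbs_pos.2 (hD0 D hD))
  have key : ∀ t ∈ Finset.Icc 1 N, ((T.filter fun D => s D = t).card : ℝ) ≤
      (2 * C * (N : ℝ) ^ θ * (1 + Real.log N) ^ κ) * ((t : ℝ))⁻¹ := by
    intro t ht
    rw [Finset.mem_Icc] at ht
    have ht0 : (0 : ℝ) < t := by exact_mod_cast ht.1
    rcases (T.filter fun D => s D = t).eq_empty_or_nonempty with h0 | ⟨D₁, hD₁⟩
    · rw [h0, Finset.card_empty, Nat.cast_zero]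
      positivity
    obtain ⟨hD₁T, hD₁s⟩ := Finset.mem_filter.1 hD₁
    have htq : t ^ q ≤ N := by
      have h1 := hsd D₁ hD₁T
      rw [hD₁s] at h1
      have h2 : t ^ q ≤ D₁.natAbs := by
        rw [h1]
        exact Nat.le_mul_of_pos_left _ (hd₀ D₁ hD₁T)
      exact h2.trans (hT D₁ hD₁T).1
    have htq0 : 0 < t ^ q := pow_pos ht.1 q
    have hN' : 1 ≤ N / t ^ q := Nat.div_pos htq htq0
    have hb := h (N / t ^ q) hN' ((T.filter fun D => s D = t).image Z) (by
      intro w hw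
      obtain ⟨D, hD, rfl⟩ := Finset.mem_image.1 hw
      obtain ⟨hDT, hDs⟩ := Finset.mem_filter.1 hD
      refine ⟨hF D hDT, D.sign * d₀ D, s D * y D, ?_, ?_⟩
      · have h1 : D = D.sign * d₀ D * (s D : ℤ) ^ q := by
          conv_lhs => rw [← Int.sign_mul_natAbs D, hsd D hDT]
          push_cast
          ring
        rw [← heq D hDT, mul_pow]
        calc (a : ℤ) * (D.sign * d₀ D) * ((s D : ℤ) ^ q * y D ^ q)
            = (a : ℤ) * (D.sign * d₀ D * (s D : ℤ) ^ q) * y D ^ q := by ring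
          _ = _ := by rw [← h1]
      · rw [Int.natAbs_mul, Int.natAbs_sign_of_ne_zero (hD0 D hDT), one_mul, Int.natAbs_natCast,
          Nat.le_div_iff_mul_le htq0, ← hDs, ← hsd D hDT]
        exact (hT D hDT).1)
    have hcard : (T.filter fun D => s D = t).card ≤ ((T.filter fun D => s D = t).image Z).card * 2 := by
      have hinj : Set.InjOn (fun D : ℤ => (Z D, decide (0 < D))) (T.filter fun D => s D = t : Set ℤ) := by
        intro D hD D' hD' he
        obtain ⟨hDT, hDs⟩ := Finset.mem_filter.1 hD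
        obtain ⟨hDT', hDs'⟩ := Finset.mem_filter.1 hD'
        simp only [Prod.mk.injEq, decide_eq_decide] at he
        obtain ⟨he1, he2⟩ := he
        have h1 := congrArg Int.natAbs ((heq D hDT).trans ((congrArg F he1).trans (heq D' hDT').symm))
        rw [Int.natAbs_mul, Int.natAbs_mul, Int.natAbs_mul, Int.natAbs_mul, Int.natAbs_pow, Int.natAbs_pow,
          Int.natAbs_natCast, mul_assoc, mul_assoc] at h1
        have h2 := Nat.eq_of_mul_eq_mul_left (ha0 D hDT) h1
        have h3 : d₀ D = d₀ D' := by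
          refine free_unique (q := q) (hd₀ D hDT) (hd₀ D' hDT') (Nat.mul_pos (hs D hDT) (hy0 D hDT))
            (Nat.mul_pos (hs D' hDT') (hy0 D' hDT')) (hfree D hDT) (hfree D' hDT') ?_
          rw [mul_pow, mul_pow, ← mul_assoc, ← mul_assoc, ← hsd D hDT, ← hsd D' hDT']
          exact h2
        have h4 : D.natAbs = D'.natAbs := by
          rw [hsd D hDT, hsd D' hDT', h3, hDs, hDs']
        have h5 := hD0 D hDT
        have h6 := hD0 D' hDT'
        omega
      rw [← Finset.card_image_of_injOn hinj]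
      have hsub : (T.filter fun D => s D = t).image (fun D : ℤ => (Z D, decide (0 < D))) ⊆
          ((T.filter fun D => s D = t).image Z) ×ˢ (Finset.univ : Finset Bool) := by
        intro w hw
        obtain ⟨D, hD, rfl⟩ := Finset.mem_image.1 hw
        exact Finset.mem_product.2 ⟨Finset.mem_image_of_mem _ hD, Finset.mem_univ _⟩
      refine (Finset.card_le_card hsub).trans_eq ?_
      rw [Finset.card_product, Finset.card_univ, Fintype.card_bool]
    have hN'r : (1 : ℝ) ≤ ((N / t ^ q : ℕ) : ℝ) := by exact_mod_cast hN'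
    have hN'N : ((N / t ^ q : ℕ) : ℝ) ≤ N := by exact_mod_cast Nat.div_le_self _ _
    have h1 : ((N / t ^ q : ℕ) : ℝ) ^ α ≤ (N : ℝ) ^ θ * ((t : ℝ))⁻¹ := by
      have htr : (1 : ℝ) ≤ t := by exact_mod_cast ht.1
      calc ((N / t ^ q : ℕ) : ℝ) ^ α ≤ ((N / t ^ q : ℕ) : ℝ) ^ θ := Real.rpow_le_rpow_of_exponent_le hN'r hα
        _ ≤ ((N : ℝ) / (t : ℝ) ^ q) ^ θ := by
            refine Real.rpow_le_rpow (by positivity) ?_ hθ0
            have := Nat.cast_div_le (α := ℝ) (m := N) (n := t ^ q)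
            rwa [Nat.cast_pow] at this
        _ = (N : ℝ) ^ θ * ((t : ℝ) ^ (q * θ))⁻¹ := by
            rw [Real.div_rpow (by positivity) (by positivity), ← Real.rpow_natCast, ← Real.rpow_mul ht0.le,
              div_eq_mul_inv]
        _ ≤ _ := by
            refine mul_le_mul_of_nonneg_left ?_ (by positivity)
            refine inv_anti₀ ht0 ?_
            calc (t : ℝ) = (t : ℝ) ^ (1 : ℝ) := (Real.rpow_one _).symm
              _ ≤ _ := Real.rpow_le_rpow_of_exponent_le htr hθ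
    have h2 : (1 + Real.log ((N / t ^ q : ℕ) : ℝ)) ^ κ ≤ (1 + Real.log N) ^ κ := by
      have h3 := Real.log_nonneg hN'r
      have h4 := Real.log_le_log (by linarith) hN'N
      exact pow_le_pow_left₀ (by linarith) (by linarith) κ
    calc ((T.filter fun D => s D = t).card : ℝ) ≤ (((T.filter fun D => s D = t).image Z).card : ℝ) * 2 := by
          exact_mod_cast hcard
      _ ≤ (C * ((N / t ^ q : ℕ) : ℝ) ^ α * (1 + Real.log ((N / t ^ q : ℕ) : ℝ)) ^ κ) * 2 :=
          mul_le_mul_of_nonneg_right hb (by norm_num)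
      _ ≤ (C * ((N : ℝ) ^ θ * ((t : ℝ))⁻¹) * (1 + Real.log N) ^ κ) * 2 := by
          refine mul_le_mul_of_nonneg_right ?_ (by norm_num)
          exact mul_le_mul (mul_le_mul_of_nonneg_left h1 hC) h2
            (by have := Real.log_nonneg hN'r; positivity) (by positivity)
      _ = _ := by ring
  have hmaps : ∀ D ∈ T, s D ∈ Finset.Icc 1 N := by
    intro D hD
    rw [Finset.mem_Icc]
    refine ⟨hs D hD, ?_⟩
    calc s D ≤ s D ^ q := Nat.le_self_pow (by omega) _
      _ ≤ D.natAbs := by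
          conv_rhs => rw [hsd D hD]
          exact Nat.le_mul_of_pos_left _ (hd₀ D hD)
      _ ≤ N := (hT D hD).1
  have hsum : (T.card : ℝ) = ∑ t ∈ Finset.Icc 1 N, ((T.filter fun D => s D = t).card : ℝ) := by
    exact_mod_cast Finset.card_eq_sum_card_fiberwise hmaps
  have hharm : ∑ t ∈ Finset.Icc 1 N, ((t : ℝ))⁻¹ ≤ 1 + Real.log N := by
    have h1 := harmonic_le_one_add_log N
    rw [harmonic_eq_sum_Icc] at h1
    push_cast at h1
    exact h1
  rw [hsum]
  calc ∑ t ∈ Finset.Icc 1 N, ((T.filter fun D => s D = t).card : ℝ)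
      ≤ ∑ t ∈ Finset.Icc 1 N, (2 * C * (N : ℝ) ^ θ * (1 + Real.log N) ^ κ) * ((t : ℝ))⁻¹ := Finset.sum_le_sum key
    _ = (2 * C * (N : ℝ) ^ θ * (1 + Real.log N) ^ κ) * ∑ t ∈ Finset.Icc 1 N, ((t : ℝ))⁻¹ := by rw [Finset.mul_sum]
    _ ≤ (2 * C * (N : ℝ) ^ θ * (1 + Real.log N) ^ κ) * (1 + Real.log N) :=
        mul_le_mul_of_nonneg_left hharm (by positivity)
    _ = _ := by ring

/-- the same for `q`-free `D`; the exponent may vary with the point -/
theorem dcount_free (a : ℕ) (F : ℤ → ℤ) (B : ℝ) (N : ℕ) (P : ℤ → ℕ → Prop)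
    (h : ∀ T : Finset (ℤ × ℕ), (∀ p ∈ T, P p.1 p.2 ∧ 1 ≤ p.2 ∧ F p.1 ≠ 0 ∧
      ∃ D y : ℤ, (a : ℤ) * D * y ^ p.2 = F p.1 ∧ D.natAbs ≤ N) → (T.card : ℝ) ≤ B) (T : Finset ℤ)
    (hT : ∀ D ∈ T, D.natAbs ≤ N ∧ ∃ (m : ℕ) (Z y : ℤ), P Z m ∧ 1 ≤ m ∧ (∀ d : ℤ, d ^ m ∣ D → IsUnit d) ∧
      F Z ≠ 0 ∧ (a : ℤ) * D * y ^ m = F Z) :
    (T.card : ℝ) ≤ 2 * B := by
  classical
  choose! m Z y hP hm hfr hF heq using fun D hD => (hT D hD).2
  have hD0 : ∀ D ∈ T, D ≠ 0 := by
    intro D hD h0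
    have h1 : (a : ℤ) * D * y D ^ m D = 0 := by
      rw [mul_eq_zero, mul_eq_zero]
      exact Or.inl (Or.inr h0)
    exact hF D hD ((heq D hD).symm.trans h1)
  have ha0 : ∀ D ∈ T, 0 < a := by
    intro D hD
    rcases Nat.eq_zero_or_pos a with h0 | h0
    · have h1 := heq D hD
      rw [h0, Nat.cast_zero, zero_mul, zero_mul] at h1
      exact absurd h1.symm (hF D hD)
    · exact h0
  have hy0 : ∀ D ∈ T, 0 < (y D).natAbs := by
    intro D hD
    rw [Int.natAbs_pos]
    intro h0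
    have h1 := heq D hD
    rw [h0, zero_pow (by have := hm D hD; omega), mul_zero] at h1
    exact hF D hD h1.symm
  have hfree : ∀ D ∈ T, ∀ p : ℕ, p.Prime → ¬ p ^ m D ∣ D.natAbs := by
    intro D hD p hp hdvd
    have h1 : ((p : ℤ)) ^ m D ∣ D := by
      rw [← Int.dvd_natAbs]
      exact_mod_cast hdvd
    have h2 := hfr D hD p h1
    rw [Int.isUnit_iff_natAbs_eq, Int.natAbs_natCast] at h2
    exact hp.one_lt.ne' h2
  have hb := h (T.image fun D => (Z D, m D)) (by
    intro w hw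
    obtain ⟨D, hD, rfl⟩ := Finset.mem_image.1 hw
    exact ⟨hP D hD, hm D hD, hF D hD, D, y D, heq D hD, (hT D hD).1⟩)
  have hcard : T.card ≤ (T.image fun D => (Z D, m D)).card * 2 := by
    have hinj : Set.InjOn (fun D : ℤ => ((Z D, m D), decide (0 < D))) (T : Set ℤ) := by
      intro D hDT D' hDT' he
      simp only [Prod.mk.injEq, decide_eq_decide] at he
      obtain ⟨⟨he1, he3⟩, he2⟩ := he
      have h1 := congrArg Int.natAbs ((heq D hDT).trans ((congrArg F he1).trans (heq D' hDT').symm))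
      rw [Int.natAbs_mul, Int.natAbs_mul, Int.natAbs_mul, Int.natAbs_mul, Int.natAbs_pow, Int.natAbs_pow,
        Int.natAbs_natCast, mul_assoc, mul_assoc] at h1
      have h2 := Nat.eq_of_mul_eq_mul_left (ha0 D hDT) h1
      rw [← he3] at h2
      have h3 : D.natAbs = D'.natAbs :=
        free_unique (q := m D) (Int.natAbs_pos.2 (hD0 D hDT)) (Int.natAbs_pos.2 (hD0 D' hDT')) (hy0 D hDT)
          (hy0 D' hDT') (hfree D hDT) (by rw [he3]; exact hfree D' hDT') h2
      have h5 := hD0 D hDT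
      have h6 := hD0 D' hDT'
      omega
    rw [← Finset.card_image_of_injOn hinj]
    have hsub : T.image (fun D : ℤ => ((Z D, m D), decide (0 < D))) ⊆
        (T.image fun D => (Z D, m D)) ×ˢ (Finset.univ : Finset Bool) := by
      intro w hw
      obtain ⟨D, hD, rfl⟩ := Finset.mem_image.1 hw
      exact Finset.mem_product.2 ⟨Finset.mem_image_of_mem (fun D => (Z D, m D)) hD, Finset.mem_univ _⟩
    refine (Finset.card_le_card hsub).trans_eq ?_
    rw [Finset.card_product, Finset.card_univ, Fintype.card_bool]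
  calc (T.card : ℝ) ≤ ((T.image fun D => (Z D, m D)).card : ℝ) * 2 := by exact_mod_cast hcard
    _ ≤ B * 2 := mul_le_mul_of_nonneg_right hb (by norm_num)
    _ = _ := by ring

end Pool.Agent.H49SE
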