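import Pool.Agent.H49SE.PairsTwo
import Pool.Agent.H49SE.Free

/-!
The number of the `D`, all exponents together.
-/

set_option autoImplicit false

open Polynomial

namespace Pool.Agent.H49SE

/-- the size of the values of a polynomial -/
theorem eval_bound (p : ℤ[X]) : ∃ K d : ℕ, ∀ Z : ℤ, (p.eval Z).natAbs ≤ K * (1 + Z.natAbs) ^ d := by
  refine ⟨∑ i ∈ Finset.range (p.natDegree + 1), (p.coeff i).natAbs, p.natDegree, fun Z => ?_⟩
  rw [Polynomial.eval_eq_sum_range, Finset.sum_mul]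
  refine (Int.natAbs_sum_le _ _).trans (Finset.sum_le_sum fun i hi => ?_)
  rw [Int.natAbs_mul, Int.natAbs_pow]
  refine Nat.mul_le_mul_left _ ?_
  calc Z.natAbs ^ i ≤ (1 + Z.natAbs) ^ i := Nat.pow_le_pow_left (by omega) _
    _ ≤ _ := Nat.pow_le_pow_right (by omega) (by rw [Finset.mem_range] at hi; omega)

theorem ringE (c C x l : ℝ) : (2 * c) * l ^ 2 * (C * x * l ^ 402) = (2 * c * C) * x * l ^ 404 := by
  ring

theorem ringF (a b x l : ℝ) (ha : 0 ≤ a) (hb : 0 ≤ b) (hx : 0 ≤ x) (hl : 1 ≤ l) :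
    2 * (a * x * l ^ 402) + 2 * (b * x * l ^ 404) ≤ (2 * a + 2 * b) * x * l ^ 405 := by
  have h1 : l ^ 402 ≤ l ^ 405 := pow_le_pow_right₀ hl (by norm_num)
  have h2 : l ^ 404 ≤ l ^ 405 := pow_le_pow_right₀ hl (by norm_num)
  have h3 := mul_le_mul_of_nonneg_left h1 (mul_nonneg ha hx)
  have h4 := mul_le_mul_of_nonneg_left h2 (mul_nonneg hb hx)
  calc 2 * (a * x * l ^ 402) + 2 * (b * x * l ^ 404) ≤ 2 * (a * x * l ^ 405) + 2 * (b * x * l ^ 405) := by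
        linarith
    _ = _ := by ring

theorem ringG (a b x x' l : ℝ) (ha : 0 ≤ a) (hb : 0 ≤ b) (hx : 0 ≤ x) (hx' : x' ≤ x) (hl : 1 ≤ l) :
    2 * (a * x * l ^ 2) + b * x' * l ^ 405 ≤ (2 * a + b) * x * l ^ 405 := by
  have h1 : l ^ 2 ≤ l ^ 405 := pow_le_pow_right₀ hl (by norm_num)
  have h3 := mul_le_mul_of_nonneg_left h1 (mul_nonneg ha hx)
  have h4 : b * x' * l ^ 405 ≤ b * x * l ^ 405 :=
    mul_le_mul_of_nonneg_right (mul_le_mul_of_nonneg_left hx' hb) (by positivity)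
  calc 2 * (a * x * l ^ 2) + b * x' * l ^ 405 ≤ 2 * (a * x * l ^ 405) + b * x * l ^ 405 := by
        linarith
    _ = _ := by ring

theorem arithE {K E M x w : ℝ} (hE : 0 ≤ E) (hw : 1 ≤ x * w) (hM : M ≤ K * x * w + E) :
    2 * M + 1 ≤ (2 * K + 2 * E + 1) * (x * w) := by
  nlinarith

namespace Dat

variable {n : ℕ} (S : Dat n)

noncomputable def K : ℝ := S.C1 * (8 * S.C2 ^ 2 * S.R ^ 2) ^ 100 * Real.exp 600

def E : ℕ := ∑ i, (S.e i).natAbs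

theorem e_le (i : Fin n) : (S.e i).natAbs ≤ S.E :=
  Finset.single_le_sum (f := fun i => (S.e i).natAbs) (fun _ _ => Nat.zero_le _) (Finset.mem_univ i)

theorem K_pos : 0 < S.K := by
  have hR := S.R_one
  have hC1 := S.C1_one
  have hC2 := S.C2_one
  unfold K
  positivity

theorem thr_eq (P l : ℝ) : S.thr P l = S.K * P * l ^ 400 := by
  unfold thr K
  have : (8 * (S.C2 * l ^ 2) ^ 2 * S.R ^ 2) ^ 100 = (8 * S.C2 ^ 2 * S.R ^ 2) ^ 100 * l ^ 400 := by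
    rw [show 8 * (S.C2 * l ^ 2) ^ 2 * S.R ^ 2 = (8 * S.C2 ^ 2 * S.R ^ 2) * l ^ 4 by ring, mul_pow,
      ← pow_mul]
  rw [this]
  ring

/-- small point or small exponent -/
theorem small_or {N : ℕ} (hN : 1 ≤ N) (hn : 3 ≤ n) {Z D y : ℤ} {q : ℕ} (hq3 : 3 ≤ q)
    (hF : S.F Z ≠ 0) (heq : (S.a : ℤ) * D * y ^ q = S.F Z) (hD : D.natAbs ≤ N) :
    ((Z.natAbs : ℕ) : ℝ) ≤ S.K * (N : ℝ) ^ ((2 : ℝ) / n) * (1 + Real.log N) ^ 400 + S.E ∨
      (q : ℝ) ≤ S.C2 * (1 + Real.log N) ^ 2 := by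
  by_contra hcon
  rw [not_or, not_le, not_le] at hcon
  obtain ⟨h1, h2⟩ := hcon
  rw [← S.thr_eq] at h1
  have hNr : (1 : ℝ) ≤ N := by exact_mod_cast hN
  have hlN := Real.log_nonneg hNr
  have hthr0 : 0 ≤ S.thr ((N : ℝ) ^ ((2 : ℝ) / n)) (1 + Real.log N) := by
    rw [S.thr_eq]
    have := S.K_pos
    positivity
  obtain ⟨t, ht⟩ : ∃ t, t = S.thr ((N : ℝ) ^ ((2 : ℝ) / n)) (1 + Real.log N) := ⟨_, rfl⟩
  rw [← ht] at h1 hthr0
  have h3 : S.E < Z.natAbs := by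
    have : (S.E : ℝ) < Z.natAbs := by linarith
    exact_mod_cast this
  have hW : ∀ i, S.thr ((N : ℝ) ^ ((2 : ℝ) / n)) (1 + Real.log N) < (Z - S.e i).natAbs := by
    intro i
    have h4 : Z.natAbs ≤ (Z - S.e i).natAbs + S.E := by
      have := S.e_le i
      omega
    have h5 : (Z.natAbs : ℝ) ≤ (Z - S.e i).natAbs + S.E := by exact_mod_cast h4
    rw [← ht]
    linarith
  obtain ⟨σ, hσ⟩ : ∃ σ : Bool, ∀ i, if σ then S.e i < Z else Z < S.e i := by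
    rcases le_or_gt 0 Z with h | h
    · refine ⟨true, fun i => ?_⟩
      simp only [if_true]
      have := S.e_le i
      omega
    · refine ⟨false, fun i => ?_⟩
      simp only [Bool.false_eq_true, if_false]
      have := S.e_le i
      omega
  exact absurd (S.large hN hn hq3 hF heq hD rfl rfl hW σ hσ).1 (not_le.2 h2)

/-- the points for one exponent -/
theorem one (hn : 3 ≤ n) : ∃ C : ℝ, 0 < C ∧ ∀ q : ℕ, IsPrimePow q → 3 ≤ q → ∀ N : ℕ, 1 ≤ N → ∀ T : Finset ℤ,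
    (∀ Z ∈ T, S.F Z ≠ 0 ∧ ∃ D y : ℤ, (S.a : ℤ) * D * y ^ q = S.F Z ∧ D.natAbs ≤ N) →
    (T.card : ℝ) ≤ C * (N : ℝ) ^ ((2 : ℝ) / n) * (1 + Real.log N) ^ 402 := by
  classical
  obtain ⟨C, hC, h⟩ := S.pairs hn
  have hK := S.K_pos
  refine ⟨C + (2 * S.K + 2 * S.E + 1), by positivity, fun q hq hq3 N hN T hT => ?_⟩
  have hNr : (1 : ℝ) ≤ N := by exact_mod_cast hN
  have hlN := Real.log_nonneg hNr
  have hl1 : (1 : ℝ) ≤ 1 + Real.log N := by linarith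
  have hP1 : (1 : ℝ) ≤ (N : ℝ) ^ ((2 : ℝ) / n) := Real.one_le_rpow hNr (by positivity)
  by_cases hqC : (q : ℝ) ≤ S.C2 * (1 + Real.log N) ^ 2
  · have h1 := h N hN (T.image fun Z => (Z, q)) (by
      intro p hp
      obtain ⟨Z, hZ, rfl⟩ := Finset.mem_image.1 hp
      exact ⟨hq, hq3, (hT Z hZ).1, hqC, (hT Z hZ).2⟩)
    rw [Finset.card_image_of_injective _ (fun a b hab => (Prod.mk.inj hab).1)] at h1
    refine h1.trans ?_
    rw [mul_assoc, mul_assoc]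
    refine mul_le_mul_of_nonneg_right ?_ (by positivity)
    exact le_add_of_nonneg_right (by positivity)
  · obtain ⟨M, hM⟩ : ∃ M : ℕ, M = ⌊S.K * (N : ℝ) ^ ((2 : ℝ) / n) * (1 + Real.log N) ^ 400 + S.E⌋₊ := ⟨_, rfl⟩
    have hM1 : (M : ℝ) ≤ S.K * (N : ℝ) ^ ((2 : ℝ) / n) * (1 + Real.log N) ^ 400 + S.E := by
      rw [hM]
      exact Nat.floor_le (by positivity)
    have hsub : T ⊆ Finset.Icc (-(M : ℤ)) M := by
      intro Z hZ
      obtain ⟨hF, D, y, heq, hD⟩ := hT Z hZ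
      rcases S.small_or hN hn hq3 hF heq hD with h1 | h1
      · have h2 : Z.natAbs ≤ M := by
          rw [hM]
          exact Nat.le_floor h1
        rw [Finset.mem_Icc]
        omega
      · exact absurd h1 hqC
    have h4 := Finset.card_le_card hsub
    rw [Int.card_Icc] at h4
    have h5 : ((M : ℤ) + 1 - -(M : ℤ)).toNat = 2 * M + 1 := by omega
    rw [h5] at h4
    have h6 : (T.card : ℝ) ≤ 2 * M + 1 := by exact_mod_cast h4
    have h7 : (1 : ℝ) ≤ (N : ℝ) ^ ((2 : ℝ) / n) * (1 + Real.log N) ^ 400 :=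
      one_le_mul_of_one_le_of_one_le hP1 (one_le_pow₀ hl1)
    have h8 : (1 + Real.log N) ^ 400 ≤ (1 + Real.log N) ^ 402 := pow_le_pow_right₀ hl1 (by norm_num)
    have h9 : (2 : ℝ) * M + 1 ≤ (2 * S.K + 2 * S.E + 1) * ((N : ℝ) ^ ((2 : ℝ) / n) * (1 + Real.log N) ^ 400) :=
      arithE (Nat.cast_nonneg _) h7 hM1
    calc (T.card : ℝ) ≤ 2 * M + 1 := h6
      _ ≤ (2 * S.K + 2 * S.E + 1) * ((N : ℝ) ^ ((2 : ℝ) / n) * (1 + Real.log N) ^ 400) := h9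
      _ ≤ (C + (2 * S.K + 2 * S.E + 1)) * ((N : ℝ) ^ ((2 : ℝ) / n) * (1 + Real.log N) ^ 402) := by
          refine mul_le_mul (le_add_of_nonneg_left hC.le) (mul_le_mul_of_nonneg_left h8 (by positivity))
            (by positivity) (by positivity)
      _ = _ := (mul_assoc _ _ _).symm

theorem F_bound : ∃ K d : ℕ, ∀ Z : ℤ, (S.F Z).natAbs ≤ K * (1 + Z.natAbs) ^ d := by
  obtain ⟨K, d, h⟩ := eval_bound ((∏ i, (X - C (S.e i))) * S.G)
  refine ⟨K, d, fun Z => ?_⟩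
  have h1 := h Z
  rw [eval_mul, eval_prod] at h1
  simp only [eval_sub, eval_X, eval_C] at h1
  exact h1

/-- a bound for the exponent -/
theorem qbound (hn : 3 ≤ n) : ∃ c : ℝ, 3 ≤ c ∧ ∀ N : ℕ, 1 ≤ N → ∀ (q : ℕ) (Z D y : ℤ), 3 ≤ q →
    S.F Z ≠ 0 → (S.a : ℤ) * D * y ^ q = S.F Z → D.natAbs ≤ N → 2 ≤ y.natAbs →
    (q : ℝ) ≤ c * (1 + Real.log N) ^ 2 := by
  obtain ⟨Kf, d, hKf⟩ := S.F_bound
  have hK := S.K_pos
  have hE0 : (0 : ℝ) ≤ S.E := Nat.cast_nonneg _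
  have hC2 := S.C2_one
  obtain ⟨c1, hc1⟩ : ∃ c1 : ℝ, c1 = Real.log (1 + Kf) + d * (Real.log (1 + S.K + S.E) + 401) := ⟨_, rfl⟩
  have hc10 : 0 ≤ c1 := by
    rw [hc1]
    have h1 : 0 ≤ Real.log (1 + (Kf : ℝ)) := Real.log_nonneg (by
      have : (0 : ℝ) ≤ Kf := Nat.cast_nonneg _
      linarith)
    have h2 : 0 ≤ Real.log (1 + S.K + S.E) := Real.log_nonneg (by linarith)
    positivity
  refine ⟨S.C2 + 2 * c1 + 3, by linarith, fun N hN q Z D y hq3 hF heq hD hy => ?_⟩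
  have hNr : (1 : ℝ) ≤ N := by exact_mod_cast hN
  have hlN := Real.log_nonneg hNr
  obtain ⟨l, hl⟩ : ∃ l : ℝ, l = 1 + Real.log N := ⟨_, rfl⟩
  have hl1 : 1 ≤ l := by rw [hl]; linarith
  have hl2 : l ≤ l ^ 2 := le_self_pow₀ hl1 (by norm_num)
  rcases S.small_or hN hn hq3 hF heq hD with h1 | h1
  · rw [← hl] at h1 ⊢
    have hP1 : (1 : ℝ) ≤ (N : ℝ) ^ ((2 : ℝ) / n) := Real.one_le_rpow hNr (by positivity)
    have hq2 : 2 ^ q ≤ (S.F Z).natAbs := by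
      rw [← heq, Int.natAbs_mul, Int.natAbs_pow]
      have hne : (S.a : ℤ) * D ≠ 0 := by
        intro h0
        rw [h0, zero_mul] at heq
        exact hF heq.symm
      calc 2 ^ q ≤ y.natAbs ^ q := Nat.pow_le_pow_left hy q
        _ ≤ _ := Nat.le_mul_of_pos_left _ (Int.natAbs_pos.2 hne)
    have h2 : (2 : ℝ) ^ q ≤ (1 + Kf) * (1 + (Z.natAbs : ℝ)) ^ d := by
      have h3 : 2 ^ q ≤ (1 + Kf) * (1 + Z.natAbs) ^ d :=
        (hq2.trans (hKf Z)).trans (Nat.mul_le_mul_right _ (by omega))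
      exact_mod_cast h3
    have h3 := Real.log_le_log (by positivity) h2
    rw [Real.log_mul (by positivity) (by positivity), Real.log_pow, Real.log_pow] at h3
    have h4 : 1 + (Z.natAbs : ℝ) ≤ (1 + S.K + S.E) * ((N : ℝ) ^ ((2 : ℝ) / n) * l ^ 400) := by
      have h5 : (1 : ℝ) ≤ (N : ℝ) ^ ((2 : ℝ) / n) * l ^ 400 :=
        one_le_mul_of_one_le_of_one_le hP1 (one_le_pow₀ hl1)
      nlinarith
    have h5 := Real.log_le_log (by positivity) h4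
    rw [Real.log_mul (by positivity) (by positivity), Real.log_mul (by positivity) (by positivity),
      Real.log_pow, Real.log_rpow (by linarith)] at h5
    have h6 : 2 / (n : ℝ) * Real.log N ≤ 1 * Real.log N := by
      refine mul_le_mul_of_nonneg_right ?_ hlN
      have hnr : (3 : ℝ) ≤ n := by exact_mod_cast hn
      rw [div_le_one (by linarith)]
      linarith
    have h7 : Real.log l ≤ l := (Real.log_le_sub_one_of_pos (by linarith)).trans (by linarith)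
    have h8 : 0 ≤ Real.log (1 + S.K + S.E) := Real.log_nonneg (by linarith)
    have h9 : Real.log (1 + (Z.natAbs : ℝ)) ≤ (Real.log (1 + S.K + S.E) + 401) * l := by
      push_cast at h5
      nlinarith
    have h10 : 0 ≤ Real.log (1 + (Kf : ℝ)) := Real.log_nonneg (by
      have : (0 : ℝ) ≤ Kf := Nat.cast_nonneg _
      linarith)
    have h11 : (d : ℝ) * Real.log (1 + (Z.natAbs : ℝ)) ≤ d * ((Real.log (1 + S.K + S.E) + 401) * l) :=
      mul_le_mul_of_nonneg_left h9 (Nat.cast_nonneg _)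
    have h12 : (q : ℝ) * Real.log 2 ≤ c1 * l := by
      rw [hc1]
      nlinarith
    have h13 := Real.log_two_gt_d9
    have h14 : (0 : ℝ) ≤ q := Nat.cast_nonneg _
    have h15 : (q : ℝ) ≤ 2 * (c1 * l) := by nlinarith
    have h16 : c1 * l ≤ c1 * l ^ 2 := mul_le_mul_of_nonneg_left hl2 hc10
    nlinarith [sq_nonneg l, mul_nonneg (by linarith : (0 : ℝ) ≤ S.C2) (sq_nonneg l)]
  · rw [← hl] at h1 ⊢
    nlinarith [sq_nonneg l, mul_nonneg hc10 (sq_nonneg l)]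

/-- a prime power dividing the exponent -/
theorem exists_q {m : ℕ} (hm : 3 ≤ m) : ∃ q, IsPrimePow q ∧ 3 ≤ q ∧ q ∣ m := by
  rcases Nat.four_dvd_or_exists_odd_prime_and_dvd_of_two_lt (by omega : 2 < m) with h | ⟨p, hp, hpm, hodd⟩
  · refine ⟨4, ?_, by norm_num, h⟩
    rw [isPrimePow_nat_iff]
    exact ⟨2, 2, Nat.prime_two, by norm_num, by norm_num⟩
  · refine ⟨p, hp.isPrimePow, ?_, hpm⟩
    have := hp.two_le
    rcases hodd with ⟨k, hk⟩
    omega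

/-- the number of the pairs `(Z, m)` -/
theorem pairsM (hn : 3 ≤ n) : ∃ C : ℝ, 0 < C ∧ ∀ N : ℕ, 1 ≤ N → ∀ T : Finset (ℤ × ℕ),
    (∀ p ∈ T, 3 ≤ p.2 ∧ S.F p.1 ≠ 0 ∧ ∃ D y : ℤ, (S.a : ℤ) * D * y ^ p.2 = S.F p.1 ∧ D.natAbs ≤ N ∧
      2 ≤ y.natAbs) →
    (T.card : ℝ) ≤ C * (N : ℝ) ^ ((2 : ℝ) / n) * (1 + Real.log N) ^ 404 := by
  classical
  obtain ⟨c, hc, hqb⟩ := S.qbound hn
  obtain ⟨C, hC, hone⟩ := S.one hn
  refine ⟨2 * c * C, by positivity, fun N hN T hT => ?_⟩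
  have hNr : (1 : ℝ) ≤ N := by exact_mod_cast hN
  have hlN := Real.log_nonneg hNr
  have hl2 : (1 : ℝ) ≤ (1 + Real.log N) ^ 2 := one_le_pow₀ (by linarith)
  obtain ⟨B, hB⟩ : ∃ B : ℝ, B = C * (N : ℝ) ^ ((2 : ℝ) / n) * (1 + Real.log N) ^ 402 := ⟨_, rfl⟩
  have hB0 : 0 ≤ B := by rw [hB]; positivity
  obtain ⟨Q, hQ⟩ : ∃ Q : ℕ, Q = ⌊c * (1 + Real.log N) ^ 2⌋₊ := ⟨_, rfl⟩
  have hQ1 : (Q : ℝ) ≤ c * (1 + Real.log N) ^ 2 := by rw [hQ]; exact Nat.floor_le (by positivity)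
  have hmaps : ∀ p ∈ T, p.2 ∈ Finset.range (Q + 1) := by
    intro p hp
    obtain ⟨hm, hF, D, y, heq, hD, hy⟩ := hT p hp
    rw [Finset.mem_range, Nat.lt_succ_iff, hQ]
    exact Nat.le_floor (hqb N hN p.2 p.1 D y hm hF heq hD hy)
  have hfib : ∀ m ∈ Finset.range (Q + 1), ((T.filter fun p => p.2 = m).card : ℝ) ≤ B := by
    intro m _
    rcases (T.filter fun p => p.2 = m).eq_empty_or_nonempty with h0 | ⟨p₀, hp₀⟩
    · rw [h0, Finset.card_empty, Nat.cast_zero]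
      exact hB0
    have hm3 : 3 ≤ m := by
      obtain ⟨h1, h2⟩ := Finset.mem_filter.1 hp₀
      rw [← h2]
      exact (hT p₀ h1).1
    obtain ⟨q, hq, hq3, k, hk⟩ := exists_q hm3
    have hinj : Set.InjOn Prod.fst (T.filter fun p => p.2 = m : Set (ℤ × ℕ)) := by
      intro a ha b hb hab
      have h1 := (Finset.mem_filter.1 ha).2
      have h2 := (Finset.mem_filter.1 hb).2
      exact Prod.ext hab (h1.trans h2.symm)
    rw [← Finset.card_image_of_injOn hinj, hB]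
    refine hone q hq hq3 N hN _ fun Z hZ => ?_
    obtain ⟨p, hp, rfl⟩ := Finset.mem_image.1 hZ
    obtain ⟨hpT, hpm⟩ := Finset.mem_filter.1 hp
    obtain ⟨-, hF, D, y, heq, hD, hy⟩ := hT p hpT
    refine ⟨hF, D, y ^ k, ?_, hD⟩
    rw [← pow_mul, mul_comm k q, ← hk, ← hpm]
    exact heq
  have hsum : (T.card : ℝ) = ∑ m ∈ Finset.range (Q + 1), ((T.filter fun p => p.2 = m).card : ℝ) := by
    exact_mod_cast Finset.card_eq_sum_card_fiberwise hmaps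
  have h3 : ∑ m ∈ Finset.range (Q + 1), ((T.filter fun p => p.2 = m).card : ℝ) ≤ (Q + 1) * B := by
    refine (Finset.sum_le_card_nsmul _ _ _ hfib).trans_eq ?_
    rw [nsmul_eq_mul, Finset.card_range]
    push_cast
    ring
  have h4 : (Q : ℝ) + 1 ≤ (2 * c) * (1 + Real.log N) ^ 2 := by nlinarith
  rw [hsum]
  refine h3.trans ((mul_le_mul_of_nonneg_right h4 hB0).trans_eq ?_)
  rw [hB]
  exact ringE _ _ _ _

/-- all exponents at least three -/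
theorem main3 (hn : 3 ≤ n) : ∃ C : ℝ, 0 < C ∧ ∀ N : ℕ, 1 ≤ N → ∀ T : Finset ℤ,
    (∀ D ∈ T, D.natAbs ≤ N ∧ ∃ (m : ℕ) (Z y : ℤ), 3 ≤ m ∧ (∀ d : ℤ, d ^ m ∣ D → IsUnit d) ∧ S.F Z ≠ 0 ∧
      (S.a : ℤ) * D * y ^ m = S.F Z) →
    (T.card : ℝ) ≤ C * (N : ℝ) ^ ((2 : ℝ) / n) * (1 + Real.log N) ^ 405 := by
  classical
  obtain ⟨C1, hC1, hone⟩ := S.one hn
  obtain ⟨C2, hC2, hpm⟩ := S.pairsM hn
  refine ⟨2 * C1 + 2 * C2, by positivity, fun N hN T hT => ?_⟩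
  have hNr : (1 : ℝ) ≤ N := by exact_mod_cast hN
  have hlN := Real.log_nonneg hNr
  have hl1 : (1 : ℝ) ≤ 1 + Real.log N := by linarith
  let T1 := T.filter fun D => ∃ Z : ℤ, S.F Z ≠ 0 ∧ (S.a * D.natAbs = (S.F Z).natAbs) ∧
    ∃ y : ℤ, (S.a : ℤ) * D * y ^ 3 = S.F Z
  let T2 := T.filter fun D => ∃ (m : ℕ) (Z y : ℤ), 3 ≤ m ∧ (∀ d : ℤ, d ^ m ∣ D → IsUnit d) ∧ S.F Z ≠ 0 ∧
      (S.a : ℤ) * D * y ^ m = S.F Z ∧ 2 ≤ y.natAbs
  have hsub : T ⊆ T1 ∪ T2 := by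
    intro D hD
    obtain ⟨-, m, Z, y, hm, hfr, hF, heq⟩ := hT D hD
    rw [Finset.mem_union]
    have hy0 : y ≠ 0 := by
      rintro rfl
      rw [zero_pow (by omega), mul_zero] at heq
      exact hF heq.symm
    by_cases hy1 : y.natAbs = 1
    · left
      refine Finset.mem_filter.2 ⟨hD, Z, hF, ?_, y ^ m, ?_⟩
      · rw [← heq, Int.natAbs_mul, Int.natAbs_mul, Int.natAbs_pow, hy1, one_pow, mul_one, Int.natAbs_natCast]
      · rw [← heq]
        congr 1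
        have h1 : y = 1 ∨ y = -1 := Int.natAbs_eq_iff.1 hy1
        have h2 : y ^ m = 1 ∨ y ^ m = -1 := by
          rcases h1 with h1 | h1
          · left; rw [h1, one_pow]
          · rw [h1]; exact neg_one_pow_eq_or ℤ m
        rcases h2 with h2 | h2 <;> rw [h2] <;> norm_num
    · right
      refine Finset.mem_filter.2 ⟨hD, m, Z, y, hm, hfr, hF, heq, ?_⟩
      have := Int.natAbs_pos.2 hy0
      omega
  have hcard : (T.card : ℝ) ≤ T1.card + T2.card := by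
    exact_mod_cast (Finset.card_le_card hsub).trans (Finset.card_union_le _ _)
  have k1 : (T1.card : ℝ) ≤ 2 * (C1 * (N : ℝ) ^ ((2 : ℝ) / n) * (1 + Real.log N) ^ 402) := by
    choose! Z hF hab hy using fun D (hD : D ∈ T1) => (Finset.mem_filter.1 hD).2
    have h1 := hone 3 Nat.prime_three.isPrimePow le_rfl N hN (T1.image Z) (by
      intro w hw
      obtain ⟨D, hD, rfl⟩ := Finset.mem_image.1 hw
      obtain ⟨y, hy⟩ := hy D hD
      exact ⟨hF D hD, D, y, hy, (hT D (Finset.mem_filter.1 hD).1).1⟩)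
    have hinj : Set.InjOn (fun D : ℤ => (Z D, decide (0 < D))) (T1 : Set ℤ) := by
      intro D hD D' hD' he
      simp only [Prod.mk.injEq, decide_eq_decide] at he
      obtain ⟨he1, he2⟩ := he
      have h2 := hab D hD
      have h3 := hab D' hD'
      have h4 := hF D hD
      rw [← he1, ← h2] at h3
      have h5 := Nat.eq_of_mul_eq_mul_left S.ha h3
      have h6 : D ≠ 0 := by
        intro h0
        rw [← Int.natAbs_ne_zero, ← h2] at h4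
        apply h4
        rw [h0]
        simp
      omega
    have hc2 : T1.card ≤ (T1.image Z).card * 2 := by
      rw [← Finset.card_image_of_injOn hinj]
      have hsub : T1.image (fun D : ℤ => (Z D, decide (0 < D))) ⊆ (T1.image Z) ×ˢ (Finset.univ : Finset Bool) := by
        intro w hw
        obtain ⟨D, hD, rfl⟩ := Finset.mem_image.1 hw
        exact Finset.mem_product.2 ⟨Finset.mem_image_of_mem _ hD, Finset.mem_univ _⟩
      refine (Finset.card_le_card hsub).trans_eq ?_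
      rw [Finset.card_product, Finset.card_univ, Fintype.card_bool]
    calc (T1.card : ℝ) ≤ ((T1.image Z).card : ℝ) * 2 := by exact_mod_cast hc2
      _ ≤ (C1 * (N : ℝ) ^ ((2 : ℝ) / n) * (1 + Real.log N) ^ 402) * 2 := mul_le_mul_of_nonneg_right h1 (by norm_num)
      _ = _ := mul_comm _ _
  have k2 : (T2.card : ℝ) ≤ 2 * (C2 * (N : ℝ) ^ ((2 : ℝ) / n) * (1 + Real.log N) ^ 404) := by
    refine dcount_free S.a S.F _ N (fun Z m => 3 ≤ m ∧ ∃ D y : ℤ, (S.a : ℤ) * D * y ^ m = S.F Z ∧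
      D.natAbs ≤ N ∧ 2 ≤ y.natAbs) (fun T' hT' => hpm N hN T' fun p hp => ?_) T2 fun D hD => ?_
    · obtain ⟨⟨h1, h2⟩, -, h3, -⟩ := hT' p hp
      exact ⟨h1, h3, h2⟩
    · obtain ⟨hDT, m, Z, y, hm, hfr, hF, heq, hy⟩ := Finset.mem_filter.1 hD
      have hDN := (hT D hDT).1
      exact ⟨hDN, m, Z, y, ⟨hm, D, y, heq, hDN, hy⟩, by omega, hfr, hF, heq⟩
  exact hcard.trans ((add_le_add k1 k2).trans (ringF _ _ _ _ hC1.le hC2.le (by positivity) hl1))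

/-- all exponents at least two -/
theorem main2 (hn : 4 ≤ n) : ∃ C : ℝ, 0 < C ∧ ∀ N : ℕ, 1 ≤ N → ∀ T : Finset ℤ,
    (∀ D ∈ T, D.natAbs ≤ N ∧ ∃ (m : ℕ) (Z y : ℤ), 2 ≤ m ∧ (∀ d : ℤ, d ^ m ∣ D → IsUnit d) ∧ S.F Z ≠ 0 ∧
      (S.a : ℤ) * D * y ^ m = S.F Z) →
    (T.card : ℝ) ≤ C * (N : ℝ) ^ ((3 : ℝ) / n) * (1 + Real.log N) ^ 405 := by
  classical
  obtain ⟨C3, hC3, h3⟩ := S.main3 (by omega)
  obtain ⟨C2, hC2, h2⟩ := S.pairs2 hn
  refine ⟨2 * C2 + C3, by positivity, fun N hN T hT => ?_⟩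
  have hNr : (1 : ℝ) ≤ N := by exact_mod_cast hN
  have hlN := Real.log_nonneg hNr
  have hl1 : (1 : ℝ) ≤ 1 + Real.log N := by linarith
  have hnr : (4 : ℝ) ≤ n := by exact_mod_cast hn
  let T2 := T.filter fun D => ∃ Z y : ℤ, (∀ d : ℤ, d ^ 2 ∣ D → IsUnit d) ∧ S.F Z ≠ 0 ∧
    (S.a : ℤ) * D * y ^ 2 = S.F Z
  let T3 := T.filter fun D => ∃ (m : ℕ) (Z y : ℤ), 3 ≤ m ∧ (∀ d : ℤ, d ^ m ∣ D → IsUnit d) ∧ S.F Z ≠ 0 ∧
    (S.a : ℤ) * D * y ^ m = S.F Z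
  have hsub : T ⊆ T2 ∪ T3 := by
    intro D hD
    obtain ⟨-, m, Z, y, hm, hfr, hF, heq⟩ := hT D hD
    rw [Finset.mem_union]
    rcases Nat.lt_or_ge m 3 with h | h
    · left
      have : m = 2 := by omega
      subst this
      exact Finset.mem_filter.2 ⟨hD, Z, y, hfr, hF, heq⟩
    · exact Or.inr (Finset.mem_filter.2 ⟨hD, m, Z, y, h, hfr, hF, heq⟩)
  have hcard : (T.card : ℝ) ≤ T2.card + T3.card := by
    exact_mod_cast (Finset.card_le_card hsub).trans (Finset.card_union_le _ _)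
  have k2 : (T2.card : ℝ) ≤ 2 * (C2 * (N : ℝ) ^ ((3 : ℝ) / n) * (1 + Real.log N) ^ 2) := by
    refine dcount_free S.a S.F _ N (fun Z m => m = 2) (fun T' hT' => ?_) T2 fun D hD => ?_
    · have hinj : Set.InjOn Prod.fst (T' : Set (ℤ × ℕ)) := by
        intro a ha b hb hab
        exact Prod.ext hab ((hT' a ha).1.trans (hT' b hb).1.symm)
      rw [← Finset.card_image_of_injOn hinj]
      refine h2 N hN _ fun Z hZ => ?_
      obtain ⟨p, hp, rfl⟩ := Finset.mem_image.1 hZ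
      obtain ⟨h4, -, h5, h6⟩ := hT' p hp
      rw [h4] at h6
      exact ⟨h5, h6⟩
    · obtain ⟨hDT, Z, y, hfr, hF, heq⟩ := Finset.mem_filter.1 hD
      exact ⟨(hT D hDT).1, 2, Z, y, rfl, by norm_num, hfr, hF, heq⟩
  have k3 := h3 N hN T3 (fun D hD => ⟨(hT D (Finset.mem_filter.1 hD).1).1, (Finset.mem_filter.1 hD).2⟩)
  have e1 : (2 : ℝ) / n ≤ (3 : ℝ) / n := div_le_div_of_nonneg_right (by norm_num) (by linarith)
  have e2 : (N : ℝ) ^ ((2 : ℝ) / n) ≤ (N : ℝ) ^ ((3 : ℝ) / n) := Real.rpow_le_rpow_of_exponent_le hNr e1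
  exact hcard.trans ((add_le_add k2 k3).trans (ringG _ _ _ _ _ hC2.le hC3.le (by positivity) e2 hl1))

end Dat

end Pool.Agent.H49SE
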