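import Pool.Agent.H49SE.Pade
import Pool.Agent.H374R2.V.G

/-!
The gap principle for the equation `A u ^ q - B v ^ q = ρ`, uniform in the coefficients.
-/

set_option autoImplicit false

namespace Pool.Agent.H49SE

open Finset
open Pool.Agent.H374R2.T (cf pf)
open Pool.Agent.H374R2.V

/-- A positive solution of `A u ^ q - B v ^ q = ρ`. -/
structure Sol (q A B : ℕ) (ρ : ℤ) (u v : ℕ) : Prop where
  A0 : 0 < A
  B0 : 0 < B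
  u0 : 0 < u
  v0 : 0 < v
  ρ0 : ρ ≠ 0
  eq : (A : ℤ) * (u : ℤ) ^ q - B * (v : ℤ) ^ q = ρ

/-- the integer of the Thue-Siegel argument -/
def EE (q n A : ℕ) (ρ : ℤ) (u v u' v' : ℕ) : ℤ :=
  (u * v' : ℤ) * pf q n 1 (A * (u : ℤ) ^ q) ρ - (u' * v : ℤ) * pf q n (-1) (A * (u : ℤ) ^ q) ρ

theorem pf_real {q n : ℕ} (s X T : ℤ) (hX : X ≠ 0) : ((pf q n s X T : ℤ) : ℝ) =
    (X : ℝ) ^ n * ∑ k ∈ range (n + 1), (cf q n s k : ℝ) * (Nat.choose (2 * n - k) n : ℝ) *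
      (-((T : ℝ) / X)) ^ k := by
  have hXr : (X : ℝ) ≠ 0 := by exact_mod_cast hX
  unfold pf
  push_cast
  rw [mul_sum]
  refine sum_congr rfl fun k hk => ?_
  rw [mem_range] at hk
  have h1 : (X : ℝ) ^ n = X ^ k * X ^ (n - k) := by rw [← pow_add]; congr 1; omega
  have h2 : (-((T : ℝ) / X)) ^ k = (-(T : ℝ)) ^ k / X ^ k := by
    rw [← div_pow]
    congr 1
    ring
  rw [h1, h2]
  field_simp

theorem root_facts {t z : ℝ} (h0 : 0 ≤ t) (h1 : t ≤ 1) (hz : |z| ≤ 1 / 2) :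
    1 / 2 ≤ (1 - z) ^ t ∧ |1 - (1 - z) ^ t| ≤ 2 * |z| := by
  constructor
  · have hz' := abs_le.1 hz
    have h2 : (1 / 2 : ℝ) ≤ 1 - z := by linarith
    calc (1 / 2 : ℝ) = (1 / 2 : ℝ) ^ (1 : ℝ) := by rw [Real.rpow_one]
      _ ≤ (1 / 2 : ℝ) ^ t := Real.rpow_le_rpow_of_exponent_ge (by norm_num) (by norm_num) h1
      _ ≤ (1 - z) ^ t := Real.rpow_le_rpow (by norm_num) h2 h0
  · have h2 := tail_le h0 h1 hz 1
    rw [range_one, sum_singleton, Ring.choose_zero_right, pow_zero, pow_one, one_mul] at h2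
    rw [abs_sub_comm]
    exact h2

/-- the upper bound for `EE` -/
theorem EE_up {q n A B : ℕ} {ρ : ℤ} {u v u' v' : ℕ} (hq : IsPrimePow q)
    (S : Sol q A B ρ u v) (S' : Sol q A B ρ u' v')
    (h2 : 2 * |(ρ : ℝ)| ≤ A * (u : ℝ) ^ q) (h2' : 2 * |(ρ : ℝ)| ≤ A * (u' : ℝ) ^ q) :
    |(EE q n A ρ u v u' v' : ℝ)| ≤ 8 * (8 * (q : ℝ) ^ 2 * (ρ : ℝ) ^ 2) ^ n * |(ρ : ℝ)| * (u * v') *
      (1 / (A * (u : ℝ) ^ q) ^ (n + 1) + (A * (u : ℝ) ^ q) ^ n / (A * (u' : ℝ) ^ q)) := by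
  have hq1 : (1 : ℝ) ≤ q := by exact_mod_cast hq.pos
  have hA : (0 : ℝ) < A := by exact_mod_cast S.A0
  have hB : (0 : ℝ) < B := by exact_mod_cast S.B0
  have hu : (0 : ℝ) < u := by exact_mod_cast S.u0
  have hv : (0 : ℝ) < v := by exact_mod_cast S.v0
  have hu' : (0 : ℝ) < u' := by exact_mod_cast S'.u0
  have hv' : (0 : ℝ) < v' := by exact_mod_cast S'.v0
  have hρ : 0 < |(ρ : ℝ)| := abs_pos.2 (by exact_mod_cast S.ρ0)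
  obtain ⟨t, ht⟩ : ∃ t : ℝ, t = 1 / q := ⟨_, rfl⟩
  have ht0 : 0 ≤ t := by rw [ht]; positivity
  have ht1 : t ≤ 1 := by rw [ht, div_le_one (by linarith)]; exact hq1
  obtain ⟨x, hx⟩ : ∃ x : ℝ, x = A * (u : ℝ) ^ q := ⟨_, rfl⟩
  obtain ⟨x', hx'⟩ : ∃ x' : ℝ, x' = A * (u' : ℝ) ^ q := ⟨_, rfl⟩
  rw [← hx] at h2 ⊢
  rw [← hx'] at h2' ⊢
  have hx0 : 0 < x := by rw [hx]; positivity
  have hx0' : 0 < x' := by rw [hx']; positivity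
  have hz : |(ρ : ℝ) / x| ≤ 1 / 2 := by
    rw [abs_div, abs_of_pos hx0, div_le_iff₀ hx0]; linarith
  have hz' : |(ρ : ℝ) / x'| ≤ 1 / 2 := by
    rw [abs_div, abs_of_pos hx0', div_le_iff₀ hx0']; linarith
  obtain ⟨r1, -⟩ := root_facts ht0 ht1 hz
  obtain ⟨r1', r2'⟩ := root_facts ht0 ht1 hz'
  obtain ⟨r, hr⟩ : ∃ r : ℝ, r = (1 - (ρ : ℝ) / x) ^ t := ⟨_, rfl⟩
  obtain ⟨r', hr'⟩ : ∃ r' : ℝ, r' = (1 - (ρ : ℝ) / x') ^ t := ⟨_, rfl⟩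
  rw [← hr] at r1
  rw [← hr'] at r1' r2'
  have hq0 : q ≠ 0 := hq.ne_zero
  have hrq : r ^ q = 1 - ρ / x := by
    rw [hr, ht, one_div, Real.rpow_inv_natCast_pow _ hq0]
    have := abs_le.1 hz
    linarith
  have hrq' : r' ^ q = 1 - ρ / x' := by
    rw [hr', ht, one_div, Real.rpow_inv_natCast_pow _ hq0]
    have := abs_le.1 hz'
    linarith
  have heq : x - B * (v : ℝ) ^ q = ρ := by rw [hx]; exact_mod_cast S.eq
  have heq' : x' - B * (v' : ℝ) ^ q = ρ := by rw [hx']; exact_mod_cast S'.eq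
  -- the relation
  have hrel : (u' * v : ℝ) * r' = (u * v' : ℝ) * r := by
    refine (pow_left_inj₀ (by positivity) (by positivity) hq0).1 ?_
    rw [mul_pow, mul_pow, mul_pow, mul_pow, hrq, hrq']
    have e1 : 1 - (ρ : ℝ) / x = B * (v : ℝ) ^ q / x := by
      rw [← heq]; field_simp; ring
    have e2 : 1 - (ρ : ℝ) / x' = B * (v' : ℝ) ^ q / x' := by
      rw [← heq']; field_simp; ring
    rw [e1, e2, hx, hx']
    field_simp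
  have hXne : (A * (u : ℤ) ^ q) ≠ 0 := by
    have : 0 < A * u ^ q := Nat.mul_pos S.A0 (pow_pos S.u0 q)
    exact_mod_cast this.ne'
  have hXx : (((A * (u : ℤ) ^ q : ℤ)) : ℝ) = x := by rw [hx]; push_cast; ring
  obtain ⟨P, hP⟩ : ∃ P : ℝ, P = ((pf q n 1 (A * (u : ℤ) ^ q) ρ : ℤ) : ℝ) := ⟨_, rfl⟩
  obtain ⟨Q, hQ⟩ : ∃ Q : ℝ, Q = ((pf q n (-1) (A * (u : ℤ) ^ q) ρ : ℤ) : ℝ) := ⟨_, rfl⟩
  have hPQ : |P - r * Q| ≤ 4 * (8 * (q : ℝ) ^ 2) ^ n * |(ρ : ℝ)| ^ (2 * n + 1) * (1 / x ^ (n + 1)) := by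
    have h3 := pade_real (n := n) hq hz
    rw [hP, hQ, pf_real _ _ _ hXne, pf_real _ _ _ hXne, hXx]
    rw [← ht, ← hr] at h3
    have e1 : x ^ n * ∑ k ∈ range (n + 1), (cf q n 1 k : ℝ) * (Nat.choose (2 * n - k) n : ℝ) *
        (-((ρ : ℝ) / x)) ^ k - r * (x ^ n * ∑ k ∈ range (n + 1), (cf q n (-1) k : ℝ) *
          (Nat.choose (2 * n - k) n : ℝ) * (-((ρ : ℝ) / x)) ^ k) =
        x ^ n * (∑ k ∈ range (n + 1), (cf q n 1 k : ℝ) * (Nat.choose (2 * n - k) n : ℝ) *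
        (-((ρ : ℝ) / x)) ^ k - r * (∑ k ∈ range (n + 1), (cf q n (-1) k : ℝ) *
          (Nat.choose (2 * n - k) n : ℝ) * (-((ρ : ℝ) / x)) ^ k)) := by ring
    rw [e1, abs_mul, abs_of_pos (pow_pos hx0 n)]
    refine (mul_le_mul_of_nonneg_left h3 (by positivity)).trans (le_of_eq ?_)
    rw [abs_div, abs_of_pos hx0, div_pow]
    have e2 : x ^ (2 * n + 1) = x ^ n * x ^ (n + 1) := by rw [← pow_add]; congr 1; omega
    rw [e2]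
    field_simp
  have hPs : |P| ≤ 2 * (8 * (q : ℝ) ^ 2) ^ n * x ^ n := by
    have hM : |(A * (u : ℤ) ^ q : ℤ)| ≤ (A * (u : ℤ) ^ q : ℤ) := by
      rw [abs_of_nonneg (by positivity)]
    have hT : |ρ| ≤ (A * (u : ℤ) ^ q : ℤ) := by
      have : |(ρ : ℝ)| ≤ x := by linarith
      rw [hx] at this
      exact_mod_cast this
    have h3 := P2.pf_size (n := n) hq (Or.inl rfl : (1 : ℤ) = 1 ∨ (1 : ℤ) = -1) hM hT
    rw [hP, hx]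
    exact_mod_cast h3
  have hEr : (EE q n A ρ u v u' v' : ℝ) * r' = (u * v' : ℝ) * ((P - r * Q) - (1 - r') * P) := by
    have e1 : (EE q n A ρ u v u' v' : ℝ) = (u * v' : ℝ) * P - (u' * v : ℝ) * Q := by
      unfold EE
      rw [hP, hQ]
      push_cast
      ring
    rw [e1]
    linear_combination (-Q) * hrel
  have hr0 : 0 < r' := by linarith
  have h5 : |(EE q n A ρ u v u' v' : ℝ)| * r' = (u * v' : ℝ) * |(P - r * Q) - (1 - r') * P| := by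
    rw [← abs_of_pos hr0, ← abs_mul, hEr, abs_mul, abs_of_pos (by positivity : (0:ℝ) < u * v'),
      abs_of_pos hr0]
  have h6 : |(P - r * Q) - (1 - r') * P| ≤ 4 * (8 * (q : ℝ) ^ 2) ^ n * |(ρ : ℝ)| ^ (2 * n + 1) * (1 / x ^ (n + 1)) +
      (2 * (|(ρ : ℝ)| / x')) * (2 * (8 * (q : ℝ) ^ 2) ^ n * x ^ n) := by
    refine (abs_sub _ _).trans (add_le_add hPQ ?_)
    rw [abs_mul]
    refine mul_le_mul ?_ hPs (abs_nonneg _) (by positivity)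
    rw [abs_div, abs_of_pos hx0'] at r2'
    exact r2'
  have h7 : |(EE q n A ρ u v u' v' : ℝ)| ≤ 2 * ((u * v' : ℝ) * |(P - r * Q) - (1 - r') * P|) := by
    rw [← h5]
    nlinarith [abs_nonneg (EE q n A ρ u v u' v' : ℝ)]
  refine h7.trans ?_
  have hρ1 : 1 ≤ |(ρ : ℝ)| := by exact_mod_cast Int.one_le_abs S.ρ0
  have e3 : |(ρ : ℝ)| ^ (2 * n + 1) = ((ρ : ℝ) ^ 2) ^ n * |(ρ : ℝ)| := by
    rw [pow_succ, pow_mul, sq_abs]
  have e4 : (8 * (q : ℝ) ^ 2 * (ρ : ℝ) ^ 2) ^ n = (8 * (q : ℝ) ^ 2) ^ n * ((ρ : ℝ) ^ 2) ^ n := by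
    rw [mul_pow]
  have hρn : 1 ≤ ((ρ : ℝ) ^ 2) ^ n := by
    apply one_le_pow₀
    rw [← sq_abs]
    exact one_le_pow₀ hρ1
  rw [e3] at h6
  rw [e4]
  calc 2 * ((u * v' : ℝ) * |(P - r * Q) - (1 - r') * P|)
      ≤ 2 * ((u * v' : ℝ) * (4 * (8 * (q : ℝ) ^ 2) ^ n * (((ρ : ℝ) ^ 2) ^ n * |(ρ : ℝ)|) * (1 / x ^ (n + 1)) +
      (2 * (|(ρ : ℝ)| / x')) * (2 * (8 * (q : ℝ) ^ 2) ^ n * x ^ n))) := by gcongr
    _ = 8 * (8 * (q : ℝ) ^ 2) ^ n * |(ρ : ℝ)| * (u * v') * (((ρ : ℝ) ^ 2) ^ n * (1 / x ^ (n + 1)) +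
        1 * (x ^ n / x')) := by ring
    _ ≤ 8 * (8 * (q : ℝ) ^ 2) ^ n * |(ρ : ℝ)| * (u * v') * (((ρ : ℝ) ^ 2) ^ n * (1 / x ^ (n + 1)) +
        ((ρ : ℝ) ^ 2) ^ n * (x ^ n / x')) := by gcongr
    _ = _ := by ring

end Pool.Agent.H49SE
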