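import Pool.Agent.H49SE.Gap

/-!
The number of large solutions of `A u ^ q - B v ^ q = ρ`.
-/

set_option autoImplicit false

namespace Pool.Agent.H49SE

open Finset
open Pool.Agent.H374R2.T (cf pf)
open Pool.Agent.H374R2.V

/-- the height is large -/
def Lg (q A : ℕ) (ρ : ℤ) (u : ℕ) : Prop :=
  100 * (Real.log (8 * (q : ℝ) ^ 2 * (ρ : ℝ) ^ 2) + 6) ≤ Real.log (A * (u : ℝ) ^ q)

theorem Lg.facts {q A B : ℕ} {ρ : ℤ} {u v : ℕ} (hq : IsPrimePow q) (hq3 : 3 ≤ q)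
    (S : Sol q A B ρ u v) (h : Lg q A ρ u) :
    2 * |(ρ : ℝ)| ≤ A * (u : ℝ) ^ q ∧ 3 * Real.log u ≤ Real.log (A * (u : ℝ) ^ q) ∧
    3 * Real.log v ≤ Real.log (A * (u : ℝ) ^ q) + Real.log 2 ∧
    0 ≤ Real.log (8 * (q : ℝ) ^ 2 * (ρ : ℝ) ^ 2) ∧
    Real.log |(ρ : ℝ)| ≤ Real.log (8 * (q : ℝ) ^ 2 * (ρ : ℝ) ^ 2) := by
  have hqr : (3 : ℝ) ≤ q := by exact_mod_cast hq3
  have hA : (1 : ℝ) ≤ A := by exact_mod_cast S.A0
  have hB : (1 : ℝ) ≤ B := by exact_mod_cast S.B0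
  have hu : (1 : ℝ) ≤ u := by exact_mod_cast S.u0
  have hv : (1 : ℝ) ≤ v := by exact_mod_cast S.v0
  have hρ1 : 1 ≤ |(ρ : ℝ)| := by exact_mod_cast Int.one_le_abs S.ρ0
  have hρ2 : |(ρ : ℝ)| ≤ (ρ : ℝ) ^ 2 := by
    rw [← sq_abs]
    nlinarith
  have hM : |(ρ : ℝ)| ≤ 8 * (q : ℝ) ^ 2 * (ρ : ℝ) ^ 2 := by
    have h1 : (1 : ℝ) ≤ 8 * (q : ℝ) ^ 2 := by nlinarith
    calc |(ρ : ℝ)| ≤ 1 * (ρ : ℝ) ^ 2 := by rw [one_mul]; exact hρ2
      _ ≤ _ := mul_le_mul_of_nonneg_right h1 (by positivity)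
  have hM1 : 1 ≤ 8 * (q : ℝ) ^ 2 * (ρ : ℝ) ^ 2 := hρ1.trans hM
  have hM0 := Real.log_nonneg hM1
  have hlρ : Real.log |(ρ : ℝ)| ≤ Real.log (8 * (q : ℝ) ^ 2 * (ρ : ℝ) ^ 2) :=
    Real.log_le_log (by linarith) hM
  have hx0 : (0 : ℝ) < A * (u : ℝ) ^ q := by positivity
  have h2 : 2 * |(ρ : ℝ)| ≤ A * (u : ℝ) ^ q := by
    rw [← Real.log_le_log_iff (by positivity) hx0, Real.log_mul (by norm_num) (by positivity)]
    unfold Lg at h
    have := Real.log_two_lt_d9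
    linarith
  refine ⟨h2, ?_, ?_, hM0, hlρ⟩
  · rw [Real.log_mul (by positivity) (by positivity), Real.log_pow]
    have h3 := Real.log_nonneg hA
    have h4 := Real.log_nonneg hu
    nlinarith
  · have heq : (A : ℝ) * (u : ℝ) ^ q - B * (v : ℝ) ^ q = ρ := by exact_mod_cast S.eq
    have h3 : B * (v : ℝ) ^ q ≤ (A : ℝ) * (u : ℝ) ^ q * 2 := by
      have := neg_abs_le (ρ : ℝ)
      nlinarith
    have h4 := Real.log_le_log (by positivity) h3
    rw [Real.log_mul (by positivity) (by positivity), Real.log_pow,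
      Real.log_mul hx0.ne' (by norm_num)] at h4
    have h5 := Real.log_nonneg hB
    have h6 := Real.log_nonneg hv
    nlinarith

theorem star {q n A B : ℕ} {ρ : ℤ} {u v u' v' : ℕ} (hq : IsPrimePow q) (hq3 : 3 ≤ q)
    (S : Sol q A B ρ u v) (S' : Sol q A B ρ u' v') (h : Lg q A ρ u) (h' : Lg q A ρ u')
    {H H' : ℝ} (hH : H = Real.log (A * (u : ℝ) ^ q)) (hH' : H' = Real.log (A * (u' : ℝ) ^ q))
    (hE : EE q n A ρ u v u' v' ≠ 0) :
    min ((n + 1) * H) (H' - n * H) ≤ (H + H') / 3 + (n + 1) * (H / 100) := by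
  obtain ⟨a1, a2, a3, a4, a5⟩ := h.facts hq hq3 S
  obtain ⟨b1, b2, b3, b4, b5⟩ := h'.facts hq hq3 S'
  have hup := EE_up (n := n) hq S S' a1 b1
  have hE1 : (1 : ℝ) ≤ |(EE q n A ρ u v u' v' : ℝ)| := by exact_mod_cast Int.one_le_abs hE
  have hA : (1 : ℝ) ≤ A := by exact_mod_cast S.A0
  have hu : (1 : ℝ) ≤ u := by exact_mod_cast S.u0
  have hu' : (1 : ℝ) ≤ u' := by exact_mod_cast S'.u0
  have hv' : (1 : ℝ) ≤ v' := by exact_mod_cast S'.v0
  have hρ1 : 1 ≤ |(ρ : ℝ)| := by exact_mod_cast Int.one_le_abs S.ρ0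
  obtain ⟨x, hx⟩ : ∃ x : ℝ, x = A * (u : ℝ) ^ q := ⟨_, rfl⟩
  obtain ⟨x', hx'⟩ : ∃ x' : ℝ, x' = A * (u' : ℝ) ^ q := ⟨_, rfl⟩
  obtain ⟨M, hM⟩ : ∃ M : ℝ, M = 8 * (q : ℝ) ^ 2 * (ρ : ℝ) ^ 2 := ⟨_, rfl⟩
  unfold Lg at h
  rw [← hx] at hup hH a1 a2 a3 h
  rw [← hx'] at hup hH' b1 b2 b3
  rw [← hM] at hup a4 a5 h
  have hx0 : 0 < x := by rw [hx]; positivity
  have hx0' : 0 < x' := by rw [hx']; positivity
  have hM0 : 0 < M := by
    rw [hM]
    have : (0 : ℝ) < (ρ : ℝ) ^ 2 := by rw [← sq_abs]; positivity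
    have h3 : (0 : ℝ) < q := by exact_mod_cast hq.pos
    positivity
  have hex : Real.exp H = x := by rw [hH, Real.exp_log hx0]
  have hex' : Real.exp H' = x' := by rw [hH', Real.exp_log hx0']
  obtain ⟨m, hm⟩ : ∃ m : ℝ, m = min ((n + 1) * H) (H' - n * H) := ⟨_, rfl⟩
  rw [← hm]
  have hm1 : m ≤ (n + 1) * H := by rw [hm]; exact min_le_left _ _
  have hm2 : m ≤ H' - n * H := by rw [hm]; exact min_le_right _ _
  have h3 : 1 / x ^ (n + 1) + x ^ n / x' ≤ 2 * Real.exp (-m) := by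
    have e1 : 1 / x ^ (n + 1) = Real.exp (-((n + 1) * H)) := by
      rw [Real.exp_neg, ← hex, ← Real.exp_nat_mul, one_div]
      push_cast
      rfl
    have e2 : x ^ n / x' = Real.exp (-(H' - n * H)) := by
      rw [← hex, ← hex', ← Real.exp_nat_mul, ← Real.exp_sub]
      congr 1
      ring
    rw [e1, e2]
    have e3 := Real.exp_le_exp.2 (neg_le_neg hm1)
    have e4 := Real.exp_le_exp.2 (neg_le_neg hm2)
    linarith
  have h4 : (1 : ℝ) ≤ 8 * M ^ n * |(ρ : ℝ)| * (u * v') * (2 * Real.exp (-m)) :=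
    hE1.trans (hup.trans (mul_le_mul_of_nonneg_left h3 (by positivity)))
  have h5 := Real.log_le_log one_pos h4
  rw [Real.log_one, Real.log_mul (by positivity) (by positivity), Real.log_mul (by positivity) (by positivity),
    Real.log_mul (by positivity) (by positivity), Real.log_mul (by positivity) (by positivity),
    Real.log_mul (by positivity) (by positivity), Real.log_mul (by positivity) (by positivity),
    Real.log_pow, Real.log_exp] at h5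
  have h8 : Real.log 8 = 3 * Real.log 2 := by
    rw [show (8 : ℝ) = 2 ^ 3 by norm_num, Real.log_pow]
    norm_num
  have hl2 := Real.log_two_lt_d9
  rw [← hH] at a2 a3
  rw [← hH'] at b2 b3
  have hn : (0 : ℝ) ≤ n := Nat.cast_nonneg n
  have h9 : (n + 1) * (Real.log M + 6) ≤ (n + 1) * (H / 100) := by
    apply mul_le_mul_of_nonneg_left _ (by linarith)
    rw [← hH] at h
    linarith
  nlinarith

theorem gap {q A B : ℕ} {ρ : ℤ} {u v u' v' : ℕ} (hq : IsPrimePow q) (hq3 : 3 ≤ q)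
    (S : Sol q A B ρ u v) (S' : Sol q A B ρ u' v') (h : Lg q A ρ u) (h' : Lg q A ρ u')
    {H H' : ℝ} (hH : H = Real.log (A * (u : ℝ) ^ q)) (hH' : H' = Real.log (A * (u' : ℝ) ^ q))
    (hHH : H ≤ H') (hne : u ≠ u') : 19 / 10 * H ≤ H' ∧ H' ≤ 6 * H := by
  obtain ⟨a1, a2, a3, a4, a5⟩ := h.facts hq hq3 S
  have hH0 : 0 < H := by
    unfold Lg at h
    rw [← hH] at h
    linarith
  have hu0 : (0 : ℤ) < u := by exact_mod_cast S.u0
  have hv0 : (0 : ℤ) < v := by exact_mod_cast S.v0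
  have hu0' : (0 : ℤ) < u' := by exact_mod_cast S'.u0
  have hv0' : (0 : ℤ) < v' := by exact_mod_cast S'.v0
  constructor
  · have hE0 : EE q 0 A ρ u v u' v' ≠ 0 := by
      unfold EE
      rw [G.pf_zero, G.pf_zero, mul_one, mul_one]
      intro h1
      apply hne
      have h2 : (u : ℤ) * v' = u' * v := by linarith
      -- the two solutions are proportional
      have h3 : (u : ℤ) ^ q * ρ = (u' : ℤ) ^ q * ρ := by
        have e1 := S.eq
        have e2 := S'.eq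
        have e3 : (u : ℤ) ^ q * (v' : ℤ) ^ q = (u' : ℤ) ^ q * (v : ℤ) ^ q := by
          rw [← mul_pow, ← mul_pow, h2]
        calc (u : ℤ) ^ q * ρ = (u : ℤ) ^ q * (A * (u' : ℤ) ^ q - B * (v' : ℤ) ^ q) := by rw [e2]
          _ = A * (u' : ℤ) ^ q * (u : ℤ) ^ q - B * ((u : ℤ) ^ q * (v' : ℤ) ^ q) := by ring
          _ = (u' : ℤ) ^ q * (A * (u : ℤ) ^ q - B * (v : ℤ) ^ q) := by rw [e3]; ring
          _ = _ := by rw [e1]
      have h4 : (u : ℤ) ^ q = (u' : ℤ) ^ q := mul_right_cancel₀ S.ρ0 h3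
      have h5 : (u : ℤ) = u' := (pow_left_inj₀ hu0.le hu0'.le hq.ne_zero).1 h4
      exact_mod_cast h5
    have h1 := star hq hq3 S S' h h' hH hH' hE0
    simp only [Nat.cast_zero, zero_add, zero_mul, one_mul, sub_zero] at h1
    rw [min_eq_left hHH] at h1
    linarith
  · by_contra hcon
    rw [not_le] at hcon
    -- two consecutive forms vanish
    obtain ⟨n0, hn1, hn2⟩ : ∃ n0 : ℕ, H' ≤ (297 / 100 * n0 + 197 / 100 - 1 / 10) * H ∧
        (1515 / 1000 * n0 + 204 / 100) * H < H' := by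
      refine ⟨⌈(H' / H - 187 / 100) / (297 / 100)⌉₊, ?_, ?_⟩
      · have h1 := Nat.le_ceil ((H' / H - 187 / 100) / (297 / 100))
        rw [div_le_iff₀ (by norm_num)] at h1
        have h2 : H' / H ≤ 297 / 100 * (⌈(H' / H - 187 / 100) / (297 / 100)⌉₊ : ℝ) + 197 / 100 - 1 / 10 := by
          linarith
        exact (div_le_iff₀ hH0).mp h2
      · have h3 : 6 < H' / H := by rw [lt_div_iff₀ hH0]; exact hcon
        have h1 := Nat.ceil_lt_add_one (a := (H' / H - 187 / 100) / (297 / 100)) (by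
          apply div_nonneg _ (by norm_num)
          linarith)
        have h2 : (⌈(H' / H - 187 / 100) / (297 / 100)⌉₊ : ℝ) * (297 / 100) < (H' / H - 187 / 100) + 297 / 100 := by
          calc (⌈(H' / H - 187 / 100) / (297 / 100)⌉₊ : ℝ) * (297 / 100)
              < ((H' / H - 187 / 100) / (297 / 100) + 1) * (297 / 100) :=
                mul_lt_mul_of_pos_right h1 (by norm_num)
            _ = _ := by field_simp
        have h4 : 1515 / 1000 * (⌈(H' / H - 187 / 100) / (297 / 100)⌉₊ : ℝ) + 204 / 100 < H' / H := by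
          linarith
        exact (lt_div_iff₀ hH0).mp h4
    obtain ⟨n, hn3, hn4, hE⟩ : ∃ n : ℕ, n0 ≤ n ∧ n ≤ n0 + 1 ∧ EE q n A ρ u v u' v' ≠ 0 := by
      by_contra hcon
      push Not at hcon
      have e0 := hcon n0 le_rfl (by omega)
      have e1 := hcon (n0 + 1) (by omega) le_rfl
      unfold EE at e0 e1
      apply P5.pf_ne (q := q) (n := n0) (X := A * (u : ℤ) ^ q) (T := ρ) hq S.ρ0
      set P0 := pf q n0 1 (A * (u : ℤ) ^ q) ρ
      set Q0 := pf q n0 (-1) (A * (u : ℤ) ^ q) ρ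
      set P1 := pf q (n0 + 1) 1 (A * (u : ℤ) ^ q) ρ
      set Q1 := pf q (n0 + 1) (-1) (A * (u : ℤ) ^ q) ρ
      have hA : (u * v' : ℤ) ≠ 0 := mul_ne_zero hu0.ne' hv0'.ne'
      have hB : (u' * v : ℤ) ≠ 0 := mul_ne_zero hu0'.ne' hv0.ne'
      have a0 : (u * v' : ℤ) * P0 = (u' * v : ℤ) * Q0 := by linarith
      have a1 : (u * v' : ℤ) * P1 = (u' * v : ℤ) * Q1 := by linarith
      apply mul_left_cancel₀ (mul_ne_zero hA hB)
      calc (u * v' : ℤ) * (u' * v : ℤ) * (P0 * Q1) =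
          ((u * v' : ℤ) * P0) * ((u' * v : ℤ) * Q1) := by ring
        _ = ((u' * v : ℤ) * Q0) * ((u * v' : ℤ) * P1) := by rw [a0, a1]
        _ = (u * v' : ℤ) * (u' * v : ℤ) * (P1 * Q0) := by ring
    have h1 := star hq hq3 S S' h h' hH hH' hE
    have hn3' : (n0 : ℝ) ≤ n := by exact_mod_cast hn3
    have hn4' : (n : ℝ) ≤ n0 + 1 := by exact_mod_cast hn4
    have hn0 : (0 : ℝ) ≤ n0 := Nat.cast_nonneg n0
    rcases min_le_iff.1 h1 with h2 | h2
    · have h3 : (297 / 100 * (n0 : ℝ) + 197 / 100 - 1 / 10) * H ≤ (297 / 100 * (n : ℝ) + 197 / 100 - 1 / 10) * H :=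
        mul_le_mul_of_nonneg_right (by linarith) hH0.le
      nlinarith
    · have h3 : (1515 / 1000 * (n : ℝ) + 525 / 1000) * H ≤ (1515 / 1000 * (n0 : ℝ) + 204 / 100) * H :=
        mul_le_mul_of_nonneg_right (by linarith) hH0.le
      nlinarith

/-- at most three large solutions -/
theorem card_large {q A B : ℕ} {ρ : ℤ} (hq : IsPrimePow q) (hq3 : 3 ≤ q) (s : Finset ℕ)
    (hs : ∀ u ∈ s, ∃ v, Sol q A B ρ u v ∧ Lg q A ρ u) : s.card ≤ 3 := by
  by_contra hcon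
  rw [not_le] at hcon
  obtain ⟨t, hts, ht⟩ := Finset.exists_subset_card_eq (show 4 ≤ s.card by omega)
  obtain ⟨e, he⟩ : ∃ e : Fin 4 ↪o ℕ, ∀ i, e i ∈ t := ⟨t.orderEmbOfFin ht, fun i => t.orderEmbOfFin_mem ht i⟩
  have hlt : ∀ i j : Fin 4, i < j → e i < e j := fun i j hij => e.strictMono hij
  have key : ∀ i j : Fin 4, i < j → 19 / 10 * Real.log (A * (e i : ℝ) ^ q) ≤ Real.log (A * (e j : ℝ) ^ q) ∧
      Real.log (A * (e j : ℝ) ^ q) ≤ 6 * Real.log (A * (e i : ℝ) ^ q) ∧ 0 < Real.log (A * (e i : ℝ) ^ q) := by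
    intro i j hij
    obtain ⟨v, S, h⟩ := hs _ (hts (he i))
    obtain ⟨v', S', h'⟩ := hs _ (hts (he j))
    have hA : (1 : ℝ) ≤ A := by exact_mod_cast S.A0
    have hu : (1 : ℝ) ≤ e i := by exact_mod_cast S.u0
    have hle : Real.log (A * (e i : ℝ) ^ q) ≤ Real.log (A * (e j : ℝ) ^ q) := by
      apply Real.log_le_log (by positivity)
      apply mul_le_mul_of_nonneg_left _ (by linarith)
      apply pow_le_pow_left₀ (by linarith)
      exact_mod_cast (hlt i j hij).le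
    obtain ⟨h1, h2⟩ := gap hq hq3 S S' h h' rfl rfl hle (hlt i j hij).ne
    refine ⟨h1, h2, ?_⟩
    obtain ⟨-, -, -, h4, -⟩ := h.facts hq hq3 S
    unfold Lg at h
    linarith
  have k1 := key 0 1 (by decide)
  have k2 := key 1 2 (by decide)
  have k3 := key 2 3 (by decide)
  have k4 := key 0 3 (by decide)
  linarith [k1.1, k2.1, k3.1, k4.2.1, k1.2.2]

end Pool.Agent.H49SE
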