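import Mathlib

/-!
The decomposition of the linear factors of a value `F (Z) = a D y ^ q`.
-/

set_option autoImplicit false

open Polynomial

namespace Pool.Agent.H49SE

/-- a number whose valuations are `q w + s` with `p ^ s` dividing `E` is `a y ^ q` with `a` a divisor
of `E` -/
theorem exists_fac {W q E : ℕ} (hW : W ≠ 0)
    (h : ∀ p : ℕ, p.Prime → ∃ w s : ℕ, W.factorization p = q * w + s ∧ p ^ s ∣ E) :
    ∃ a y : ℕ, W = a * y ^ q ∧ a ∣ E := by
  classical
  choose! w s h1 h2 using h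
  refine ⟨∏ p ∈ W.primeFactors, p ^ s p, ∏ p ∈ W.primeFactors, p ^ w p, ?_, ?_⟩
  · rw [← Finset.prod_pow, ← Finset.prod_mul_distrib]
    conv_lhs => rw [← Nat.prod_factorization_pow_eq_self hW]
    rw [Finsupp.prod, Nat.support_factorization]
    refine Finset.prod_congr rfl fun p hp => ?_
    rw [h1 p (Nat.prime_of_mem_primeFactors hp), pow_add, mul_comm, ← pow_mul, mul_comm (w p) q]
  · have h3 : ((∏ p ∈ W.primeFactors, p ^ s p : ℕ) : ℤ) ∣ (E : ℤ) := by
      push_cast
      apply Finset.prod_dvd_of_coprime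
      · intro p hp p' hp' hne
        show IsCoprime ((p : ℤ) ^ s p) ((p' : ℤ) ^ s p')
        apply IsCoprime.pow
        rw [Nat.isCoprime_iff_coprime]
        exact (Nat.coprime_primes (Nat.prime_of_mem_primeFactors hp)
          (Nat.prime_of_mem_primeFactors hp')).2 hne
      · intro p hp
        exact_mod_cast h2 p (Nat.prime_of_mem_primeFactors hp)
    exact_mod_cast h3

variable {n : ℕ}

/-- the setting: `F (Z) = ∏ (Z - e i) G (Z)` -/
structure Dat (n : ℕ) where
  e : Fin n → ℤ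
  G : ℤ[X]
  a : ℕ
  he : Function.Injective e
  hG : ∀ i, G.eval (e i) ≠ 0
  ha : 0 < a

namespace Dat

variable (S : Dat n)

/-- the value -/
def F (Z : ℤ) : ℤ := (∏ i, (Z - S.e i)) * S.G.eval Z

/-- the bad number -/
def B : ℕ := S.a * (∏ i, ∏ j, if i = j then 1 else (S.e i - S.e j).natAbs) * ∏ i, (S.G.eval (S.e i)).natAbs

theorem B_pos : 0 < S.B := by
  unfold B
  refine Nat.mul_pos (Nat.mul_pos S.ha ?_) ?_
  · refine Finset.prod_pos fun i _ => Finset.prod_pos fun j _ => ?_
    split_ifs with h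
    · exact one_pos
    · exact Int.natAbs_pos.2 (sub_ne_zero.2 fun h1 => h (S.he h1))
  · exact Finset.prod_pos fun i _ => Int.natAbs_pos.2 (S.hG i)

theorem a_dvd : S.a ∣ S.B := by
  unfold B
  rw [mul_assoc]
  exact Dvd.intro _ rfl

theorem e_dvd {i j : Fin n} (h : i ≠ j) : (S.e i - S.e j).natAbs ∣ S.B := by
  unfold B
  refine Dvd.dvd.mul_right (Dvd.dvd.mul_left ?_ _) _
  refine Dvd.dvd.trans ?_ (Finset.dvd_prod_of_mem _ (Finset.mem_univ i))
  refine Dvd.dvd.trans ?_ (Finset.dvd_prod_of_mem _ (Finset.mem_univ j))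
  rw [if_neg h]

theorem G_dvd (i : Fin n) : (S.G.eval (S.e i)).natAbs ∣ S.B := by
  unfold B
  exact Dvd.dvd.mul_left (Finset.dvd_prod_of_mem (fun i => (S.G.eval (S.e i)).natAbs) (Finset.mem_univ i)) _

/-- the part of `D` at `i` -/
def d (Z D : ℤ) (i : Fin n) : ℕ :=
  ∏ p ∈ D.natAbs.primeFactors.filter (fun p => S.B.factorization p < (Z - S.e i).natAbs.factorization p),
    p ^ D.natAbs.factorization p

/-- a large valuation at `i` -/
theorem big {Z : ℤ} {i : Fin n} {p : ℕ} (hp : p.Prime)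
    (h : S.B.factorization p < (Z - S.e i).natAbs.factorization p) :
    ((p ^ (S.B.factorization p + 1) : ℕ) : ℤ) ∣ Z - S.e i := by
  have h0 : (Z - S.e i).natAbs ≠ 0 := by
    intro h0
    rw [h0, Nat.factorization_zero] at h
    simp at h
  rw [Int.natCast_dvd]
  exact (hp.pow_dvd_iff_le_factorization h0).2 h

theorem not_dvd_B {p : ℕ} (hp : p.Prime) : ¬ p ^ (S.B.factorization p + 1) ∣ S.B := by
  intro h
  have := (hp.pow_dvd_iff_le_factorization S.B_pos.ne').1 h
  omega

theorem small_e {Z : ℤ} {i j : Fin n} (hij : i ≠ j) {p : ℕ} (hp : p.Prime)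
    (h : S.B.factorization p < (Z - S.e i).natAbs.factorization p) :
    (Z - S.e j).natAbs.factorization p ≤ S.B.factorization p := by
  by_contra hcon
  rw [not_le] at hcon
  have h1 := S.big hp h
  have h2 := S.big hp hcon
  have h3 : ((p ^ (S.B.factorization p + 1) : ℕ) : ℤ) ∣ S.e i - S.e j := by
    have := dvd_sub h2 h1
    rwa [sub_sub_sub_cancel_left] at this
  rw [Int.natCast_dvd] at h3
  exact S.not_dvd_B hp (h3.trans (S.e_dvd hij))

theorem small_G {Z : ℤ} {i : Fin n} {p : ℕ} (hp : p.Prime)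
    (h : S.B.factorization p < (Z - S.e i).natAbs.factorization p) :
    (S.G.eval Z).natAbs.factorization p ≤ S.B.factorization p := by
  by_contra hcon
  rw [not_le] at hcon
  have h0 : (S.G.eval Z).natAbs ≠ 0 := by
    intro h0
    rw [h0, Nat.factorization_zero] at hcon
    simp at hcon
  have h1 := S.big hp h
  have h2 : ((p ^ (S.B.factorization p + 1) : ℕ) : ℤ) ∣ S.G.eval Z := by
    rw [Int.natCast_dvd]
    exact (hp.pow_dvd_iff_le_factorization h0).2 hcon
  have h3 : Z - S.e i ∣ S.G.eval Z - S.G.eval (S.e i) := sub_dvd_eval_sub _ _ _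
  have h4 : ((p ^ (S.B.factorization p + 1) : ℕ) : ℤ) ∣ S.G.eval (S.e i) := by
    have := dvd_sub h2 (h1.trans h3)
    rwa [sub_sub_cancel] at this
  rw [Int.natCast_dvd] at h4
  exact S.not_dvd_B hp (h4.trans (S.G_dvd i))

theorem d_dvd (Z D : ℤ) (hD : D ≠ 0) (i : Fin n) : S.d Z D i ∣ D.natAbs := by
  conv_rhs => rw [← Nat.prod_factorization_pow_eq_self (Int.natAbs_ne_zero.2 hD)]
  exact Finset.prod_dvd_prod_of_subset _ _ _ (Finset.filter_subset _ _)

theorem d_pos (Z D : ℤ) (i : Fin n) : 0 < S.d Z D i :=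
  Finset.prod_pos fun p hp => pow_pos (Nat.prime_of_mem_primeFactors (Finset.mem_filter.1 hp).1).pos _

theorem prod_d (Z D : ℤ) (hD : D ≠ 0) : ∏ i, S.d Z D i ≤ D.natAbs := by
  classical
  apply Nat.le_of_dvd (Int.natAbs_pos.2 hD)
  have h1 : ∏ i, S.d Z D i = ∏ p ∈ Finset.univ.biUnion (fun i : Fin n => D.natAbs.primeFactors.filter
      (fun p => S.B.factorization p < (Z - S.e i).natAbs.factorization p)),
        p ^ D.natAbs.factorization p := by
    rw [Finset.prod_biUnion]
    · rfl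
    · intro i _ j _ hij
      show Disjoint _ _
      rw [Finset.disjoint_left]
      intro p hp hp'
      obtain ⟨h1, h2⟩ := Finset.mem_filter.1 hp
      obtain ⟨h3, h4⟩ := Finset.mem_filter.1 hp'
      have := S.small_e hij (Nat.prime_of_mem_primeFactors h1) h2
      omega
  rw [h1]
  conv_rhs => rw [← Nat.prod_factorization_pow_eq_self (Int.natAbs_ne_zero.2 hD)]
  refine Finset.prod_dvd_prod_of_subset _ _ _ ?_
  intro p hp
  obtain ⟨i, -, hi⟩ := Finset.mem_biUnion.1 hp
  rw [Nat.support_factorization]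
  exact (Finset.mem_filter.1 hi).1

/-- the local statement -/
theorem loc {Z D y : ℤ} {q : ℕ} (hF : S.F Z ≠ 0) (heq : (S.a : ℤ) * D * y ^ q = S.F Z) (i : Fin n)
    {p : ℕ} (hp : p.Prime) : ∃ w s : ℕ,
      (S.B ^ n * (Z - S.e i).natAbs).factorization p = q * w + s ∧ p ^ s ∣ S.B ^ (2 * n) * S.d Z D i := by
  classical
  have hn : 0 < n := Fin.pos i
  have hB := S.B_pos
  have hprod : ∏ j, (Z - S.e j) ≠ 0 := fun h => hF (by unfold F; rw [h, zero_mul])
  have hG0 : S.G.eval Z ≠ 0 := fun h => hF (by unfold F; rw [h, mul_zero])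
  have hW : ∀ j, (Z - S.e j).natAbs ≠ 0 := fun j => Int.natAbs_ne_zero.2 (Finset.prod_ne_zero_iff.1 hprod j (Finset.mem_univ j))
  have hD0 : D ≠ 0 := by
    rintro rfl
    rw [mul_zero, zero_mul] at heq
    exact hF heq.symm
  have hy0 : y ^ q ≠ 0 := by
    intro h
    rw [h, mul_zero] at heq
    exact hF heq.symm
  obtain ⟨β, hβ⟩ : ∃ β, β = S.B.factorization p := ⟨_, rfl⟩
  have h1 : (S.B ^ n * (Z - S.e i).natAbs).factorization p = n * β + (Z - S.e i).natAbs.factorization p := by
    rw [Nat.factorization_mul (pow_ne_zero _ hB.ne') (hW i), Nat.factorization_pow, hβ]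
    rfl
  have hEB : (S.B ^ (2 * n)).factorization p = 2 * n * β := by
    rw [Nat.factorization_pow, hβ]
    rfl
  rw [h1]
  by_cases hv : S.B.factorization p < (Z - S.e i).natAbs.factorization p
  · -- the valuations of both sides
    have h2 : S.a * D.natAbs * (y ^ q).natAbs = (∏ j, (Z - S.e j).natAbs) * (S.G.eval Z).natAbs := by
      have := congrArg Int.natAbs heq
      unfold F at this
      rw [Int.natAbs_mul, Int.natAbs_mul, Int.natAbs_mul, Int.natAbs_natCast] at this
      rw [this]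
      congr 1
      exact map_prod Int.natAbsHom _ _
    have h3 : (S.a * D.natAbs * (y ^ q).natAbs).factorization p =
        ((∏ j, (Z - S.e j).natAbs) * (S.G.eval Z).natAbs).factorization p := by rw [h2]
    rw [Nat.factorization_mul (Nat.mul_ne_zero S.ha.ne' (Int.natAbs_ne_zero.2 hD0)) (Int.natAbs_ne_zero.2 hy0),
      Nat.factorization_mul S.ha.ne' (Int.natAbs_ne_zero.2 hD0),
      Nat.factorization_mul (Finset.prod_ne_zero_iff.2 fun j _ => hW j) (Int.natAbs_ne_zero.2 hG0),
      Nat.factorization_prod fun j _ => hW j, Int.natAbs_pow, Nat.factorization_pow] at h3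
    simp only [Finsupp.add_apply, Finsupp.smul_apply, smul_eq_mul, Finsupp.coe_finsetSum, Finset.sum_apply] at h3
    rw [← Finset.add_sum_erase Finset.univ _ (Finset.mem_univ i)] at h3
    have h4 : ∑ j ∈ Finset.univ.erase i, (Z - S.e j).natAbs.factorization p ≤ (n - 1) * β := by
      refine (Finset.sum_le_card_nsmul _ _ β fun j hj => ?_).trans (le_of_eq ?_)
      · rw [hβ]
        exact S.small_e (Finset.ne_of_mem_erase hj).symm hp hv
      · rw [Finset.card_erase_of_mem (Finset.mem_univ i), Finset.card_univ, Fintype.card_fin, smul_eq_mul]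
    have h5 : (S.G.eval Z).natAbs.factorization p ≤ β := by rw [hβ]; exact S.small_G hp hv
    have h6 : S.a.factorization p ≤ β := by
      rw [hβ]
      exact (Nat.factorization_le_iff_dvd S.ha.ne' hB.ne').2 S.a_dvd p
    obtain ⟨τ, hτ⟩ : ∃ τ, τ = ∑ j ∈ Finset.univ.erase i, (Z - S.e j).natAbs.factorization p +
      (S.G.eval Z).natAbs.factorization p := ⟨_, rfl⟩
    have h7 : (n - 1) * β + β = n * β := by
      obtain ⟨k, rfl⟩ := Nat.exists_eq_succ_of_ne_zero hn.ne'
      simp only [Nat.succ_eq_add_one, Nat.add_sub_cancel]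
      ring
    have h8 : τ ≤ n * β := by omega
    refine ⟨y.natAbs.factorization p, D.natAbs.factorization p + (n * β + S.a.factorization p - τ), by omega, ?_⟩
    rw [pow_add, mul_comm]
    refine mul_dvd_mul ?_ ?_
    · refine (hp.pow_dvd_iff_le_factorization (pow_ne_zero _ hB.ne')).2 ?_
      rw [hEB]
      have : β ≤ n * β := Nat.le_mul_of_pos_left _ hn
      have e : 2 * n * β = n * β + n * β := by ring
      omega
    · by_cases hpD : p ∈ D.natAbs.primeFactors
      · exact Finset.dvd_prod_of_mem (fun p => p ^ D.natAbs.factorization p) (Finset.mem_filter.2 ⟨hpD, hv⟩)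
      · rw [← Nat.support_factorization, Finsupp.notMem_support_iff] at hpD
        rw [hpD, pow_zero]
        exact one_dvd _
  · rw [not_lt, ← hβ] at hv
    refine ⟨0, n * β + (Z - S.e i).natAbs.factorization p, by omega, ?_⟩
    refine Dvd.dvd.mul_right ?_ _
    refine (hp.pow_dvd_iff_le_factorization (pow_ne_zero _ hB.ne')).2 ?_
    rw [hEB]
    have : β ≤ n * β := Nat.le_mul_of_pos_left _ hn
    have e : 2 * n * β = n * β + n * β := by ring
    omega

/-- the decomposition -/
theorem fac {Z D y : ℤ} {q : ℕ} (hF : S.F Z ≠ 0) (heq : (S.a : ℤ) * D * y ^ q = S.F Z) (i : Fin n) :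
    ∃ a' y' : ℕ, S.B ^ n * (Z - S.e i).natAbs = a' * y' ^ q ∧ a' ∣ S.B ^ (2 * n) * S.d Z D i := by
  have hprod : ∏ j, (Z - S.e j) ≠ 0 := fun h => hF (by unfold F; rw [h, zero_mul])
  have hW : (Z - S.e i).natAbs ≠ 0 := Int.natAbs_ne_zero.2 (Finset.prod_ne_zero_iff.1 hprod i (Finset.mem_univ i))
  exact exists_fac (Nat.mul_ne_zero (pow_ne_zero _ S.B_pos.ne') hW) fun p hp => S.loc hF heq i hp

end Dat

end Pool.Agent.H49SE
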