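import Mathlib
import Pool.Agent.H374R2.T.TaskP1
import Pool.Agent.H374R2.V.P2
import Pool.Agent.H374R2.V.P5

/-!
The real estimate for the diagonal Padé approximations of `(1 - z) ^ (1 / q)`.
-/

set_option autoImplicit false

namespace Pool.Agent.H49SE

open Finset
open Pool.Agent.H374R2.T (cf pf)
open Pool.Agent.H374R2.V

theorem choose_abs_le {t : ℝ} (h0 : 0 ≤ t) (h1 : t ≤ 1) (k : ℕ) : |Ring.choose t k| ≤ 1 := by
  have h2 := P2.fact_choose t k
  have hk : (0 : ℝ) < k.factorial := by exact_mod_cast Nat.factorial_pos k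
  have h3 : ∀ k : ℕ, |∏ j ∈ range k, (t - j)| ≤ k.factorial := by
    intro k
    induction k with
    | zero => simp
    | succ k ih =>
      rw [prod_range_succ, abs_mul, Nat.factorial_succ]
      push_cast
      rw [mul_comm ((k : ℝ) + 1)]
      refine mul_le_mul ih ?_ (abs_nonneg _) (by positivity)
      rw [abs_le]
      constructor <;> linarith [Nat.cast_nonneg (α := ℝ) k]
  have h4 : |(k.factorial : ℝ) * Ring.choose t k| ≤ k.factorial := by rw [h2]; exact h3 k
  rw [abs_mul, abs_of_pos hk] at h4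
  exact le_of_mul_le_mul_left (by linarith) hk

theorem hasSum_root {t z : ℝ} (hz : |z| < 1) :
    HasSum (fun k : ℕ => Ring.choose t k * (-z) ^ k) ((1 - z) ^ t) := by
  have h := (Real.one_add_rpow_hasFPowerSeriesOnBall_zero (a := t)).hasSum (y := -z) (by
    rw [Metric.mem_eball, edist_dist, dist_zero_right, norm_neg, Real.norm_eq_abs]
    exact ENNReal.ofReal_lt_one.2 hz)
  rw [zero_add, ← sub_eq_add_neg] at h
  have e : (fun k : ℕ => Ring.choose t k * (-z) ^ k) = fun k => (binomialSeries ℝ t k) fun _ => -z := by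
    funext k
    show _ = (FormalMultilinearSeries.ofScalars ℝ (Ring.choose t ·)) k (fun _ => -z)
    rw [FormalMultilinearSeries.ofScalars_apply_eq, smul_eq_mul]
  rw [e]
  exact h

/-- the tail of the binomial series -/
theorem tail_le {t z : ℝ} (h0 : 0 ≤ t) (h1 : t ≤ 1) (hz : |z| ≤ 1 / 2) (M : ℕ) :
    |(1 - z) ^ t - ∑ k ∈ range M, Ring.choose t k * (-z) ^ k| ≤ 2 * |z| ^ M := by
  have hs := hasSum_root (t := t) (z := z) (by linarith)
  have hs2 := (hasSum_nat_add_iff' M).2 hs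
  rw [← hs2.tsum_eq]
  have hg : HasSum (fun k : ℕ => |z| ^ M * |z| ^ k) (|z| ^ M * (1 - |z|)⁻¹) :=
    (hasSum_geometric_of_lt_one (abs_nonneg z) (by linarith)).mul_left _
  have h2 := tsum_of_norm_bounded (f := fun k : ℕ => Ring.choose t (k + M) * (-z) ^ (k + M)) hg
    (fun k => by
      rw [Real.norm_eq_abs, abs_mul, abs_pow, abs_neg, pow_add, mul_comm (|z| ^ k)]
      have := choose_abs_le h0 h1 (k + M)
      calc |Ring.choose t (k + M)| * (|z| ^ M * |z| ^ k) ≤ 1 * (|z| ^ M * |z| ^ k) :=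
            mul_le_mul_of_nonneg_right this (by positivity)
        _ = _ := one_mul _)
  rw [Real.norm_eq_abs] at h2
  refine h2.trans ?_
  rw [mul_comm]
  refine mul_le_mul_of_nonneg_right ?_ (by positivity)
  rw [inv_le_comm₀ (by linarith) (by norm_num)]
  linarith

/-- `cf` over the reals -/
theorem cf_castR {q n k : ℕ} {s : ℤ} (hq : IsPrimePow q) (hk : k ≤ n) :
    ((cf q n s k : ℤ) : ℝ) = (q : ℝ) ^ (2 * n) * Ring.choose ((n : ℝ) + s / q) k := by
  have hq0 : (q : ℝ) ≠ 0 := by exact_mod_cast hq.ne_zero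
  have hk0 : (k.factorial : ℝ) ≠ 0 := by exact_mod_cast Nat.factorial_ne_zero k
  apply mul_left_cancel₀ hk0
  have h1 := P2.fact_mul_cf (s := s) hq hk
  have h2 : (k.factorial : ℝ) * ((cf q n s k : ℤ) : ℝ) =
      (q : ℝ) ^ (2 * n - k) * ∏ j ∈ range k, ((q : ℝ) * n + s - j * q) := by
    exact_mod_cast congrArg (fun z : ℤ => (z : ℝ)) h1
  rw [h2]
  have h3 := P2.fact_choose ((n : ℝ) + s / q) k
  have e : (k.factorial : ℝ) * ((q : ℝ) ^ (2 * n) * Ring.choose ((n : ℝ) + s / q) k) =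
      (q : ℝ) ^ (2 * n) * ((k.factorial : ℝ) * Ring.choose ((n : ℝ) + s / q) k) := by ring
  rw [e, h3]
  have h4 : 2 * n = (2 * n - k) + k := by omega
  have h5 : (q : ℝ) ^ (2 * n) = (q : ℝ) ^ (2 * n - k) * (q : ℝ) ^ k := by
    rw [← pow_add, ← h4]
  rw [h5, mul_assoc]
  congr 1
  have h6 : (q : ℝ) ^ k = ∏ j ∈ range k, (q : ℝ) := by simp
  rw [h6, ← prod_mul_distrib]
  refine prod_congr rfl fun j _ => ?_
  field_simp

/-- the size of the remainder of the Padé approximation -/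
theorem pade_real {q n : ℕ} (hq : IsPrimePow q) {z : ℝ} (hz : |z| ≤ 1 / 2) :
    |∑ k ∈ range (n + 1), (cf q n 1 k : ℝ) * (Nat.choose (2 * n - k) n : ℝ) * (-z) ^ k -
      (1 - z) ^ ((1 : ℝ) / q) *
        ∑ k ∈ range (n + 1), (cf q n (-1) k : ℝ) * (Nat.choose (2 * n - k) n : ℝ) * (-z) ^ k| ≤
      4 * (8 * (q : ℝ) ^ 2) ^ n * |z| ^ (2 * n + 1) := by
  have hq1 : (1 : ℝ) ≤ q := by exact_mod_cast hq.pos
  obtain ⟨t, ht⟩ : ∃ t : ℝ, t = 1 / q := ⟨_, rfl⟩
  have ht0 : 0 ≤ t := by rw [ht]; positivity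
  have ht1 : t ≤ 1 := by rw [ht, div_le_one (by linarith)]; exact hq1
  rw [← ht]
  set b : ℕ → ℝ := fun a => (q : ℝ) ^ (2 * n) * Ring.choose ((n : ℝ) - t) a *
    (Nat.choose (2 * n - a) n : ℝ) with hb
  have hbz : ∀ a, n < a → a < 2 * n + 1 → b a = 0 := by
    intro a ha ha2
    simp only [hb]
    rw [Nat.choose_eq_zero_of_lt (by omega)]
    simp
  have hsub : range (n + 1) ⊆ range (2 * n + 1) := by
    intro a ha; rw [mem_range] at ha ⊢; omega
  have hQ : ∑ k ∈ range (n + 1), (cf q n (-1) k : ℝ) * (Nat.choose (2 * n - k) n : ℝ) * (-z) ^ k =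
      ∑ a ∈ range (2 * n + 1), b a * (-z) ^ a := by
    rw [← sum_subset hsub]
    · refine sum_congr rfl fun k hk => ?_
      rw [mem_range] at hk
      rw [cf_castR hq (by omega)]
      simp only [hb]
      have : (n : ℝ) + ((-1 : ℤ) : ℝ) / q = n - t := by rw [ht]; push_cast; ring
      rw [this]
    · intro a ha ha2
      rw [mem_range] at ha ha2
      rw [hbz a (by omega) ha, zero_mul]
  have hP : ∑ k ∈ range (n + 1), (cf q n 1 k : ℝ) * (Nat.choose (2 * n - k) n : ℝ) * (-z) ^ k =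
      ∑ m ∈ range (2 * n + 1), ∑ a ∈ range (m + 1), (b a * Ring.choose t (m - a)) * (-z) ^ m := by
    have h1 : ∀ m ∈ range (2 * n + 1), ∑ a ∈ range (m + 1), (b a * Ring.choose t (m - a)) * (-z) ^ m =
        (q : ℝ) ^ (2 * n) * (Ring.choose ((n : ℝ) + t) m * (Nat.choose (2 * n - m) n : ℝ)) * (-z) ^ m := by
      intro m hm
      rw [mem_range] at hm
      rw [← Pool.Agent.H374R2.T.TaskP1.pade_coeff n m (by omega) t, mul_sum, sum_mul]
      refine sum_congr rfl fun a _ => ?_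
      simp only [hb]
      ring
    rw [sum_congr rfl h1, ← sum_subset hsub]
    · refine sum_congr rfl fun k hk => ?_
      rw [mem_range] at hk
      rw [cf_castR hq (by omega)]
      have : (n : ℝ) + ((1 : ℤ) : ℝ) / q = n + t := by rw [ht]; push_cast; ring
      rw [this]
      ring
    · intro a ha ha2
      rw [mem_range] at ha ha2
      rw [Nat.choose_eq_zero_of_lt (by omega)]
      simp
  rw [hQ, hP, mul_sum]
  have hdiag := sum_range_diag_flip (2 * n + 1) (fun a k => (b a * Ring.choose t k) * (-z) ^ (a + k))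
  have h2 : ∑ m ∈ range (2 * n + 1), ∑ a ∈ range (m + 1), (b a * Ring.choose t (m - a)) * (-z) ^ m =
      ∑ m ∈ range (2 * n + 1), ∑ k ∈ range (2 * n + 1 - m), (b m * Ring.choose t k) * (-z) ^ (m + k) := by
    rw [← hdiag]
    refine sum_congr rfl fun m _ => sum_congr rfl fun a ha => ?_
    rw [mem_range] at ha
    rw [show a + (m - a) = m by omega]
  rw [h2, ← sum_sub_distrib]
  have h3 : ∀ a ∈ range (2 * n + 1), |∑ k ∈ range (2 * n + 1 - a), (b a * Ring.choose t k) * (-z) ^ (a + k) -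
      (1 - z) ^ t * (b a * (-z) ^ a)| ≤ |b a| * (2 * |z| ^ (2 * n + 1)) := by
    intro a ha
    rw [mem_range] at ha
    have e1 : ∑ k ∈ range (2 * n + 1 - a), (b a * Ring.choose t k) * (-z) ^ (a + k) -
        (1 - z) ^ t * (b a * (-z) ^ a) = -(b a * (-z) ^ a) *
          ((1 - z) ^ t - ∑ k ∈ range (2 * n + 1 - a), Ring.choose t k * (-z) ^ k) := by
      rw [mul_sub, mul_sum, sub_eq_add_neg, add_comm, sub_eq_add_neg]
      congr 1
      · ring
      · rw [← sum_neg_distrib]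
        refine sum_congr rfl fun k _ => ?_
        rw [pow_add]
        ring
    rw [e1, abs_mul, abs_neg, abs_mul, abs_pow, abs_neg, mul_assoc]
    refine mul_le_mul_of_nonneg_left ?_ (abs_nonneg _)
    have h4 := tail_le ht0 ht1 hz (2 * n + 1 - a)
    calc |z| ^ a * |(1 - z) ^ t - ∑ k ∈ range (2 * n + 1 - a), Ring.choose t k * (-z) ^ k|
        ≤ |z| ^ a * (2 * |z| ^ (2 * n + 1 - a)) := mul_le_mul_of_nonneg_left h4 (by positivity)
      _ = 2 * |z| ^ (2 * n + 1) := by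
          rw [mul_left_comm, ← pow_add, show a + (2 * n + 1 - a) = 2 * n + 1 by omega]
  refine (abs_sum_le_sum_abs _ _).trans ((sum_le_sum h3).trans ?_)
  rw [← sum_mul]
  have h5 : ∑ a ∈ range (2 * n + 1), |b a| ≤ 2 * (8 * (q : ℝ) ^ 2) ^ n := by
    have h6 : ∑ a ∈ range (2 * n + 1), |b a| = ∑ a ∈ range (n + 1), |b a| := by
      rw [← sum_subset hsub]
      intro a ha ha2
      rw [mem_range] at ha ha2
      rw [hbz a (by omega) ha, abs_zero]
    rw [h6]
    have h7 : ∀ a ∈ range (n + 1), |b a| ≤ ((q : ℝ) ^ (2 * n) * 4 ^ n) * (Nat.choose (n + 1) a : ℝ) := by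
      intro a ha
      rw [mem_range] at ha
      have h8 : (q : ℝ) ^ (2 * n) * Ring.choose ((n : ℝ) - t) a = ((cf q n (-1) a : ℤ) : ℝ) := by
        rw [cf_castR hq (by omega)]
        have : (n : ℝ) + ((-1 : ℤ) : ℝ) / q = n - t := by rw [ht]; push_cast; ring
        rw [this]
      obtain ⟨h9, h10⟩ := P2.cf_bound (n := n) (k := a) hq (Or.inr rfl : (-1 : ℤ) = 1 ∨ (-1 : ℤ) = -1) (by omega)
      have h9' : (0 : ℝ) ≤ ((cf q n (-1) a : ℤ) : ℝ) := by exact_mod_cast h9
      have h10' : ((cf q n (-1) a : ℤ) : ℝ) ≤ (q : ℝ) ^ (2 * n) * (Nat.choose (n + 1) a : ℝ) := by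
        exact_mod_cast h10
      have h11 : (Nat.choose (2 * n - a) n : ℝ) ≤ 4 ^ n := by
        have h12 : Nat.choose (2 * n - a) n ≤ 4 ^ n := by
          calc Nat.choose (2 * n - a) n ≤ Nat.choose (2 * n) n :=
                Nat.choose_le_choose n (Nat.sub_le _ _)
            _ ≤ 2 ^ (2 * n) := Nat.choose_le_two_pow _ _
            _ = 4 ^ n := by rw [pow_mul]; norm_num
        exact_mod_cast h12
      simp only [hb]
      rw [h8, abs_mul, abs_of_nonneg h9', Nat.abs_cast]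
      calc ((cf q n (-1) a : ℤ) : ℝ) * (Nat.choose (2 * n - a) n : ℝ)
          ≤ ((q : ℝ) ^ (2 * n) * (Nat.choose (n + 1) a : ℝ)) * 4 ^ n :=
            mul_le_mul h10' h11 (by positivity) (by positivity)
        _ = _ := by ring
    refine (sum_le_sum h7).trans ?_
    rw [← mul_sum]
    have h8 : ∑ a ∈ range (n + 1), (Nat.choose (n + 1) a : ℝ) ≤ 2 * 2 ^ n := by
      have h9 : ∑ a ∈ range (n + 1 + 1), Nat.choose (n + 1) a = 2 ^ (n + 1) := Nat.sum_range_choose (n + 1)
      rw [sum_range_succ] at h9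
      have h10 : ∑ a ∈ range (n + 1), Nat.choose (n + 1) a ≤ 2 * 2 ^ n := by
        rw [pow_succ] at h9
        omega
      exact_mod_cast h10
    calc ((q : ℝ) ^ (2 * n) * 4 ^ n) * ∑ a ∈ range (n + 1), (Nat.choose (n + 1) a : ℝ)
        ≤ ((q : ℝ) ^ (2 * n) * 4 ^ n) * (2 * 2 ^ n) := mul_le_mul_of_nonneg_left h8 (by positivity)
      _ = 2 * (8 * (q : ℝ) ^ 2) ^ n := by
          rw [mul_pow, ← pow_mul, show (8 : ℝ) = 4 * 2 by norm_num, mul_pow]
          ring
  calc (∑ a ∈ range (2 * n + 1), |b a|) * (2 * |z| ^ (2 * n + 1))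
      ≤ (2 * (8 * (q : ℝ) ^ 2) ^ n) * (2 * |z| ^ (2 * n + 1)) :=
        mul_le_mul_of_nonneg_right h5 (by positivity)
    _ = _ := by ring

end Pool.Agent.H49SE
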