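import Pool.Agent.H49SE.Cnt

/-!
The number of the pairs `(Z, q)` for which `F (Z) = a D y ^ q` with `|D| ≤ N`.
-/

set_option autoImplicit false

open Polynomial

namespace Pool.Agent.H49SE

namespace Dat

variable {n : ℕ} (S : Dat n)

/-- constants -/
noncomputable def R : ℝ := (S.B : ℝ) ^ (n + 1)

noncomputable def C1 : ℝ := (S.B : ℝ) ^ (2 * n)

noncomputable def C2 : ℝ := (4 * S.R + 4 + 170000000) ^ 2 * (3 + Real.log S.C1) ^ 2

theorem B_one : (1 : ℝ) ≤ S.B := by exact_mod_cast S.B_pos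

theorem R_one : 1 ≤ S.R := one_le_pow₀ S.B_one

theorem C1_one : 1 ≤ S.C1 := one_le_pow₀ S.B_one

theorem C2_one : 1 ≤ S.C2 := by
  have h1 := S.R_one
  have h2 := Real.log_nonneg S.C1_one
  unfold C2
  exact one_le_mul_of_one_le_of_one_le (one_le_pow₀ (by linarith)) (one_le_pow₀ (by linarith))

/-- the threshold -/
noncomputable def thr (P l : ℝ) : ℝ :=
  S.C1 * P * (8 * (S.C2 * l ^ 2) ^ 2 * S.R ^ 2) ^ 100 * Real.exp 600

theorem thr_facts {P l : ℝ} (hP : 1 ≤ P) (hl : 1 ≤ l) : S.C1 * P ≤ S.thr P l ∧ 2 * S.R ≤ S.thr P l ∧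
    100 * (Real.log (8 * (S.C2 * l ^ 2) ^ 2 * S.R ^ 2) + 6) ≤ Real.log (S.thr P l) := by
  have h1 := S.R_one
  have h2 := S.C1_one
  have h3 := S.C2_one
  have h4 : 1 ≤ S.C2 * l ^ 2 := one_le_mul_of_one_le_of_one_le h3 (one_le_pow₀ hl)
  have h5 : 1 ≤ (S.C2 * l ^ 2) ^ 2 := one_le_pow₀ h4
  have h6 : 1 ≤ S.R ^ 2 := one_le_pow₀ h1
  obtain ⟨w, hw⟩ : ∃ w, w = 8 * (S.C2 * l ^ 2) ^ 2 * S.R ^ 2 := ⟨_, rfl⟩
  have hw1 : 8 * S.R ^ 2 ≤ w := by
    rw [hw]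
    have : 8 ≤ 8 * (S.C2 * l ^ 2) ^ 2 := by linarith
    exact mul_le_mul_of_nonneg_right this (by linarith)
  have hw2 : 1 ≤ w := by linarith
  have hw3 : w ≤ w ^ 100 := le_self_pow₀ hw2 (by norm_num)
  have hw4 : 1 ≤ w ^ 100 := one_le_pow₀ hw2
  have he : 1 ≤ Real.exp 600 := Real.one_le_exp (by norm_num)
  have hCP : 1 ≤ S.C1 * P := one_le_mul_of_one_le_of_one_le h2 hP
  unfold thr
  rw [← hw]
  refine ⟨?_, ?_, ?_⟩
  · rw [mul_assoc]
    exact le_mul_of_one_le_right (by linarith) (one_le_mul_of_one_le_of_one_le hw4 he)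
  · have h7 : 2 * S.R ≤ w := by nlinarith
    calc 2 * S.R ≤ w ^ 100 := h7.trans hw3
      _ ≤ S.C1 * P * w ^ 100 := le_mul_of_one_le_left (by linarith) hCP
      _ ≤ _ := le_mul_of_one_le_right (by positivity) he
  · rw [Real.log_mul (by positivity) (by positivity), Real.log_mul (by positivity) (by positivity),
      Real.log_pow, Real.log_exp]
    have h7 := Real.log_nonneg hCP
    push_cast
    linarith

/-- the data of a large point -/
theorem large {N : ℕ} (hN : 1 ≤ N) (hn : 3 ≤ n) {Z D y : ℤ} {q : ℕ} (hq3 : 3 ≤ q)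
    (hF : S.F Z ≠ 0) (heq : (S.a : ℤ) * D * y ^ q = S.F Z) (hD : D.natAbs ≤ N)
    {P l : ℝ} (hP : P = (N : ℝ) ^ ((2 : ℝ) / n)) (hl : l = 1 + Real.log N)
    (hW : ∀ i, S.thr P l < (Z - S.e i).natAbs) (σ : Bool)
    (hσ : ∀ i, if σ then S.e i < Z else Z < S.e i) :
    (q : ℝ) ≤ S.C2 * l ^ 2 ∧ ∃ (i j : Fin n) (a a' u v : ℕ), i ≠ j ∧ 0 < a ∧ 0 < a' ∧
      ((a * a' : ℕ) : ℝ) ≤ S.C1 ^ 2 * P ∧ 0 < u ∧ 0 < v ∧ S.Rel i j σ q a a' Z u v ∧
      Lg q a (S.rho i j σ) u := by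
  have hNr : (1 : ℝ) ≤ N := by exact_mod_cast hN
  have hlN := Real.log_nonneg hNr
  have hl1 : 1 ≤ l := by rw [hl]; linarith
  have hnr : (3 : ℝ) ≤ n := by exact_mod_cast hn
  have hP1 : 1 ≤ P := by rw [hP]; exact Real.one_le_rpow hNr (by positivity)
  have hR := S.R_one
  have hC1 := S.C1_one
  have hC2 := S.C2_one
  have hlC := Real.log_nonneg hC1
  have hD0 : D ≠ 0 := by
    rintro rfl
    rw [mul_zero, zero_mul] at heq
    exact hF heq.symm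
  obtain ⟨t1, t2, t3⟩ := S.thr_facts hP1 hl1
  choose a y hfac hdvd using fun i => S.fac hF heq i
  have hBn : 1 ≤ S.B ^ n := Nat.one_le_pow _ _ S.B_pos
  have hdpos := fun i => S.d_pos Z D i
  have hle : ∀ i, (a i : ℝ) ≤ S.C1 * S.d Z D i := by
    intro i
    have h1 := Nat.le_of_dvd (Nat.mul_pos (pow_pos S.B_pos _) (hdpos i)) (hdvd i)
    unfold C1
    exact_mod_cast h1
  have hprod : ∏ i, S.d Z D i ≤ N := (S.prod_d Z D hD0).trans hD
  obtain ⟨i, j, hij, hsm⟩ := two_small (by omega) (fun i => S.d Z D i) hdpos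
  have hdd : ((S.d Z D i * S.d Z D j : ℕ) : ℝ) ≤ P := by
    have h1 : (S.d Z D i * S.d Z D j) ^ n ≤ N ^ 2 := hsm.trans (Nat.pow_le_pow_left hprod 2)
    have h2 : ((S.d Z D i * S.d Z D j : ℕ) : ℝ) ^ n ≤ (N : ℝ) ^ 2 := by exact_mod_cast h1
    have h3 : P ^ n = (N : ℝ) ^ 2 := by
      rw [hP, ← Real.rpow_natCast, ← Real.rpow_mul (by linarith), div_mul_cancel₀ _ (by linarith)]
      norm_num
    rw [← h3] at h2
    exact (pow_le_pow_iff_left₀ (Nat.cast_nonneg _) (by linarith) (by omega)).1 h2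
  have hdi1 : (1 : ℝ) ≤ S.d Z D i := by exact_mod_cast hdpos i
  have hdj1 : (1 : ℝ) ≤ S.d Z D j := by exact_mod_cast hdpos j
  push_cast at hdd
  have hdi : (S.d Z D i : ℝ) ≤ P := (le_mul_of_one_le_right (by linarith) hdj1).trans hdd
  have hdj : (S.d Z D j : ℝ) ≤ P := (le_mul_of_one_le_left (by linarith) hdi1).trans hdd
  have hai : ∀ i, (S.d Z D i : ℝ) ≤ P → (a i : ℝ) ≤ S.C1 * P := fun i h =>
    (hle i).trans (mul_le_mul_of_nonneg_left h (by linarith))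
  have hWB : ∀ i, ((Z - S.e i).natAbs : ℝ) ≤ a i * (y i : ℝ) ^ q := by
    intro i
    have h1 : (Z - S.e i).natAbs ≤ a i * y i ^ q := by
      rw [← hfac i]
      exact Nat.le_mul_of_pos_left _ hBn
    exact_mod_cast h1
  have hy2 : ∀ i, (S.d Z D i : ℝ) ≤ P → 2 ≤ y i := by
    intro i h
    by_contra hcon
    rw [not_le] at hcon
    have h1 : (y i : ℝ) ^ q ≤ 1 := by
      apply pow_le_one₀ (Nat.cast_nonneg _)
      exact_mod_cast (by omega : y i ≤ 1)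
    have h2 : (a i : ℝ) * (y i : ℝ) ^ q ≤ a i := mul_le_of_le_one_right (Nat.cast_nonneg _) h1
    linarith [hWB i, hW i, hai i h]
  have hapos : ∀ i, 0 < a i := by
    intro i
    rcases Nat.eq_zero_or_pos (a i) with h | h
    · have h1 := hWB i
      rw [h, Nat.cast_zero, zero_mul] at h1
      have h2 := hW i
      linarith
    · exact h
  have hrel : S.Rel i j σ q (a i) (a j) Z (y i) (y j) := by
    refine ⟨hfac i, hfac j, ?_⟩
    have h1 := hσ i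
    have h2 := hσ j
    cases σ
    · simp only [Bool.false_eq_true, if_false] at h1 h2 ⊢
      exact ⟨h1, h2⟩
    · simp only [if_true] at h1 h2 ⊢
      exact ⟨h1, h2⟩
  have hyi := hy2 i hdi
  have hyj := hy2 j hdj
  have hsol := hrel.sol S hij (by omega) (by omega)
  have hρ := S.rho_le hij σ
  have hρ' : |(S.rho i j σ : ℝ)| ≤ S.R := hρ
  have h2ρ : 2 * |(S.rho i j σ : ℝ)| ≤ a i * (y i : ℝ) ^ q := by
    linarith [hWB i, hW i]
  -- the exponent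
  obtain ⟨Zl, hZl⟩ : ∃ Zl : ℕ, Zl = ⌈Real.log S.C1 + l⌉₊ := ⟨_, rfl⟩
  have hZl0 : Real.log S.C1 + l ≤ Zl := by rw [hZl]; exact Nat.le_ceil _
  have hZl1 : 1 ≤ Zl := by
    have : (0 : ℝ) < Zl := by linarith
    exact_mod_cast this
  have hZl2 : (Zl : ℝ) ≤ (3 + Real.log S.C1) * l := by
    have := Nat.ceil_lt_add_one (show 0 ≤ Real.log S.C1 + l by linarith)
    rw [← hZl] at this
    nlinarith
  have hlog : ∀ i, (S.d Z D i : ℝ) ≤ P → Real.log (a i) ≤ Zl := by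
    intro i h
    have h1 : (0 : ℝ) < a i := by exact_mod_cast hapos i
    have h2 := Real.log_le_log h1 (hai i h)
    rw [Real.log_mul (by linarith) (by linarith), hP, Real.log_rpow (by linarith)] at h2
    have h3 : 2 / (n : ℝ) * Real.log N ≤ 1 * Real.log N :=
      mul_le_mul_of_nonneg_right (by rw [div_le_one (by linarith)]; linarith) hlN
    linarith
  have hqb := exp_bound hsol hq3 hyi hyj hZl1 (hlog i hdi) (hlog j hdj) h2ρ
  have hqC : (q : ℝ) ≤ S.C2 * l ^ 2 := by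
    refine hqb.trans ?_
    unfold C2
    calc (4 * |(S.rho i j σ : ℝ)| + 4 + 170000000) ^ 2 * (Zl : ℝ) ^ 2
        ≤ (4 * S.R + 4 + 170000000) ^ 2 * ((3 + Real.log S.C1) * l) ^ 2 := by
          gcongr
      _ = _ := by ring
  refine ⟨hqC, i, j, a i, a j, y i, y j, hij, hapos i, hapos j, ?_, by omega, by omega, hrel, ?_⟩
  · push_cast
    calc (a i : ℝ) * a j ≤ (S.C1 * S.d Z D i) * (S.C1 * S.d Z D j) :=
          mul_le_mul (hle i) (hle j) (Nat.cast_nonneg _) (by positivity)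
      _ = S.C1 ^ 2 * (S.d Z D i * S.d Z D j) := by ring
      _ ≤ _ := mul_le_mul_of_nonneg_left hdd (by positivity)
  · unfold Lg
    have hq0 : (0 : ℝ) < q := by exact_mod_cast (by omega : 0 < q)
    have hρ0 : 0 < |(S.rho i j σ : ℝ)| := abs_pos.2 (by exact_mod_cast S.rho_ne hij σ)
    have hρ2 : (S.rho i j σ : ℝ) ^ 2 ≤ S.R ^ 2 := by
      rw [← sq_abs]
      exact pow_le_pow_left₀ hρ0.le hρ' 2
    have hρ3 : 0 < (S.rho i j σ : ℝ) ^ 2 := by rw [← sq_abs]; positivity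
    have h1 : Real.log (8 * (q : ℝ) ^ 2 * (S.rho i j σ : ℝ) ^ 2) ≤
        Real.log (8 * (S.C2 * l ^ 2) ^ 2 * S.R ^ 2) := by
      apply Real.log_le_log (by positivity)
      have h2 : (q : ℝ) ^ 2 ≤ (S.C2 * l ^ 2) ^ 2 := pow_le_pow_left₀ hq0.le hqC 2
      exact mul_le_mul (mul_le_mul_of_nonneg_left h2 (by norm_num)) hρ2 hρ3.le (by positivity)
    have h3 : Real.log (S.thr P l) ≤ Real.log (a i * (y i : ℝ) ^ q) := by
      apply Real.log_le_log
      · linarith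
      · linarith [hWB i, hW i]
    linarith

/-- the number of the pairs -/
theorem pairs (hn : 3 ≤ n) : ∃ C : ℝ, 0 < C ∧ ∀ N : ℕ, 1 ≤ N → ∀ T : Finset (ℤ × ℕ),
    (∀ p ∈ T, IsPrimePow p.2 ∧ 3 ≤ p.2 ∧ S.F p.1 ≠ 0 ∧ (p.2 : ℝ) ≤ S.C2 * (1 + Real.log N) ^ 2 ∧
      ∃ D y : ℤ, (S.a : ℤ) * D * y ^ p.2 = S.F p.1 ∧ D.natAbs ≤ N) →
    (T.card : ℝ) ≤ C * (N : ℝ) ^ ((2 : ℝ) / n) * (1 + Real.log N) ^ 402 := by
  classical
  have hR := S.R_one
  have hC1 := S.C1_one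
  have hC2 := S.C2_one
  have hlC := Real.log_nonneg hC1
  obtain ⟨E, hE⟩ : ∃ E : ℕ, E = ∑ i, (S.e i).natAbs := ⟨_, rfl⟩
  have hEi : ∀ i, (S.e i).natAbs ≤ E := fun i => by
    rw [hE]
    exact Finset.single_le_sum (f := fun i => (S.e i).natAbs) (fun _ _ => Nat.zero_le _) (Finset.mem_univ i)
  obtain ⟨K, hK⟩ : ∃ K : ℝ, K = S.C1 * (8 * S.C2 ^ 2 * S.R ^ 2) ^ 100 * Real.exp 600 := ⟨_, rfl⟩
  have hK0 : 0 < K := by rw [hK]; positivity
  refine ⟨(2 * K + 2 * E + 3) * (S.C2 + 1) + 6 * (n : ℝ) ^ 2 * (S.C2 + 1) * (S.C1 ^ 2 * (2 + 2 * Real.log S.C1)),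
    by positivity, fun N hN T hT => ?_⟩
  have hNr : (1 : ℝ) ≤ N := by exact_mod_cast hN
  have hlN := Real.log_nonneg hNr
  have hnr : (3 : ℝ) ≤ n := by exact_mod_cast hn
  obtain ⟨P, hP⟩ : ∃ P : ℝ, P = (N : ℝ) ^ ((2 : ℝ) / n) := ⟨_, rfl⟩
  obtain ⟨l, hl⟩ : ∃ l : ℝ, l = 1 + Real.log N := ⟨_, rfl⟩
  have hl1 : 1 ≤ l := by rw [hl]; linarith
  have hP1 : 1 ≤ P := by rw [hP]; exact Real.one_le_rpow hNr (by positivity)
  rw [← hP, ← hl]
  rw [← hl] at hT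
  have hthr : S.thr P l = K * P * l ^ 400 := by
    unfold thr
    rw [hK]
    have : (8 * (S.C2 * l ^ 2) ^ 2 * S.R ^ 2) ^ 100 = (8 * S.C2 ^ 2 * S.R ^ 2) ^ 100 * l ^ 400 := by
      rw [show 8 * (S.C2 * l ^ 2) ^ 2 * S.R ^ 2 = (8 * S.C2 ^ 2 * S.R ^ 2) * l ^ 4 by ring, mul_pow,
        ← pow_mul]
    rw [this]
    ring
  obtain ⟨Q, hQ⟩ : ∃ Q : ℕ, Q = ⌊S.C2 * l ^ 2⌋₊ := ⟨_, rfl⟩
  have hQ1 : (Q : ℝ) ≤ S.C2 * l ^ 2 := by rw [hQ]; exact Nat.floor_le (by positivity)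
  have hQ2 : ∀ q : ℕ, (q : ℝ) ≤ S.C2 * l ^ 2 → q ∈ Finset.range (Q + 1) := fun q h => by
    rw [Finset.mem_range, Nat.lt_succ_iff, hQ]
    exact Nat.le_floor h
  obtain ⟨Z₀, hZ₀⟩ : ∃ Z₀ : ℕ, Z₀ = ⌊S.thr P l⌋₊ + E := ⟨_, rfl⟩
  have hthr0 : 0 ≤ S.thr P l := by rw [hthr]; positivity
  have hZ₀1 : (Z₀ : ℝ) ≤ S.thr P l + E := by
    rw [hZ₀]
    push_cast
    have := Nat.floor_le hthr0
    linarith
  -- the small points
  let Ts := T.filter fun p => p.1.natAbs ≤ Z₀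
  let Tl := T.filter fun p => ¬ p.1.natAbs ≤ Z₀
  have hTs : (Ts.card : ℝ) ≤ (2 * Z₀ + 1) * (Q + 1) := by
    have hsub : Ts ⊆ (Finset.Icc (-(Z₀ : ℤ)) Z₀) ×ˢ (Finset.range (Q + 1)) := by
      intro p hp
      obtain ⟨h1, h2⟩ := Finset.mem_filter.1 hp
      rw [Finset.mem_product, Finset.mem_Icc]
      refine ⟨by omega, hQ2 _ (hT p h1).2.2.2.1⟩
    have h1 := Finset.card_le_card hsub
    rw [Finset.card_product, Int.card_Icc, Finset.card_range] at h1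
    have h2 : ((Z₀ : ℤ) + 1 - -(Z₀ : ℤ)).toNat = 2 * Z₀ + 1 := by omega
    rw [h2] at h1
    exact_mod_cast h1
  -- the large points
  obtain ⟨X, hX⟩ : ∃ X : ℕ, X = ⌊S.C1 ^ 2 * P⌋₊ := ⟨_, rfl⟩
  have hX1 : (X : ℝ) ≤ S.C1 ^ 2 * P := by rw [hX]; exact Nat.floor_le (by positivity)
  have hX0 : 1 ≤ X := by
    rw [hX]
    apply Nat.le_floor
    push_cast
    exact one_le_mul_of_one_le_of_one_le (one_le_pow₀ hC1) hP1
  let I : Finset ((Fin n × Fin n × Bool) × ℕ × (ℕ × ℕ)) :=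
    Finset.univ ×ˢ (Finset.range (Q + 1) ×ˢ prs X)
  let pc : (Fin n × Fin n × Bool) × ℕ × (ℕ × ℕ) → Finset (ℤ × ℕ) := fun t =>
    Tl.filter fun p => p.2 = t.2.1 ∧ t.1.1 ≠ t.1.2.1 ∧ ∃ u v, 0 < u ∧ 0 < v ∧
      S.Rel t.1.1 t.1.2.1 t.1.2.2 t.2.1 t.2.2.1 t.2.2.2 p.1 u v ∧
      Lg t.2.1 t.2.2.1 (S.rho t.1.1 t.1.2.1 t.1.2.2) u
  have hpc : ∀ t, (pc t).card ≤ 3 := by
    intro t
    rcases (pc t).eq_empty_or_nonempty with h | ⟨p, hp⟩
    · rw [h]; simp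
    · obtain ⟨hp1, hp2, hp3, -⟩ := Finset.mem_filter.1 hp
      have hpT := hT p (Finset.mem_filter.1 hp1).1
      rw [hp2] at hpT
      have hinj : Set.InjOn Prod.fst (pc t : Set (ℤ × ℕ)) := by
        intro a ha b hb hab
        have h1 := (Finset.mem_filter.1 ha).2.1
        have h2 := (Finset.mem_filter.1 hb).2.1
        exact Prod.ext hab (h1.trans h2.symm)
      rw [← Finset.card_image_of_injOn hinj]
      refine S.card_three hp3 t.1.2.2 hpT.1 hpT.2.1 t.2.2.1 t.2.2.2 _ fun Z hZ => ?_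
      obtain ⟨b, hb, rfl⟩ := Finset.mem_image.1 hZ
      exact (Finset.mem_filter.1 hb).2.2.2
  have hcov : Tl ⊆ I.biUnion pc := by
    intro p hp
    obtain ⟨hp1, hp2⟩ := Finset.mem_filter.1 hp
    obtain ⟨hq, hq3, hF, hqC, D, y, heq, hD⟩ := hT p hp1
    rw [not_le] at hp2
    have hW : ∀ i, S.thr P l < (p.1 - S.e i).natAbs := by
      intro i
      have h1 : ⌊S.thr P l⌋₊ + 1 ≤ (p.1 - S.e i).natAbs := by
        have := hEi i
        omega
      have h2 := Nat.lt_floor_add_one (S.thr P l)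
      refine lt_of_lt_of_le h2 ?_
      exact_mod_cast h1
    obtain ⟨σ, hσ⟩ : ∃ σ : Bool, ∀ i, if σ then S.e i < p.1 else p.1 < S.e i := by
      rcases le_or_gt 0 p.1 with h | h
      · refine ⟨true, fun i => ?_⟩
        simp only [if_true]
        have := hEi i
        omega
      · refine ⟨false, fun i => ?_⟩
        simp only [Bool.false_eq_true, if_false]
        have := hEi i
        omega
    obtain ⟨-, i, j, a, a', u, v, hij, ha, ha', haa, hu, hv, hrel, hLg⟩ :=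
      S.large hN hn hq3 hF heq hD hP hl hW σ hσ
    rw [Finset.mem_biUnion]
    refine ⟨((i, j, σ), p.2, (a, a')), ?_, ?_⟩
    · rw [Finset.mem_product, Finset.mem_product]
      refine ⟨Finset.mem_univ _, hQ2 _ hqC, mem_prs ha ha' ?_⟩
      rw [hX]
      exact Nat.le_floor haa
    · exact Finset.mem_filter.2 ⟨hp, rfl, hij, u, v, hu, hv, hrel, hLg⟩
  have hTl : (Tl.card : ℝ) ≤ 3 * ((n : ℝ) * (n * 2) * ((Q + 1) * (X * (1 + Real.log X)))) := by
    have h1 : Tl.card ≤ I.card * 3 := by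
      refine (Finset.card_le_card hcov).trans ?_
      exact Finset.card_biUnion_le_card_mul _ _ _ fun t _ => hpc t
    have h2 : I.card = n * (n * 2) * ((Q + 1) * (prs X).card) := by
      simp only [I, Finset.card_product, Finset.card_univ, Fintype.card_prod, Fintype.card_fin,
        Fintype.card_bool, Finset.card_range]
    have h3 : (Tl.card : ℝ) ≤ (n * (n * 2) * ((Q + 1) * ((prs X).card : ℝ))) * 3 := by
      rw [h2] at h1
      exact_mod_cast h1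
    refine h3.trans ?_
    rw [mul_comm]
    refine mul_le_mul_of_nonneg_left ?_ (by norm_num)
    refine mul_le_mul_of_nonneg_left ?_ (by positivity)
    exact mul_le_mul_of_nonneg_left (prs_card X) (by positivity)
  have hsum : (T.card : ℝ) = Ts.card + Tl.card := by
    have := Finset.card_filter_add_card_filter_not (s := T) (fun p : ℤ × ℕ => p.1.natAbs ≤ Z₀)
    exact_mod_cast this.symm
  -- arithmetic
  have hl2 : 1 ≤ l ^ 2 := one_le_pow₀ hl1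
  have hQl : (Q : ℝ) + 1 ≤ (S.C2 + 1) * l ^ 2 := by nlinarith
  have hl400 : 1 ≤ l ^ 400 := one_le_pow₀ hl1
  have hPl : 1 ≤ P * l ^ 400 := one_le_mul_of_one_le_of_one_le hP1 hl400
  have hA1 : (2 * (Z₀ : ℝ) + 1) ≤ (2 * K + 2 * E + 3) * (P * l ^ 400) := by
    rw [hthr] at hZ₀1
    have hE0 : (0 : ℝ) ≤ E := Nat.cast_nonneg E
    nlinarith
  have hA2 : (Ts.card : ℝ) ≤ ((2 * K + 2 * E + 3) * (S.C2 + 1)) * P * l ^ 402 := by
    calc (Ts.card : ℝ) ≤ (2 * Z₀ + 1) * (Q + 1) := hTs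
      _ ≤ ((2 * K + 2 * E + 3) * (P * l ^ 400)) * ((S.C2 + 1) * l ^ 2) :=
          mul_le_mul hA1 hQl (by positivity) (by positivity)
      _ = _ := by ring
  have hlogX : 1 + Real.log X ≤ (2 + 2 * Real.log S.C1) * l := by
    have h1 : (0 : ℝ) < X := by exact_mod_cast hX0
    have h2 := Real.log_le_log h1 hX1
    rw [Real.log_mul (by positivity) (by positivity), Real.log_pow, hP, Real.log_rpow (by linarith)] at h2
    have h3 : 2 / (n : ℝ) * Real.log N ≤ 1 * Real.log N :=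
      mul_le_mul_of_nonneg_right (by rw [div_le_one (by linarith)]; linarith) hlN
    push_cast at h2
    nlinarith
  have hlogX0 : 0 ≤ 1 + Real.log X := by
    have : 0 ≤ Real.log X := Real.log_nonneg (by exact_mod_cast hX0)
    linarith
  have hA3 : (Tl.card : ℝ) ≤ (6 * (n : ℝ) ^ 2 * (S.C2 + 1) * (S.C1 ^ 2 * (2 + 2 * Real.log S.C1))) * P * l ^ 402 := by
    calc (Tl.card : ℝ) ≤ 3 * ((n : ℝ) * (n * 2) * ((Q + 1) * (X * (1 + Real.log X)))) := hTl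
      _ ≤ 3 * ((n : ℝ) * (n * 2) * (((S.C2 + 1) * l ^ 2) * ((S.C1 ^ 2 * P) * ((2 + 2 * Real.log S.C1) * l)))) := by
          refine mul_le_mul_of_nonneg_left ?_ (by norm_num)
          refine mul_le_mul_of_nonneg_left ?_ (by positivity)
          refine mul_le_mul hQl ?_ (by positivity) (by positivity)
          exact mul_le_mul hX1 hlogX hlogX0 (by positivity)
      _ = (6 * (n : ℝ) ^ 2 * (S.C2 + 1) * (S.C1 ^ 2 * (2 + 2 * Real.log S.C1))) * P * l ^ 3 := by ring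
      _ ≤ _ := mul_le_mul_of_nonneg_left (pow_le_pow_right₀ hl1 (by norm_num)) (by positivity)
  rw [hsum]
  calc (Ts.card : ℝ) + Tl.card ≤ ((2 * K + 2 * E + 3) * (S.C2 + 1)) * P * l ^ 402 +
        (6 * (n : ℝ) ^ 2 * (S.C2 + 1) * (S.C1 ^ 2 * (2 + 2 * Real.log S.C1))) * P * l ^ 402 := add_le_add hA2 hA3
    _ = _ := by ring

end Dat

end Pool.Agent.H49SE
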