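import Mathlib

/-!
The number of solutions of `a u ^ 2 - a' v ^ 2 = ρ` with `U ≤ u < 2 U` is bounded in terms of `ρ`.
-/

set_option autoImplicit false

namespace Pool.Agent.H49SE

open Finset

theorem delta_le {a a' u v u1 v1 : ℕ} {ρ : ℤ} (ha : 0 < a) (ha' : 0 < a')
    (h : (a : ℤ) * u ^ 2 - a' * v ^ 2 = ρ) (h1 : (a : ℤ) * u1 ^ 2 - a' * v1 ^ 2 = ρ)
    (hb : 2 * |ρ| ≤ a * (u : ℤ) ^ 2) (hb1 : 2 * |ρ| ≤ a * (u1 : ℤ) ^ 2) (hu1 : 0 < u1)
    (hle : u1 ≤ u) (hlt : u < 2 * u1) : |(u1 : ℤ) * v - u * v1| ≤ 4 * |ρ| := by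
  have e1 : ((u1 : ℤ) * v - u * v1) * (a' * (u1 * v + u * v1)) = ρ * ((u : ℤ) ^ 2 - u1 ^ 2) := by
    linear_combination (-(u1 : ℤ) ^ 2) * h + ((u : ℤ) ^ 2) * h1
  have hA : (1 : ℤ) ≤ a := by exact_mod_cast ha
  have hA' : (1 : ℤ) ≤ a' := by exact_mod_cast ha'
  have hu1z : (1 : ℤ) ≤ u1 := by exact_mod_cast hu1
  have hlez : (u1 : ℤ) ≤ u := by exact_mod_cast hle
  have hltz : (u : ℤ) ≤ 2 * u1 := by exact_mod_cast hlt.le
  have key : ∀ (w x : ℕ), (u1 : ℤ) ≤ w → (a : ℤ) * w ^ 2 - a' * x ^ 2 = ρ → 2 * |ρ| ≤ a * (w : ℤ) ^ 2 →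
      (u1 : ℤ) ≤ 2 * (a' * x) := by
    intro w x hw hwx hbw
    have h2 : (a : ℤ) * w ^ 2 ≤ 2 * (a' * x ^ 2) := by
      have := le_abs_self ρ
      linarith
    have h3 : (u1 : ℤ) ^ 2 ≤ (2 * (a' * x)) ^ 2 := by
      have h4 : (u1 : ℤ) ^ 2 ≤ (w : ℤ) ^ 2 := pow_le_pow_left₀ (by linarith) hw 2
      have h5 : (w : ℤ) ^ 2 ≤ a * (w : ℤ) ^ 2 := le_mul_of_one_le_left (by positivity) hA
      have h6 : 2 * ((a' : ℤ) * x ^ 2) ≤ (2 * (a' * x)) ^ 2 := by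
        have h7 : (a' : ℤ) * x ^ 2 ≤ a' * (a' * x ^ 2) := le_mul_of_one_le_left (by positivity) hA'
        nlinarith [sq_nonneg ((a' : ℤ) * x)]
      linarith
    exact (pow_le_pow_iff_left₀ (by linarith) (by positivity) two_ne_zero).1 h3
  have k1 := key u v hlez h hb
  have k2 := key u1 v1 le_rfl h1 hb1
  have h2 : (u1 : ℤ) ^ 2 ≤ a' * (u1 * v + u * v1) := by
    have h3 : (u1 : ℤ) * u1 ≤ u1 * (2 * (a' * v)) := mul_le_mul_of_nonneg_left k1 (by linarith)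
    have h4 : (u1 : ℤ) * u1 ≤ u1 * (2 * (a' * v1)) := mul_le_mul_of_nonneg_left k2 (by linarith)
    have h5 : (u1 : ℤ) * (a' * v1) ≤ u * (a' * v1) := mul_le_mul_of_nonneg_right hlez (by positivity)
    nlinarith
  have h3 : |(u : ℤ) ^ 2 - u1 ^ 2| ≤ 4 * (u1 : ℤ) ^ 2 := by
    rw [abs_of_nonneg (by nlinarith)]
    nlinarith
  have h4 : |(u1 : ℤ) * v - u * v1| * (u1 : ℤ) ^ 2 ≤ (4 * |ρ|) * (u1 : ℤ) ^ 2 := by
    calc |(u1 : ℤ) * v - u * v1| * (u1 : ℤ) ^ 2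
        ≤ |(u1 : ℤ) * v - u * v1| * (a' * (u1 * v + u * v1)) := mul_le_mul_of_nonneg_left h2 (abs_nonneg _)
      _ = |ρ| * |(u : ℤ) ^ 2 - u1 ^ 2| := by
          rw [← abs_mul, ← e1, abs_mul, abs_of_nonneg (by positivity : (0 : ℤ) ≤ a' * (u1 * v + u * v1))]
      _ ≤ |ρ| * (4 * (u1 : ℤ) ^ 2) := mul_le_mul_of_nonneg_left h3 (abs_nonneg _)
      _ = _ := by ring
  exact le_of_mul_le_mul_right h4 (by positivity)

/-- one dyadic interval -/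
theorem pell_dyadic {a a' : ℕ} {ρ : ℤ} (ha : 0 < a) (ha' : 0 < a') (hρ : ρ ≠ 0) (U : ℕ) (s : Finset ℕ)
    (hs : ∀ u ∈ s, U ≤ u ∧ u < 2 * U ∧ 2 * |ρ| ≤ a * (u : ℤ) ^ 2 ∧
      ∃ v : ℕ, (a : ℤ) * u ^ 2 - a' * v ^ 2 = ρ) :
    s.card ≤ (8 * ρ.natAbs + 1) * (ρ.natAbs + 1) := by
  classical
  rcases s.eq_empty_or_nonempty with h | hne
  · rw [h]; simp
  choose! v hv using fun u hu => (hs u hu).2.2.2
  obtain ⟨u1, hu1s, hu1⟩ := Finset.exists_min_image s id hne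
  simp only [id] at hu1
  have hs1 := hs u1 hu1s
  have hU : 0 < U := by
    have := hs1.2.1
    have := hs1.1
    omega
  have hu10 : 0 < u1 := lt_of_lt_of_le hU hs1.1
  set g := Nat.gcd u1 (v u1) with hg
  have hg0 : 0 < g := Nat.gcd_pos_of_pos_left _ hu10
  have hgρ : g ≤ ρ.natAbs := by
    have h1 : ((g : ℕ) : ℤ) ∣ ρ := by
      rw [← hv u1 hu1s]
      have h2 : ((g : ℕ) : ℤ) ∣ (u1 : ℤ) := by exact_mod_cast Nat.gcd_dvd_left u1 (v u1)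
      have h3 : ((g : ℕ) : ℤ) ∣ ((v u1 : ℕ) : ℤ) := by exact_mod_cast Nat.gcd_dvd_right u1 (v u1)
      exact dvd_sub (dvd_mul_of_dvd_right (dvd_pow h2 two_ne_zero) _)
        (dvd_mul_of_dvd_right (dvd_pow h3 two_ne_zero) _)
    exact Nat.le_of_dvd (Int.natAbs_pos.2 hρ) (Int.natCast_dvd.1 h1)
  obtain ⟨M, hM⟩ : g ∣ u1 := Nat.gcd_dvd_left _ _
  have hM0 : 0 < M := by
    rcases Nat.eq_zero_or_pos M with h | h
    · rw [h, mul_zero] at hM; omega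
    · exact h
  obtain ⟨M', hM'⟩ : g ∣ v u1 := Nat.gcd_dvd_right _ _
  have hcop : Nat.Coprime M M' := by
    have h1 : Nat.gcd u1 (v u1) = g := rfl
    rw [hM', hM, Nat.gcd_mul_left] at h1
    exact Nat.eq_of_mul_eq_mul_left hg0 (by rw [h1, mul_one])
  -- the map
  let φ : ℕ → ℤ × ℕ := fun u => ((u1 : ℤ) * v u - u * v u1, (u - U) / M)
  have hmap : ∀ u ∈ s, φ u ∈ (Finset.Icc (-(4 * (ρ.natAbs : ℤ))) (4 * (ρ.natAbs : ℤ))) ×ˢ
      Finset.range (ρ.natAbs + 1) := by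
    intro u hu
    have hsu := hs u hu
    have h1 := delta_le ha ha' (hv u hu) (hv u1 hu1s) hsu.2.2.1 hs1.2.2.1 hu10 (hu1 u hu) (by
      have := hs1.1
      omega)
    rw [Finset.mem_product, Finset.mem_Icc, Finset.mem_range]
    constructor
    · rw [Int.abs_eq_natAbs ρ] at h1
      exact abs_le.1 h1
    · show (u - U) / M < ρ.natAbs + 1
      rw [Nat.div_lt_iff_lt_mul hM0]
      have h2 : u - U < U := by
        have := hsu.2.1
        omega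
      have h3 : U ≤ g * M := by rw [← hM]; exact hs1.1
      have h4 : g * M ≤ (ρ.natAbs + 1) * M := Nat.mul_le_mul_right _ (by omega)
      omega
  have hinj : Set.InjOn φ (s : Set ℕ) := by
    intro u hu w hw he
    simp only [φ, Prod.mk.injEq] at he
    obtain ⟨h1, h2⟩ := he
    have h3 : (M : ℤ) ∣ (u : ℤ) - w := by
      have h4 : (u1 : ℤ) * (v u - v w) = (u - w) * v u1 := by linear_combination h1
      rw [hM', hM] at h4
      push_cast at h4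
      have h5 : (M : ℤ) * (v u - v w) = (u - w) * M' := by
        apply mul_left_cancel₀ (show (g : ℤ) ≠ 0 by exact_mod_cast hg0.ne')
        linear_combination h4
      exact (Nat.isCoprime_iff_coprime.2 hcop).dvd_of_dvd_mul_right ⟨_, h5.symm⟩
    have hUu := (hs u hu).1
    have hUw := (hs w hw).1
    have h6 : (u - U) % M = (w - U) % M := by
      have h7 : ((u - U : ℕ) : ℤ) - ((w - U : ℕ) : ℤ) = (u : ℤ) - w := by
        push_cast [Nat.cast_sub hUu, Nat.cast_sub hUw]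
        ring
      have h8 : (w - U) ≡ (u - U) [MOD M] := by
        rw [Nat.modEq_iff_dvd, h7]
        exact h3
      exact h8.symm
    have h9 := Nat.div_add_mod (u - U) M
    have h10 := Nat.div_add_mod (w - U) M
    rw [h2, h6] at h9
    omega
  have h1 := Finset.card_le_card_of_injOn φ hmap hinj
  rw [Finset.card_product, Int.card_Icc, Finset.card_range] at h1
  have h2 : (4 * (ρ.natAbs : ℤ) + 1 - -(4 * (ρ.natAbs : ℤ))).toNat = 8 * ρ.natAbs + 1 := by omega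
  rwa [h2] at h1

/-- all `u < 2 ^ k` -/
theorem pell_count {a a' : ℕ} {ρ : ℤ} (ha : 0 < a) (ha' : 0 < a') (hρ : ρ ≠ 0) (k : ℕ) (s : Finset ℕ)
    (hs : ∀ u ∈ s, 0 < u ∧ u < 2 ^ k ∧ 2 * |ρ| ≤ a * (u : ℤ) ^ 2 ∧
      ∃ v : ℕ, (a : ℤ) * u ^ 2 - a' * v ^ 2 = ρ) :
    s.card ≤ k * ((8 * ρ.natAbs + 1) * (ρ.natAbs + 1)) := by
  classical
  have hsub : s ⊆ (Finset.range k).biUnion fun i => s.filter fun u => 2 ^ i ≤ u ∧ u < 2 * 2 ^ i := by
    intro u hu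
    obtain ⟨h1, h2, -⟩ := hs u hu
    rw [Finset.mem_biUnion]
    refine ⟨Nat.log 2 u, ?_, ?_⟩
    · rw [Finset.mem_range]
      exact Nat.log_lt_of_lt_pow h1.ne' h2
    · rw [Finset.mem_filter]
      refine ⟨hu, Nat.pow_log_le_self 2 h1.ne', ?_⟩
      have := Nat.lt_pow_succ_log_self (b := 2) (by norm_num) u
      rwa [pow_succ, mul_comm] at this
  refine (Finset.card_le_card hsub).trans ((Finset.card_biUnion_le_card_mul _ _
    ((8 * ρ.natAbs + 1) * (ρ.natAbs + 1)) fun i _ => ?_).trans_eq ?_)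
  · refine pell_dyadic ha ha' hρ (2 ^ i) _ fun u hu => ?_
    obtain ⟨hu1, hu2, hu3⟩ := Finset.mem_filter.1 hu
    exact ⟨hu2, hu3, (hs u hu1).2.2.1, (hs u hu1).2.2.2⟩
  · rw [Finset.card_range]

end Pool.Agent.H49SE
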