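import Pool.Agent.H49SE.Cnt
import Pool.Agent.H49SE.Pairs
import Pool.Agent.H49SE.Pell
import Pool.Agent.H49SH.Large

/-!
The number of the `Z` for which `F (Z) = a D y ^ 2` with `|D| ≤ N`.
-/

set_option autoImplicit false

open Polynomial

namespace Pool.Agent.H49SE

lemma natlog_le' (n : ℕ) (hn : 1 ≤ n) : (Nat.log 2 n : ℝ) ≤ 2 * Real.log n := by
  have h1 : (2 : ℝ) ^ (Nat.log 2 n) ≤ n := by
    have := Nat.pow_log_le_self 2 (by omega : n ≠ 0)
    exact_mod_cast this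
  have h2 := Real.log_le_log (by positivity) h1
  rw [Real.log_pow] at h2
  have h3 := Real.log_two_gt_d9
  have h4 : (0 : ℝ) ≤ (Nat.log 2 n : ℝ) := Nat.cast_nonneg _
  nlinarith

/-- the three smallest of `n` numbers -/
theorem three_small {n : ℕ} (hn : 3 ≤ n) (d : Fin n → ℕ) (hd : ∀ i, 0 < d i) :
    ∃ i j k, i ≠ j ∧ i ≠ k ∧ j ≠ k ∧ (d i * d j * d k) ^ n ≤ (∏ l, d l) ^ 3 := by
  classical
  have : Nonempty (Fin n) := ⟨⟨0, by omega⟩⟩
  obtain ⟨i, hi⟩ := Finite.exists_min d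
  have hc1 : (Finset.univ.erase i).card = n - 1 := by
    rw [Finset.card_erase_of_mem (Finset.mem_univ i), Finset.card_univ, Fintype.card_fin]
  have hne : (Finset.univ.erase i).Nonempty := by
    rw [← Finset.card_pos, hc1]
    omega
  obtain ⟨j, hj, hj'⟩ := Finset.exists_min_image (Finset.univ.erase i) d hne
  have hc2 : ((Finset.univ.erase i).erase j).card = n - 2 := by
    rw [Finset.card_erase_of_mem hj, hc1]
    omega
  have hne2 : ((Finset.univ.erase i).erase j).Nonempty := by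
    rw [← Finset.card_pos, hc2]
    omega
  obtain ⟨k, hk, hk'⟩ := Finset.exists_min_image ((Finset.univ.erase i).erase j) d hne2
  have hkj : k ≠ j := Finset.ne_of_mem_erase hk
  have hki : k ≠ i := Finset.ne_of_mem_erase (Finset.mem_of_mem_erase hk)
  refine ⟨i, j, k, (Finset.ne_of_mem_erase hj).symm, hki.symm, hkj.symm, ?_⟩
  have h1 : d k ^ (n - 2) ≤ ∏ l ∈ (Finset.univ.erase i).erase j, d l := by
    have := Finset.prod_le_prod' (s := (Finset.univ.erase i).erase j) (f := fun _ => d k) (g := d) fun l hl => hk' l hl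
    rwa [Finset.prod_const, hc2] at this
  have h2 : d i * (d j * d k ^ (n - 2)) ≤ ∏ l, d l := by
    rw [← Finset.mul_prod_erase Finset.univ d (Finset.mem_univ i), ← Finset.mul_prod_erase _ d hj]
    exact Nat.mul_le_mul_left _ (Nat.mul_le_mul_left _ h1)
  obtain ⟨m, rfl⟩ := Nat.exists_eq_add_of_le hn
  have e1 : 3 + m - 2 = m + 1 := by omega
  rw [e1] at h2
  have h3 : d i ^ m ≤ d k ^ m := Nat.pow_le_pow_left (hi k) _
  have h4 : d j ^ m ≤ d k ^ m := Nat.pow_le_pow_left (hj' k (Finset.mem_of_mem_erase hk)) _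
  calc (d i * d j * d k) ^ (3 + m) = (d i ^ 3 * d j ^ 3 * d k ^ (3 + m)) * (d i ^ m * d j ^ m) := by ring
    _ ≤ (d i ^ 3 * d j ^ 3 * d k ^ (3 + m)) * (d k ^ m * d k ^ m) :=
        Nat.mul_le_mul_left _ (Nat.mul_le_mul h3 h4)
    _ = (d i * (d j * d k ^ (m + 1))) ^ 3 := by ring
    _ ≤ _ := Nat.pow_le_pow_left h2 3

/-- triples with bounded product -/
def trs (X : ℕ) : Finset (ℕ × ℕ × ℕ) :=
  (Finset.Icc 1 X).biUnion fun a => (prs (X / a)).image fun p => (a, p.1, p.2)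

theorem mem_trs {X a b c : ℕ} (ha : 0 < a) (hb : 0 < b) (hc : 0 < c) (h : a * b * c ≤ X) :
    (a, b, c) ∈ trs X := by
  unfold trs
  rw [Finset.mem_biUnion]
  refine ⟨a, Finset.mem_Icc.2 ⟨ha, ?_⟩, Finset.mem_image.2 ⟨(b, c), mem_prs hb hc ?_, rfl⟩⟩
  · calc a ≤ a * (b * c) := Nat.le_mul_of_pos_right _ (Nat.mul_pos hb hc)
      _ = a * b * c := by ring
      _ ≤ X := h
  · rw [Nat.le_div_iff_mul_le ha]
    calc b * c * a = a * b * c := by ring
      _ ≤ X := h

theorem trs_card (X : ℕ) : ((trs X).card : ℝ) ≤ X * (1 + Real.log X) ^ 2 := by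
  classical
  rcases Nat.eq_zero_or_pos X with h0 | hX
  · rw [h0]; simp [trs]
  have hXr : (1 : ℝ) ≤ X := by exact_mod_cast hX
  have hl := Real.log_nonneg hXr
  have h1 : ((trs X).card : ℝ) ≤ ∑ a ∈ Finset.Icc 1 X, ((prs (X / a)).card : ℝ) := by
    have : (trs X).card ≤ ∑ a ∈ Finset.Icc 1 X, (prs (X / a)).card :=
      Finset.card_biUnion_le.trans (Finset.sum_le_sum fun a _ => Finset.card_image_le)
    exact_mod_cast this
  have h2 : ∀ a ∈ Finset.Icc 1 X, ((prs (X / a)).card : ℝ) ≤ (X * (1 + Real.log X)) * (a : ℝ)⁻¹ := by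
    intro a ha
    rw [Finset.mem_Icc] at ha
    have ha0 : (0 : ℝ) < a := by exact_mod_cast ha.1
    refine (prs_card _).trans ?_
    have h3 : ((X / a : ℕ) : ℝ) ≤ X * (a : ℝ)⁻¹ := by
      rw [← div_eq_mul_inv]
      exact Nat.cast_div_le
    have h4 : Real.log ((X / a : ℕ) : ℝ) ≤ Real.log X := by
      have h5 : 0 < X / a := Nat.div_pos ha.2 ha.1
      apply Real.log_le_log (by exact_mod_cast h5)
      exact_mod_cast Nat.div_le_self X a
    calc ((X / a : ℕ) : ℝ) * (1 + Real.log ((X / a : ℕ) : ℝ)) ≤ (X * (a : ℝ)⁻¹) * (1 + Real.log X) := by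
          have h6 : 0 < X / a := Nat.div_pos ha.2 ha.1
          have h7 : 0 ≤ Real.log ((X / a : ℕ) : ℝ) := Real.log_nonneg (by exact_mod_cast h6)
          exact mul_le_mul h3 (by linarith) (by linarith) (by positivity)
      _ = _ := by ring
  have h3 : ∑ a ∈ Finset.Icc 1 X, (a : ℝ)⁻¹ = ((harmonic X : ℚ) : ℝ) := by
    rw [harmonic_eq_sum_Icc]
    push_cast
    rfl
  calc ((trs X).card : ℝ) ≤ ∑ a ∈ Finset.Icc 1 X, (X * (1 + Real.log X)) * (a : ℝ)⁻¹ :=
        h1.trans (Finset.sum_le_sum h2)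
    _ = (X * (1 + Real.log X)) * ((harmonic X : ℚ) : ℝ) := by rw [← Finset.mul_sum, h3]
    _ ≤ (X * (1 + Real.log X)) * (1 + Real.log X) :=
        mul_le_mul_of_nonneg_left (harmonic_le_one_add_log X) (by positivity)
    _ = _ := by ring

namespace Dat

variable {n : ℕ} (S : Dat n)

/-- the data of a point -/
theorem data2 {N : ℕ} (hN : 1 ≤ N) (hn : 3 ≤ n) {Z D y : ℤ}
    (hF : S.F Z ≠ 0) (heq : (S.a : ℤ) * D * y ^ 2 = S.F Z) (hD : D.natAbs ≤ N)
    {P : ℝ} (hP : P = (N : ℝ) ^ ((3 : ℝ) / n)) :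
    ∃ (i j k : Fin n) (a a' a'' u v w : ℕ), i ≠ j ∧ i ≠ k ∧ j ≠ k ∧ 0 < a ∧ 0 < a' ∧ 0 < a'' ∧
      a ≤ S.B ^ (2 * n) * N ∧ a' ≤ S.B ^ (2 * n) * N ∧ a'' ≤ S.B ^ (2 * n) * N ∧
      ((a * a' : ℕ) : ℝ) ≤ S.C1 ^ 3 * P ∧ ((a * a' * a'' : ℕ) : ℝ) ≤ S.C1 ^ 3 * P ∧
      0 < u ∧ 0 < v ∧ 0 < w ∧ S.B ^ n * (Z - S.e i).natAbs = a * u ^ 2 ∧
      S.B ^ n * (Z - S.e j).natAbs = a' * v ^ 2 ∧ S.B ^ n * (Z - S.e k).natAbs = a'' * w ^ 2 := by
  have hNr : (1 : ℝ) ≤ N := by exact_mod_cast hN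
  have hnr : (3 : ℝ) ≤ n := by exact_mod_cast hn
  have hP1 : 1 ≤ P := by rw [hP]; exact Real.one_le_rpow hNr (by positivity)
  have hC1 := S.C1_one
  have hD0 : D ≠ 0 := by
    rintro rfl
    rw [mul_zero, zero_mul] at heq
    exact hF heq.symm
  choose a y hfac hdvd using fun i => S.fac hF heq i
  have hBn : 1 ≤ S.B ^ n := Nat.one_le_pow _ _ S.B_pos
  have hdpos := fun i => S.d_pos Z D i
  have hleN : ∀ i, a i ≤ S.B ^ (2 * n) * S.d Z D i := fun i =>
    Nat.le_of_dvd (Nat.mul_pos (pow_pos S.B_pos _) (hdpos i)) (hdvd i)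
  have hle : ∀ i, (a i : ℝ) ≤ S.C1 * S.d Z D i := by
    intro i
    unfold C1
    exact_mod_cast hleN i
  have hdN : ∀ i, S.d Z D i ≤ N := fun i =>
    (Nat.le_of_dvd (Int.natAbs_pos.2 hD0) (S.d_dvd Z D hD0 i)).trans hD
  have hprod : ∏ i, S.d Z D i ≤ N := (S.prod_d Z D hD0).trans hD
  have hprodW : ∏ j, (Z - S.e j) ≠ 0 := fun h => hF (by unfold F; rw [h, zero_mul])
  have hW : ∀ j, 0 < (Z - S.e j).natAbs := fun j =>
    Int.natAbs_pos.2 (Finset.prod_ne_zero_iff.1 hprodW j (Finset.mem_univ j))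
  have hapos : ∀ i, 0 < a i := by
    intro i
    rcases Nat.eq_zero_or_pos (a i) with h | h
    · have h1 := hfac i
      rw [h, zero_mul] at h1
      exact absurd h1 (Nat.mul_pos hBn (hW i)).ne'
    · exact h
  have hypos : ∀ i, 0 < y i := by
    intro i
    rcases Nat.eq_zero_or_pos (y i) with h | h
    · have h1 := hfac i
      rw [h, zero_pow two_ne_zero, mul_zero] at h1
      exact absurd h1 (Nat.mul_pos hBn (hW i)).ne'
    · exact h
  obtain ⟨i, j, k, hij, hik, hjk, hsm⟩ := three_small hn (fun i => S.d Z D i) hdpos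
  have hddd : ((S.d Z D i * S.d Z D j * S.d Z D k : ℕ) : ℝ) ≤ P := by
    have h1 : (S.d Z D i * S.d Z D j * S.d Z D k) ^ n ≤ N ^ 3 := hsm.trans (Nat.pow_le_pow_left hprod 3)
    have h2 : ((S.d Z D i * S.d Z D j * S.d Z D k : ℕ) : ℝ) ^ n ≤ (N : ℝ) ^ 3 := by exact_mod_cast h1
    have h3 : P ^ n = (N : ℝ) ^ 3 := by
      rw [hP, ← Real.rpow_natCast, ← Real.rpow_mul (by linarith), div_mul_cancel₀ _ (by linarith)]
      norm_num
    rw [← h3] at h2
    exact (pow_le_pow_iff_left₀ (Nat.cast_nonneg _) (by linarith) (by omega)).1 h2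
  have hdi1 : (1 : ℝ) ≤ S.d Z D i := by exact_mod_cast hdpos i
  have hdj1 : (1 : ℝ) ≤ S.d Z D j := by exact_mod_cast hdpos j
  have hdk1 : (1 : ℝ) ≤ S.d Z D k := by exact_mod_cast hdpos k
  push_cast at hddd
  have hdd : (S.d Z D i : ℝ) * S.d Z D j ≤ P :=
    (le_mul_of_one_le_right (by positivity) hdk1).trans hddd
  have hup : ∀ i, a i ≤ S.B ^ (2 * n) * N := fun i => (hleN i).trans (Nat.mul_le_mul_left _ (hdN i))
  refine ⟨i, j, k, a i, a j, a k, y i, y j, y k, hij, hik, hjk, hapos i, hapos j, hapos k, hup i, hup j, hup k,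
    ?_, ?_, hypos i, hypos j, hypos k, hfac i, hfac j, hfac k⟩
  · push_cast
    calc (a i : ℝ) * a j ≤ (S.C1 * S.d Z D i) * (S.C1 * S.d Z D j) :=
          mul_le_mul (hle i) (hle j) (Nat.cast_nonneg _) (by positivity)
      _ = S.C1 ^ 2 * (S.d Z D i * S.d Z D j) := by ring
      _ ≤ S.C1 ^ 3 * P := mul_le_mul (pow_le_pow_right₀ hC1 (by norm_num)) hdd (by positivity) (by positivity)
  · push_cast
    calc (a i : ℝ) * a j * a k ≤ (S.C1 * S.d Z D i) * (S.C1 * S.d Z D j) * (S.C1 * S.d Z D k) :=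
          mul_le_mul (mul_le_mul (hle i) (hle j) (Nat.cast_nonneg _) (by positivity)) (hle k)
            (Nat.cast_nonneg _) (by positivity)
      _ = S.C1 ^ 3 * (S.d Z D i * S.d Z D j * S.d Z D k) := by ring
      _ ≤ _ := mul_le_mul_of_nonneg_left hddd (by positivity)

theorem natAbs_sub {Z e w : ℤ} {σ : Bool} (hσ : if σ then e < Z else Z < e) (κ : ℕ) (a : ℕ)
    (h : κ * (Z - e).natAbs = a * w.natAbs ^ 2) :
    (κ : ℤ) * Z - κ * e = (if σ then (a : ℤ) else -a) * w ^ 2 := by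
  have h1 : (κ : ℤ) * |Z - e| = a * w ^ 2 := by
    rw [Int.abs_eq_natAbs, ← Int.natAbs_sq w]
    exact_mod_cast h
  cases σ
  · simp only [Bool.false_eq_true, if_false] at hσ ⊢
    rw [abs_of_neg (by omega)] at h1
    linear_combination -h1
  · simp only [if_true] at hσ ⊢
    rw [abs_of_pos (by omega)] at h1
    linear_combination h1

/-- the number of the points -/
theorem pairs2 (hn : 4 ≤ n) : ∃ C : ℝ, 0 < C ∧ ∀ N : ℕ, 1 ≤ N → ∀ T : Finset ℤ,
    (∀ Z ∈ T, S.F Z ≠ 0 ∧ ∃ D y : ℤ, (S.a : ℤ) * D * y ^ 2 = S.F Z ∧ D.natAbs ≤ N) →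
    (T.card : ℝ) ≤ C * (N : ℝ) ^ ((3 : ℝ) / n) * (1 + Real.log N) ^ 2 := by
  classical
  obtain ⟨c, κ, hc1, hlc⟩ := Pool.Agent.H49SH.large_count
  have hR := S.R_one
  have hC1 := S.C1_one
  have hlC := Real.log_nonneg hC1
  have hB := S.B_pos
  obtain ⟨E, hE⟩ : ∃ E : ℕ, E = ∑ i, (S.e i).natAbs := ⟨_, rfl⟩
  have hEi : ∀ i, (S.e i).natAbs ≤ E := fun i => by
    rw [hE]
    exact Finset.single_le_sum (f := fun i => (S.e i).natAbs) (fun _ _ => Nat.zero_le _) (Finset.mem_univ i)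
  obtain ⟨K0, hK0⟩ : ∃ K0 : ℕ, K0 = S.B ^ (2 * n) + S.B ^ n * E := ⟨_, rfl⟩
  have hK01 : 1 ≤ K0 := by
    have := Nat.one_le_pow (2 * n) _ hB
    omega
  obtain ⟨cρ, hcρ⟩ : ∃ cρ : ℕ, cρ = (8 * S.B ^ (n + 1) + 1) * (S.B ^ (n + 1) + 1) := ⟨_, rfl⟩
  obtain ⟨K1, hK1⟩ : ∃ K1 : ℝ, K1 = 2 * (κ * Real.log (c * K0) + κ + Real.log (1 + S.B ^ n * E)) + 1 := ⟨_, rfl⟩
  have hcK : (1 : ℝ) ≤ c * K0 := by exact_mod_cast Nat.mul_pos hc1 hK01
  have hcK' := Real.log_nonneg hcK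
  have hBE : (1 : ℝ) ≤ 1 + S.B ^ n * E := by
    have : (0 : ℝ) ≤ S.B ^ n * E := by positivity
    linarith
  have hBE' := Real.log_nonneg hBE
  have hK1p : 1 ≤ K1 := by
    rw [hK1]
    have : 0 ≤ 2 * (κ * Real.log (c * K0) + κ + Real.log (1 + S.B ^ n * E)) := by positivity
    linarith
  refine ⟨(4 * S.B ^ (n + 1) + 2 * E + 1) +
      (n * (n * 2)) * (S.C1 ^ 3 * (2 + 3 * Real.log S.C1)) * (K1 * cρ) +
      (n * (n * (n * 2))) * (S.C1 ^ 3 * (2 + 3 * Real.log S.C1) ^ 2) * 344,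
    by positivity, fun N hN T hT => ?_⟩
  have hNr : (1 : ℝ) ≤ N := by exact_mod_cast hN
  have hlN := Real.log_nonneg hNr
  have hnr : (4 : ℝ) ≤ n := by exact_mod_cast hn
  obtain ⟨P, hP⟩ : ∃ P : ℝ, P = (N : ℝ) ^ ((3 : ℝ) / n) := ⟨_, rfl⟩
  obtain ⟨l, hl⟩ : ∃ l : ℝ, l = 1 + Real.log N := ⟨_, rfl⟩
  have hl1 : 1 ≤ l := by rw [hl]; linarith
  have hP1 : 1 ≤ P := by rw [hP]; exact Real.one_le_rpow hNr (by positivity)
  rw [← hP, ← hl]
  choose! D y heq hD using fun Z hZ => (hT Z hZ).2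
  have hF := fun Z hZ => (hT Z hZ).1
  have : Nonempty (Fin n) := ⟨⟨0, by omega⟩⟩
  choose! i j k a a' a'' u v w hij hik hjk ha ha' ha'' hau hau' hau'' haa haaa hu hv hw h1 h2 h3 using
    fun Z hZ => S.data2 hN (by omega) (hF Z hZ) (heq Z hZ) (hD Z hZ) hP
  obtain ⟨X, hX⟩ : ∃ X : ℕ, X = ⌊S.C1 ^ 3 * P⌋₊ := ⟨_, rfl⟩
  have hX1 : (X : ℝ) ≤ S.C1 ^ 3 * P := by rw [hX]; exact Nat.floor_le (by positivity)
  have hX0 : 1 ≤ X := by
    rw [hX]
    apply Nat.le_floor
    push_cast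
    exact one_le_mul_of_one_le_of_one_le (one_le_pow₀ hC1) hP1
  obtain ⟨Z₀, hZ₀⟩ : ∃ Z₀ : ℕ, Z₀ = 2 * S.B ^ (n + 1) + E := ⟨_, rfl⟩
  obtain ⟨Lt, hLt⟩ : ∃ Lt : ℕ, Lt = (c * (K0 * N)) ^ κ := ⟨_, rfl⟩
  -- the sign
  let σ : ℤ → Bool := fun Z => decide (0 ≤ Z)
  have hσ : ∀ Z : ℤ, Z₀ < Z.natAbs → ∀ i, if σ Z then S.e i < Z else Z < S.e i := by
    intro Z hZ i
    have h4 := hEi i
    by_cases h5 : 0 ≤ Z
    · simp only [σ, h5, decide_true, if_true]
      omega
    · simp only [σ, h5, decide_false, Bool.false_eq_true, if_false]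
      omega
  let Ts := T.filter fun Z => Z.natAbs ≤ Z₀
  let Tb := T.filter fun Z => ¬ Z.natAbs ≤ Z₀
  let Tm := Tb.filter fun Z => S.B ^ n * Z.natAbs ≤ Lt
  let Tl := Tb.filter fun Z => ¬ S.B ^ n * Z.natAbs ≤ Lt
  have hTs : (Ts.card : ℝ) ≤ 2 * Z₀ + 1 := by
    have hsub : Ts ⊆ Finset.Icc (-(Z₀ : ℤ)) Z₀ := by
      intro Z hZ
      obtain ⟨h4, h5⟩ := Finset.mem_filter.1 hZ
      rw [Finset.mem_Icc]
      omega
    have h4 := Finset.card_le_card hsub
    rw [Int.card_Icc] at h4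
    have h5 : ((Z₀ : ℤ) + 1 - -(Z₀ : ℤ)).toNat = 2 * Z₀ + 1 := by omega
    rw [h5] at h4
    exact_mod_cast h4
  -- points of polynomial size
  obtain ⟨K, hK⟩ : ∃ K : ℕ, K = Nat.log 2 (Lt + S.B ^ n * E) + 1 := ⟨_, rfl⟩
  have hTm : Tm.card ≤ (n * (n * 2) * (prs X).card) * (K * cρ) := by
    let φ : ℤ → (Fin n × Fin n × Bool) × (ℕ × ℕ) := fun Z => ((i Z, j Z, σ Z), (a Z, a' Z))
    have hmap : ∀ Z ∈ Tm, φ Z ∈ (Finset.univ : Finset (Fin n × Fin n × Bool)) ×ˢ prs X := by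
      intro Z hZ
      have hZT := (Finset.mem_filter.1 (Finset.mem_filter.1 hZ).1).1
      rw [Finset.mem_product]
      refine ⟨Finset.mem_univ _, mem_prs (ha Z hZT) (ha' Z hZT) ?_⟩
      rw [hX]
      exact Nat.le_floor (haa Z hZT)
    have hfib : ∀ t ∈ (Finset.univ : Finset (Fin n × Fin n × Bool)) ×ˢ prs X,
        (Tm.filter fun Z => φ Z = t).card ≤ K * cρ := by
      intro t _
      rcases (Tm.filter fun Z => φ Z = t).eq_empty_or_nonempty with h0 | ⟨Y, hY⟩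
      · rw [h0]; simp
      have hY1 := (Finset.mem_filter.1 hY).1
      have hYt := (Finset.mem_filter.1 hY).2
      have hYT := (Finset.mem_filter.1 (Finset.mem_filter.1 hY1).1).1
      have hρn : (S.rho (i Y) (j Y) (σ Y)).natAbs ≤ S.B ^ (n + 1) := by
        have h4 := S.rho_le (hij Y hYT) (σ Y)
        have h5 : (((S.rho (i Y) (j Y) (σ Y)).natAbs : ℕ) : ℝ) ≤ ((S.B ^ (n + 1) : ℕ) : ℝ) := by
          rw [Nat.cast_natAbs]
          push_cast
          exact h4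
        exact_mod_cast h5
      have hinj : Set.InjOn u (Tm.filter fun Z => φ Z = t : Set ℤ) := by
        intro Z hZ Z' hZ' he
        have hZ1 := Finset.mem_filter.1 hZ
        have hZ1' := Finset.mem_filter.1 hZ'
        have hZb := Finset.mem_filter.1 (Finset.mem_filter.1 hZ1.1).1
        have hZb' := Finset.mem_filter.1 (Finset.mem_filter.1 hZ1'.1).1
        have e1 : φ Z = φ Z' := hZ1.2.trans hZ1'.2.symm
        simp only [φ, Prod.mk.injEq] at e1
        obtain ⟨⟨e2, e3, e4⟩, e5, e6⟩ := e1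
        have k1 := h1 Z hZb.1
        have k2 := h1 Z' hZb'.1
        rw [← e2, ← e5, ← he, ← k1] at k2
        have k3 := Nat.eq_of_mul_eq_mul_left (pow_pos hB n) k2
        have s1 := hσ Z (not_le.1 hZb.2) (i Z)
        have s2 := hσ Z' (not_le.1 hZb'.2) (i Z)
        rw [← e4] at s2
        split_ifs at s1 s2 <;> omega
      rw [← Finset.card_image_of_injOn hinj]
      have hbound := pell_count (a := a Y) (a' := a' Y) (ρ := S.rho (i Y) (j Y) (σ Y)) (ha Y hYT) (ha' Y hYT)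
        (S.rho_ne (hij Y hYT) _) K ((Tm.filter fun Z => φ Z = t).image u) (by
          intro b hb
          obtain ⟨Z, hZ, rfl⟩ := Finset.mem_image.1 hb
          have hZ1 := Finset.mem_filter.1 hZ
          have hZm := Finset.mem_filter.1 hZ1.1
          have hZb := Finset.mem_filter.1 hZm.1
          have e1 : φ Z = φ Y := hZ1.2.trans hYt.symm
          simp only [φ, Prod.mk.injEq] at e1
          obtain ⟨⟨e2, e3, e4⟩, e5, e6⟩ := e1
          have s1 := hσ Z (not_le.1 hZb.2) (i Z)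
          have s2 := hσ Z (not_le.1 hZb.2) (j Z)
          have hrel : S.Rel (i Z) (j Z) (σ Z) 2 (a Z) (a' Z) Z (u Z) (v Z) := by
            refine ⟨h1 Z hZb.1, h2 Z hZb.1, ?_⟩
            split_ifs at s1 s2 ⊢ <;> exact ⟨s1, s2⟩
          have hsol := hrel.sol S (hij Z hZb.1) (hu Z hZb.1) (hv Z hZb.1)
          rw [e2, e3, e4, e5, e6] at hsol
          have hWi : 2 * S.B ^ (n + 1) < (Z - S.e (i Z)).natAbs := by
            have := hEi (i Z)
            have := not_le.1 hZb.2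
            omega
          have hWB : (Z - S.e (i Z)).natAbs ≤ a Z * u Z ^ 2 := by
            rw [← h1 Z hZb.1]
            exact Nat.le_mul_of_pos_left _ (pow_pos hB n)
          refine ⟨hu Z hZb.1, ?_, ?_, v Z, hsol.eq⟩
          · have h5 : u Z ^ 2 ≤ Lt + S.B ^ n * E := by
              have h6 : u Z ^ 2 ≤ a Z * u Z ^ 2 := Nat.le_mul_of_pos_left _ (ha Z hZb.1)
              rw [← h1 Z hZb.1] at h6
              have h7 : (Z - S.e (i Z)).natAbs ≤ Z.natAbs + E := by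
                have := hEi (i Z)
                omega
              have h8 := Nat.mul_le_mul_left (S.B ^ n) h7
              rw [mul_add] at h8
              have h9 := hZm.2
              omega
            have h6 : u Z ≤ u Z ^ 2 := Nat.le_self_pow two_ne_zero _
            rw [hK]
            exact lt_of_le_of_lt (h6.trans h5) (Nat.lt_pow_succ_log_self (by norm_num) _)
          · have h5 : 2 * (S.rho (i Y) (j Y) (σ Y)).natAbs ≤ a Y * u Z ^ 2 := by
              rw [← e5]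
              omega
            rw [Int.abs_eq_natAbs]
            exact_mod_cast h5)
      refine hbound.trans ?_
      rw [hcρ]
      refine Nat.mul_le_mul_left _ (Nat.mul_le_mul ?_ ?_) <;> omega
    have h4 := Finset.card_le_mul_card_image_of_maps_to hmap (K * cρ) hfib
    rw [Finset.card_product, Finset.card_univ] at h4
    simp only [Fintype.card_prod, Fintype.card_fin, Fintype.card_bool] at h4
    calc Tm.card ≤ (K * cρ) * (n * (n * 2) * (prs X).card) := h4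
      _ = _ := by ring
  have hTl : Tl.card ≤ (n * (n * (n * 2)) * (trs X).card) * 344 := by
    let φ : ℤ → (Fin n × Fin n × Fin n × Bool) × (ℕ × ℕ × ℕ) := fun Z =>
      ((i Z, j Z, k Z, σ Z), (a Z, a' Z, a'' Z))
    have hmap : ∀ Z ∈ Tl, φ Z ∈ (Finset.univ : Finset (Fin n × Fin n × Fin n × Bool)) ×ˢ trs X := by
      intro Z hZ
      have hZT := (Finset.mem_filter.1 (Finset.mem_filter.1 hZ).1).1
      rw [Finset.mem_product]
      refine ⟨Finset.mem_univ _, mem_trs (ha Z hZT) (ha' Z hZT) (ha'' Z hZT) ?_⟩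
      rw [hX]
      exact Nat.le_floor (haaa Z hZT)
    have hfib : ∀ t ∈ (Finset.univ : Finset (Fin n × Fin n × Fin n × Bool)) ×ˢ trs X,
        (Tl.filter fun Z => φ Z = t).card ≤ 344 := by
      intro t _
      rcases (Tl.filter fun Z => φ Z = t).eq_empty_or_nonempty with h0 | ⟨Y, hY⟩
      · rw [h0]; simp
      have hY1 := (Finset.mem_filter.1 hY).1
      have hYt := (Finset.mem_filter.1 hY).2
      have hYT := (Finset.mem_filter.1 (Finset.mem_filter.1 hY1).1).1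
      have hinj : Set.InjOn (fun Z : ℤ => (((S.B ^ n : ℕ) : ℤ) * Z, (1 : ℤ)))
          (Tl.filter fun Z => φ Z = t : Set ℤ) := by
        intro Z _ Z' _ he
        simp only [Prod.mk.injEq, and_true] at he
        exact mul_left_cancel₀ (by exact_mod_cast (pow_pos hB n).ne') he
      rw [← Finset.card_image_of_injOn hinj]
      have hsg : ∀ b : ℕ, 0 < b → (if σ Y then (b : ℤ) else -b) ≠ 0 := by
        intro b hb
        split_ifs
        · exact_mod_cast hb.ne'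
        · exact neg_ne_zero.2 (by exact_mod_cast hb.ne')
      have hab : ∀ b : ℕ, b ≤ S.B ^ (2 * n) * N → |(if σ Y then (b : ℤ) else -b)| ≤ ((K0 * N : ℕ) : ℤ) := by
        intro b hb
        have h4 : b ≤ K0 * N := by
          rw [hK0]
          refine hb.trans (Nat.mul_le_mul_right _ (Nat.le_add_right _ _))
        have h5 : |(if σ Y then (b : ℤ) else -b)| = b := by
          split_ifs
          · exact Nat.abs_cast b
          · rw [abs_neg]; exact Nat.abs_cast b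
        rw [h5]
        exact_mod_cast h4
      have heb : ∀ i, |(((S.B ^ n : ℕ) : ℤ) * S.e i)| ≤ ((K0 * N : ℕ) : ℤ) := by
        intro i
        rw [Int.abs_eq_natAbs, Int.natAbs_mul, Int.natAbs_natCast]
        have h4 : S.B ^ n * (S.e i).natAbs ≤ K0 * N := by
          calc S.B ^ n * (S.e i).natAbs ≤ S.B ^ n * E := Nat.mul_le_mul_left _ (hEi i)
            _ ≤ K0 := by omega
            _ ≤ K0 * N := Nat.le_mul_of_pos_right _ hN
        exact_mod_cast h4
      have hen : ∀ i j, i ≠ j → ((S.B ^ n : ℕ) : ℤ) * S.e i ≠ ((S.B ^ n : ℕ) : ℤ) * S.e j := by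
        intro i j hij h4
        exact hij (S.he (mul_left_cancel₀ (by exact_mod_cast (pow_pos hB n).ne') h4))
      refine hlc (K0 * N) _ _ _ _ _ _ (Nat.mul_pos hK01 hN) (hsg _ (ha Y hYT)) (hsg _ (ha' Y hYT))
        (hsg _ (ha'' Y hYT)) (hab _ (hau Y hYT)) (hab _ (hau' Y hYT)) (hab _ (hau'' Y hYT)) (heb (i Y)) (heb (j Y))
        (heb (k Y)) (hen _ _ (hij Y hYT)) (hen _ _ (hik Y hYT)) (hen _ _ (hjk Y hYT)) _ ?_
      intro s hs
      obtain ⟨Z, hZ, rfl⟩ := Finset.mem_image.1 hs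
      have hZ1 := Finset.mem_filter.1 hZ
      have hZl := Finset.mem_filter.1 hZ1.1
      have hZb := Finset.mem_filter.1 hZl.1
      have e1 : φ Z = φ Y := hZ1.2.trans hYt.symm
      simp only [φ, Prod.mk.injEq] at e1
      obtain ⟨⟨e2, e3, e4, e4'⟩, e5, e6, e7⟩ := e1
      refine ⟨isCoprime_one_right, one_ne_zero, ?_, ?_, u Z, v Z, w Z, ?_⟩
      · show |(1 : ℤ)| ≤ _
        rw [abs_one]
        exact_mod_cast Nat.mul_pos hK01 hN
      · show _ < (((S.B ^ n : ℕ) : ℤ) * Z).natAbs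
        rw [Int.natAbs_mul, Int.natAbs_natCast, ← hLt]
        exact not_le.1 hZl.2
      · have q1 := natAbs_sub (w := (u Z : ℤ)) (hσ Z (not_le.1 hZb.2) (i Z)) (S.B ^ n) (a Z)
          (by rw [Int.natAbs_natCast]; exact h1 Z hZb.1)
        have q2 := natAbs_sub (w := (v Z : ℤ)) (hσ Z (not_le.1 hZb.2) (j Z)) (S.B ^ n) (a' Z)
          (by rw [Int.natAbs_natCast]; exact h2 Z hZb.1)
        have q3 := natAbs_sub (w := (w Z : ℤ)) (hσ Z (not_le.1 hZb.2) (k Z)) (S.B ^ n) (a'' Z)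
          (by rw [Int.natAbs_natCast]; exact h3 Z hZb.1)
        rw [e2, e4', e5] at q1
        rw [e3, e4', e6] at q2
        rw [e4, e4', e7] at q3
        refine ⟨by exact_mod_cast hu Z hZb.1, by exact_mod_cast hv Z hZb.1, by exact_mod_cast hw Z hZb.1, ?_, ?_, ?_⟩
        · rw [mul_one]; exact q1
        · rw [mul_one]; exact q2
        · rw [mul_one]; exact q3
    have h4 := Finset.card_le_mul_card_image_of_maps_to hmap 344 hfib
    rw [Finset.card_product, Finset.card_univ] at h4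
    simp only [Fintype.card_prod, Fintype.card_fin, Fintype.card_bool] at h4
    calc Tl.card ≤ 344 * (n * (n * (n * 2)) * (trs X).card) := h4
      _ = _ := by ring
  have hsum : (T.card : ℝ) = Ts.card + (Tm.card + Tl.card) := by
    have h4 := Finset.card_filter_add_card_filter_not (s := T) (fun Z : ℤ => Z.natAbs ≤ Z₀)
    have h5 := Finset.card_filter_add_card_filter_not (s := Tb) (fun Z : ℤ => S.B ^ n * Z.natAbs ≤ Lt)
    have h6 : T.card = Ts.card + (Tm.card + Tl.card) := by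
      rw [← h4, ← h5]
    exact_mod_cast h6
  -- arithmetic
  have hKr : (K : ℝ) ≤ K1 * l := by
    have hLt1 : (1 : ℝ) ≤ Lt := by
      rw [hLt]
      exact_mod_cast Nat.one_le_pow _ _ (Nat.mul_pos hc1 (Nat.mul_pos hK01 hN))
    have hx0 : (0 : ℝ) < ((Lt + S.B ^ n * E : ℕ) : ℝ) := by
      push_cast
      have : (0 : ℝ) ≤ S.B ^ n * E := by positivity
      linarith
    have h4 : (Nat.log 2 (Lt + S.B ^ n * E) : ℝ) ≤ 2 * Real.log ((Lt + S.B ^ n * E : ℕ) : ℝ) :=
      Pool.Agent.H49SE.natlog_le' _ (by exact_mod_cast hx0)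
    have h5 : Real.log ((Lt + S.B ^ n * E : ℕ) : ℝ) ≤ κ * (Real.log (c * K0) + Real.log N) +
        Real.log (1 + S.B ^ n * E) := by
      have h6 : ((Lt + S.B ^ n * E : ℕ) : ℝ) ≤ ((c * K0) * N : ℝ) ^ κ * (1 + S.B ^ n * E) := by
        have h7 : ((c * K0) * N : ℝ) ^ κ = Lt := by
          rw [hLt]
          push_cast
          ring
        rw [h7]
        push_cast
        have : (0 : ℝ) ≤ S.B ^ n * E := by positivity
        nlinarith
      refine (Real.log_le_log hx0 h6).trans_eq ?_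
      rw [Real.log_mul (by positivity) (by positivity), Real.log_pow,
        Real.log_mul (by positivity) (by positivity)]
    have h6 : (κ : ℝ) * (Real.log (c * K0) + Real.log N) + Real.log (1 + S.B ^ n * E) ≤
        (κ * Real.log (c * K0) + κ + Real.log (1 + S.B ^ n * E)) * l := by
      rw [hl]
      have hκ0 : (0 : ℝ) ≤ κ := Nat.cast_nonneg κ
      nlinarith [mul_nonneg hκ0 hcK', mul_nonneg (mul_nonneg hκ0 hcK') hlN, mul_nonneg hBE' hlN,
        mul_nonneg hκ0 hlN]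
    rw [hK, hK1]
    push_cast
    push_cast at h4 h5
    nlinarith
  have hlogX : 1 + Real.log X ≤ (2 + 3 * Real.log S.C1) * l := by
    have h4 : (0 : ℝ) < X := by exact_mod_cast hX0
    have h5 := Real.log_le_log h4 hX1
    rw [Real.log_mul (by positivity) (by positivity), Real.log_pow, hP, Real.log_rpow (by linarith)] at h5
    have h6 : 3 / (n : ℝ) * Real.log N ≤ 1 * Real.log N :=
      mul_le_mul_of_nonneg_right (by rw [div_le_one (by linarith)]; linarith) hlN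
    push_cast at h5
    nlinarith
  have hlogX0 : 0 ≤ 1 + Real.log X := by
    have : 0 ≤ Real.log X := Real.log_nonneg (by exact_mod_cast hX0)
    linarith
  have hl2 : 1 ≤ l ^ 2 := one_le_pow₀ hl1
  have hPl : 1 ≤ P * l ^ 2 := one_le_mul_of_one_le_of_one_le hP1 hl2
  have hA1 : (Ts.card : ℝ) ≤ (4 * S.B ^ (n + 1) + 2 * E + 1) * (P * l ^ 2) := by
    have h4 : (2 * (Z₀ : ℝ) + 1) = 4 * S.B ^ (n + 1) + 2 * E + 1 := by
      rw [hZ₀]
      push_cast
      ring
    refine hTs.trans ?_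
    rw [h4]
    exact le_mul_of_one_le_right (by positivity) hPl
  have hA2 : (Tm.card : ℝ) ≤ ((n * (n * 2)) * (S.C1 ^ 3 * (2 + 3 * Real.log S.C1)) * (K1 * cρ)) * (P * l ^ 2) := by
    calc (Tm.card : ℝ) ≤ (n * (n * 2) * ((prs X).card : ℝ)) * (K * cρ) := by exact_mod_cast hTm
      _ ≤ (n * (n * 2) * ((S.C1 ^ 3 * P) * ((2 + 3 * Real.log S.C1) * l))) * ((K1 * l) * cρ) := by
          refine mul_le_mul ?_ (mul_le_mul_of_nonneg_right hKr (by positivity)) (by positivity) (by positivity)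
          refine mul_le_mul_of_nonneg_left ?_ (by positivity)
          exact (prs_card X).trans (mul_le_mul hX1 hlogX hlogX0 (by positivity))
      _ = _ := by ring
  have hA3 : (Tl.card : ℝ) ≤ ((n * (n * (n * 2))) * (S.C1 ^ 3 * (2 + 3 * Real.log S.C1) ^ 2) * 344) * (P * l ^ 2) := by
    calc (Tl.card : ℝ) ≤ (n * (n * (n * 2)) * ((trs X).card : ℝ)) * 344 := by exact_mod_cast hTl
      _ ≤ (n * (n * (n * 2)) * ((S.C1 ^ 3 * P) * ((2 + 3 * Real.log S.C1) * l) ^ 2)) * 344 := by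
          refine mul_le_mul_of_nonneg_right ?_ (by norm_num)
          refine mul_le_mul_of_nonneg_left ?_ (by positivity)
          refine (trs_card X).trans (mul_le_mul hX1 ?_ (by positivity) (by positivity))
          exact pow_le_pow_left₀ hlogX0 hlogX 2
      _ = _ := by ring
  rw [hsum]
  calc (Ts.card : ℝ) + (Tm.card + Tl.card) ≤ (4 * S.B ^ (n + 1) + 2 * E + 1) * (P * l ^ 2) +
        (((n * (n * 2)) * (S.C1 ^ 3 * (2 + 3 * Real.log S.C1)) * (K1 * cρ)) * (P * l ^ 2) +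
        ((n * (n * (n * 2))) * (S.C1 ^ 3 * (2 + 3 * Real.log S.C1) ^ 2) * 344) * (P * l ^ 2)) :=
        add_le_add hA1 (add_le_add hA2 hA3)
    _ = _ := by ring

end Dat

end Pool.Agent.H49SE
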