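import Pool.Agent.H49SE.Dlevel

/-!
Polynomials with simple rational roots.
-/

set_option autoImplicit false

open Polynomial

namespace Pool.Agent.H49SE

theorem exists_int_poly (g : ℚ[X]) : ∃ (b : ℕ) (G : ℤ[X]), 0 < b ∧
    ∀ z : ℤ, ((G.eval z : ℤ) : ℚ) = b * g.eval (z : ℚ) := by
  induction g using Polynomial.induction_on' with
  | add p q hp hq =>
    obtain ⟨b, G, hb, h⟩ := hp
    obtain ⟨b', G', hb', h'⟩ := hq
    refine ⟨b * b', C (b' : ℤ) * G + C (b : ℤ) * G', Nat.mul_pos hb hb', fun z => ?_⟩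
    simp only [eval_add, eval_mul, eval_C]
    push_cast
    rw [h, h']
    ring
  | monomial n a =>
    refine ⟨a.den, monomial n a.num, a.den_pos, fun z => ?_⟩
    rw [eval_monomial, eval_monomial]
    push_cast
    have := Rat.mul_den_eq_num a
    rw [← this]
    ring

/-- the data of a polynomial with simple rational roots -/
theorem exists_dat {n : ℕ} (f : ℚ[X]) (s : Finset ℚ) (hn : s.card = n) (hn0 : 0 < n)
    (hs : ∀ r ∈ s, f.rootMultiplicity r = 1) (M : ℕ) (hM : 0 < M) :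
    ∃ S : Dat n, ∀ x : ℚ, (∃ z : ℤ, (M : ℚ) * x = z) → ∃ Z : ℤ, ((S.F Z : ℤ) : ℚ) = S.a * f.eval x := by
  classical
  have hne : s.Nonempty := by rw [← Finset.card_pos, hn]; exact hn0
  have hf0 : f ≠ 0 := by
    obtain ⟨r, hr⟩ := hne
    rintro rfl
    have := hs r hr
    rw [rootMultiplicity_zero] at this
    omega
  -- the factorisation
  have hdvd : ∏ r ∈ s, (X - C r) ∣ f := by
    apply Finset.prod_dvd_of_coprime
    · intro r _ r' _ hne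
      exact pairwise_coprime_X_sub_C (s := fun r : ℚ => r) (fun _ _ h => h) hne
    · intro r hr
      rw [dvd_iff_isRoot]
      exact (rootMultiplicity_pos hf0).1 (by rw [hs r hr]; norm_num)
  obtain ⟨g, hg⟩ := hdvd
  have hgr : ∀ r ∈ s, g.eval r ≠ 0 := by
    intro r hr h0
    obtain ⟨g', hg'⟩ := dvd_iff_isRoot.2 h0
    have h1 : (X - C r) ^ 2 ∣ f := by
      rw [hg, hg', ← Finset.mul_prod_erase s _ hr]
      exact ⟨(∏ r ∈ s.erase r, (X - C r)) * g', by ring⟩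
    have h2 := (le_rootMultiplicity_iff hf0).2 h1
    rw [hs r hr] at h2
    omega
  -- the common denominator
  obtain ⟨c, hc⟩ : ∃ c : ℕ, c = M * ∏ r ∈ s, r.den := ⟨_, rfl⟩
  have hc0 : 0 < c := by
    rw [hc]
    exact Nat.mul_pos hM (Finset.prod_pos fun r _ => r.den_pos)
  have hcq : (c : ℚ) ≠ 0 := by exact_mod_cast hc0.ne'
  have hint : ∀ r ∈ s, ∃ z : ℤ, (z : ℚ) = c * r := by
    intro r hr
    obtain ⟨k, hk⟩ : r.den ∣ c := by
      rw [hc]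
      exact Dvd.dvd.mul_left (Finset.dvd_prod_of_mem (fun r : ℚ => r.den) hr) _
    refine ⟨k * r.num, ?_⟩
    rw [hk]
    push_cast
    rw [← Rat.mul_den_eq_num r]
    ring
  choose! z hz using hint
  obtain ⟨b, G, hb, hG⟩ := exists_int_poly (g.comp (C ((c : ℚ)⁻¹) * X))
  have hG' : ∀ Z : ℤ, ((G.eval Z : ℤ) : ℚ) = b * g.eval ((Z : ℚ) / c) := by
    intro Z
    rw [hG, eval_comp, eval_mul, eval_C, eval_X, div_eq_inv_mul]
  let ι := (Finset.equivFinOfCardEq hn).symm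
  have hbq : (b : ℚ) ≠ 0 := by exact_mod_cast hb.ne'
  refine ⟨⟨fun i => z (ι i : ℚ), G, b * c ^ n, ?_, ?_, Nat.mul_pos hb (pow_pos hc0 n)⟩, ?_⟩
  · intro i j hij
    have h1 : (c : ℚ) * (ι i : ℚ) = c * (ι j : ℚ) := by
      rw [← hz _ (ι i).2, ← hz _ (ι j).2]
      exact_mod_cast hij
    exact ι.injective (Subtype.ext (mul_left_cancel₀ hcq h1))
  · intro i h0
    have h1 := hG' (z (ι i : ℚ))
    have h0' : G.eval (z (ι i : ℚ)) = 0 := h0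
    rw [h0', Int.cast_zero, hz _ (ι i).2, mul_div_cancel_left₀ _ hcq] at h1
    exact mul_ne_zero hbq (hgr _ (ι i).2) h1.symm
  · rintro x ⟨w, hw⟩
    obtain ⟨k, hk⟩ : ∃ k : ℕ, c = M * k := ⟨_, hc⟩
    refine ⟨k * w, ?_⟩
    have hZ : ((((k : ℤ) * w : ℤ)) : ℚ) = c * x := by
      push_cast
      rw [hk, ← hw]
      push_cast
      ring
    show ((((∏ i, ((k : ℤ) * w - z (ι i : ℚ))) * G.eval ((k : ℤ) * w) : ℤ)) : ℚ) = ((b * c ^ n : ℕ) : ℚ) * f.eval x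
    have h1 : (((∏ i, ((k : ℤ) * w - z (ι i : ℚ)) : ℤ)) : ℚ) = c ^ n * ∏ r ∈ s, (x - r) := by
      rw [Int.cast_prod]
      have h2 : ∀ i, ((((k : ℤ) * w - z (ι i : ℚ)) : ℤ) : ℚ) = c * (x - (ι i : ℚ)) := by
        intro i
        rw [Int.cast_sub, hZ, hz _ (ι i).2]
        ring
      simp only [h2]
      rw [Finset.prod_mul_distrib, Finset.prod_const, Finset.card_univ, Fintype.card_fin]
      congr 1
      rw [← Finset.prod_coe_sort s (fun r => x - r)]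
      exact Fintype.prod_equiv ι _ _ fun i => rfl
    rw [Int.cast_mul, h1, hG', hZ, mul_div_cancel_left₀ _ hcq, hg, eval_mul, eval_prod]
    simp only [eval_sub, eval_X, eval_C]
    push_cast
    ring

/-- **Theorem.** -/
theorem main (f : ℚ[X]) (s : Finset ℚ) (hs : ∀ r ∈ s, f.rootMultiplicity r = 1) (k : ℕ)
    (hk : k = 2 ∧ 4 ≤ s.card ∨ k = 3 ∧ 3 ≤ s.card) (M : ℕ) (hM : 0 < M) :
    ∃ C : ℝ, ∀ N : ℕ, 1 ≤ N →
      ({D : ℤ | |D| ≤ N ∧ ∃ (m : ℕ) (x : ℚ) (y : ℤ), k ≤ m ∧ (∀ d : ℤ, d ^ m ∣ D → IsUnit d) ∧ y ≠ 0 ∧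
        (∃ z : ℤ, (M : ℚ) * x = z) ∧ (D : ℚ) * (y : ℚ) ^ m = f.eval x}.ncard : ℝ) ≤
      C * (N : ℝ) ^ ((5 - k : ℝ) / s.card) * (1 + Real.log N) ^ 405 := by
  classical
  obtain ⟨n, hn⟩ : ∃ n, s.card = n := ⟨_, rfl⟩
  rw [hn] at hk
  obtain ⟨S, hS⟩ := exists_dat f s hn (by omega) hs M hM
  -- the two cases
  have key : ∃ C : ℝ, 0 < C ∧ ∀ N : ℕ, 1 ≤ N → ∀ T : Finset ℤ,
      (∀ D ∈ T, D.natAbs ≤ N ∧ ∃ (m : ℕ) (Z y : ℤ), k ≤ m ∧ (∀ d : ℤ, d ^ m ∣ D → IsUnit d) ∧ S.F Z ≠ 0 ∧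
        (S.a : ℤ) * D * y ^ m = S.F Z) →
      (T.card : ℝ) ≤ C * (N : ℝ) ^ ((5 - k : ℝ) / n) * (1 + Real.log N) ^ 405 := by
    rcases hk with ⟨rfl, h⟩ | ⟨rfl, h⟩
    · have e : ((5 - (2 : ℕ) : ℝ)) = 3 := by norm_num
      rw [e]
      exact S.main2 h
    · have e : ((5 - (3 : ℕ) : ℝ)) = 2 := by norm_num
      rw [e]
      exact S.main3 h
  obtain ⟨C, hC, h⟩ := key
  refine ⟨C, fun N hN => ?_⟩
  rw [hn]
  have hfin : {D : ℤ | |D| ≤ N ∧ ∃ (m : ℕ) (x : ℚ) (y : ℤ), k ≤ m ∧ (∀ d : ℤ, d ^ m ∣ D → IsUnit d) ∧ y ≠ 0 ∧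
      (∃ z : ℤ, (M : ℚ) * x = z) ∧ (D : ℚ) * (y : ℚ) ^ m = f.eval x}.Finite := by
    refine (Set.finite_Icc (-(N : ℤ)) N).subset fun D hD => ?_
    rw [Set.mem_Icc]
    exact abs_le.1 hD.1
  rw [Set.ncard_eq_toFinset_card _ hfin]
  refine h N hN _ fun D hD => ?_
  rw [Set.Finite.mem_toFinset] at hD
  obtain ⟨hDN, m, x, y, hm, hfr, hy, hx, heq⟩ := hD
  obtain ⟨Z, hZ⟩ := hS x hx
  have hm2 : 2 ≤ m := by omega
  have hD0 : D ≠ 0 := by
    rintro rfl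
    exact not_isUnit_zero (hfr 0 (dvd_zero _))
  have e1 : (S.a : ℤ) * D * y ^ m = S.F Z := by
    have h1 : (((S.a : ℤ) * D * y ^ m : ℤ) : ℚ) = (S.F Z : ℤ) := by
      rw [hZ, ← heq]
      push_cast
      ring
    exact_mod_cast h1
  refine ⟨?_, m, Z, y, hm, hfr, ?_, e1⟩
  · rw [Int.abs_eq_natAbs] at hDN
    exact_mod_cast hDN
  · rw [← e1]
    exact mul_ne_zero (mul_ne_zero (by exact_mod_cast S.ha.ne') hD0) (pow_ne_zero _ hy)

end Pool.Agent.H49SE
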